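import Pool.Agent.H62.AFN.Tsh
import Pool.Agent.H62.OWN.Afr
import Pool.Agent.H62.OWN.Afv

/-!
# The natural box of a line

`NB3`: the natural box around the line of a sample in the window, for the coordinates `y`, `u`, `v`,
where `u` has the slope `a` and `v - t u` the slope `b` over `y` at the exact point. `var_nb`: the
variation of the gradient on the box, from the second derivatives in natural directions. `fib_err`:
the difference of the label minus its gradient at the exact point, at the lines through this point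
and at the plane.
-/

set_option autoImplicit false

namespace Pool.JVE

open Finset MvPolynomial
open Pool.Agent.H49.Ent Pool.Agent.H32.Dense Pool.STK Pool.KA Pool.KSAT Pool.K2S Pool.PB Pool.GEN
open Pool.MIC6 (mvp wt wp wpt wp_eq dpt dpt_near ptr_x)
open Pool.PB.Trl (rt rt_mem t_rt)
open Pool.D2R (hs dd der_curve hs_add_left hs_smul_left)

variable {m J : ℕ}

/-- The line from `x` in the direction `Δ`. -/
noncomputable def lnp (x Δ : Option (Fin m) → ℝ) (o : Option (Fin m)) : Polynomial ℝ :=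
  Polynomial.C (x o) + Polynomial.C (Δ o) * Polynomial.X

theorem eval_lnp (x Δ : Option (Fin m) → ℝ) (r : ℝ) :
    (fun o => (lnp x Δ o).eval r) = x + r • Δ := by
  funext o
  unfold lnp
  simp only [Polynomial.eval_add, Polynomial.eval_mul, Polynomial.eval_C, Polynomial.eval_X]
  rw [Pi.add_apply, Pi.smul_apply, smul_eq_mul]
  ring

theorem der_lnp (x Δ : Option (Fin m) → ℝ) (r : ℝ) (R : MvPolynomial (Option (Fin m)) ℝ) :
    (Polynomial.derivative (MvPolynomial.aeval (lnp x Δ) R)).eval r = dd R (x + r • Δ) Δ := by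
  have hd : ∀ o, Polynomial.derivative (lnp x Δ o) = Polynomial.C (Δ o) := by
    intro o
    unfold lnp
    simp only [Polynomial.derivative_add, Polynomial.derivative_C, Polynomial.derivative_mul,
      Polynomial.derivative_X]
    ring
  exact (der_curve (lnp x Δ) (x := x + r • Δ) (V := Δ) (Z := 0) (s := r)
    (fun o => congrFun (eval_lnp x Δ r) o) (fun o => by rw [hd, Polynomial.eval_C])
    (fun o => by rw [hd, Polynomial.derivative_C, Polynomial.eval_zero]; rfl) R).1

/-- The mean value inequality on a segment. -/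
theorem seg_mv {R : MvPolynomial (Option (Fin m)) ℝ} {x Δ : Option (Fin m) → ℝ} {B : ℝ}
    (h : ∀ r ∈ Set.Icc (0 : ℝ) 1, |dd R (x + r • Δ) Δ| ≤ B) :
    |eval (x + Δ) R - eval x R| ≤ B := by
  have h1 := mvt_pol (q := MvPolynomial.aeval (lnp x Δ) R) (B := B) (fun t ht => by
    rw [der_lnp]
    exact h t ht) (s := 1) (t := 0) ⟨zero_le_one, le_rfl⟩ ⟨le_rfl, zero_le_one⟩
  rw [Pool.KBX.eval_aeval_poly, Pool.KBX.eval_aeval_poly, eval_lnp, eval_lnp, one_smul, zero_smul,
    add_zero] at h1
  exact h1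

/-- The derivative in the direction `W`, as a polynomial. -/
noncomputable def gdp (G : MvPolynomial (Option (Fin m)) ℝ) (W : Option (Fin m) → ℝ) :
    MvPolynomial (Option (Fin m)) ℝ := ∑ o, C (W o) * pderiv o G

theorem eval_gdp (G : MvPolynomial (Option (Fin m)) ℝ) (W x : Option (Fin m) → ℝ) :
    eval x (gdp G W) = dd G x W := by
  unfold gdp dd
  rw [map_sum]
  exact Finset.sum_congr rfl fun o _ => by
    rw [map_mul, eval_C]
    ring

theorem dd_gdp (G : MvPolynomial (Option (Fin m)) ℝ) (W x Δ : Option (Fin m) → ℝ) :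
    dd (gdp G W) x Δ = hs G x Δ W := by
  classical
  unfold gdp hs dd
  have h : ∀ o', eval x (pderiv o' (∑ o, C (W o) * pderiv o G)) =
      ∑ o, W o * eval x (pderiv o' (pderiv o G)) := by
    intro o'
    rw [map_sum, map_sum]
    exact Finset.sum_congr rfl fun o _ => by
      rw [pderiv_C_mul, map_mul, eval_C]
  rw [Finset.sum_congr rfl fun o' _ => by rw [h o', Finset.sum_mul], Finset.sum_comm]
  refine Finset.sum_congr rfl fun o _ => ?_
  rw [Finset.sum_mul]
  exact Finset.sum_congr rfl fun o' _ => by ring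

/-- The variation of the gradient on a segment. -/
theorem dd_mv {G : MvPolynomial (Option (Fin m)) ℝ} {x Δ W : Option (Fin m) → ℝ} {B : ℝ}
    (h : ∀ r ∈ Set.Icc (0 : ℝ) 1, |hs G (x + r • Δ) Δ W| ≤ B) :
    |dd G (x + Δ) W - dd G x W| ≤ B := by
  have h1 := seg_mv (R := gdp G W) (x := x) (Δ := Δ) (B := B) (fun r hr => by
    rw [dd_gdp]
    exact h r hr)
  rw [eval_gdp, eval_gdp] at h1
  exact h1

/-- The derivative of the shifted polynomial. -/
theorem dd_shp (g : Option (Fin m) → ℝ) (G : MvPolynomial (Option (Fin m)) ℝ)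
    (x Δ : Option (Fin m) → ℝ) : dd (shp g G) x Δ = dd G x Δ - lf g Δ := by
  classical
  have h : ∀ o, eval x (pderiv o (shp g G)) = eval x (pderiv o G) - g o := by
    intro o
    unfold shp
    rw [map_sub, map_sub, map_sum, map_sum]
    congr 1
    rw [Finset.sum_eq_single o]
    · rw [pderiv_C_mul, pderiv_X_self, mul_one, eval_C]
    · intro o' _ ho'
      rw [pderiv_C_mul, pderiv_X_of_ne ho', mul_zero, map_zero]
    · intro h'
      exact absurd (Finset.mem_univ _) h'
  unfold dd lf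
  rw [← Finset.sum_sub_distrib]
  exact Finset.sum_congr rfl fun o _ => by
    rw [h]
    ring

/-- The derivative in a direction only depends on the coordinates of the label. -/
theorem dd_congr {I : Finset (Fin m)} {G : MvPolynomial (Option (Fin m)) ℝ}
    (hdep : ∀ b b' : Option (Fin m) → ℝ, b none = b' none →
      (∀ i ∈ I, b (some i) = b' (some i)) → eval b G = eval b' G)
    (x : Option (Fin m) → ℝ) {W W' : Option (Fin m) → ℝ} (hn : W none = W' none)
    (hW : ∀ i ∈ I, W (some i) = W' (some i)) : dd G x W = dd G x W' := by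
  unfold dd
  refine Finset.sum_congr rfl fun o _ => ?_
  cases o with
  | none => rw [hn]
  | some i =>
    by_cases hi : i ∈ I
    · rw [hW i hi]
    · rw [pd_zero_out hdep hi, map_zero, zero_mul, zero_mul]

/-- The deviation from the line of the sample, at the same time. -/
def dl (F : Fam m J) (ω : F.Ω) (b : Option (Fin m) → ℝ) (j : Fin m) : ℝ :=
  b (some j) - (F.u ω j + F.d ω j * b none)

/-- **The natural box** of the line in the window. -/
structure NB3 (F : Fam m J) (w : ℕ) (y u v : Fin m) (a b t aU aD : ℝ) (ω : F.Ω)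
    (x : Option (Fin m) → ℝ) : Prop where
  tm : x none ∈ Set.Icc (wt F w ω 0) (wt F w ω 1)
  ny : |dl F ω x y| ≤ 3 / 2 ^ w
  nu : |dl F ω x u - a * dl F ω x y| ≤ 1 / 2 ^ w * aU
  nv : |dl F ω x v - t * dl F ω x u - b * dl F ω x y| ≤ 1 / 2 ^ w * aD

theorem dl_seg (F : Fam m J) (ω : F.Ω) (x Δ : Option (Fin m) → ℝ) (r : ℝ) (j : Fin m) :
    dl F ω (x + r • Δ) j = (1 - r) * dl F ω x j + r * dl F ω (x + Δ) j := by
  unfold dl
  simp only [Pi.add_apply, Pi.smul_apply, smul_eq_mul]
  ring

theorem cvx_abs {r p q B : ℝ} (hr : r ∈ Set.Icc (0 : ℝ) 1) (hp : |p| ≤ B) (hq : |q| ≤ B) :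
    |(1 - r) * p + r * q| ≤ B := by
  have h1 : |(1 - r) * p| ≤ (1 - r) * B := by
    rw [abs_mul, abs_of_nonneg (by linarith [hr.2])]
    exact mul_le_mul_of_nonneg_left hp (by linarith [hr.2])
  have h2 : |r * q| ≤ r * B := by
    rw [abs_mul, abs_of_nonneg hr.1]
    exact mul_le_mul_of_nonneg_left hq hr.1
  refine (abs_add_le _ _).trans ?_
  linarith

/-- The natural box is convex. -/
theorem NB3.seg {F : Fam m J} {w : ℕ} {y u v : Fin m} {a b t aU aD : ℝ} {ω : F.Ω}
    {x Δ : Option (Fin m) → ℝ} (h : NB3 F w y u v a b t aU aD ω x)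
    (h' : NB3 F w y u v a b t aU aD ω (x + Δ)) {r : ℝ} (hr : r ∈ Set.Icc (0 : ℝ) 1) :
    NB3 F w y u v a b t aU aD ω (x + r • Δ) := by
  refine ⟨?_, ?_, ?_, ?_⟩
  · have e1 : (x + r • Δ) none = (1 - r) * x none + r * (x + Δ) none := by
      simp only [Pi.add_apply, Pi.smul_apply, smul_eq_mul]
      ring
    rw [e1]
    have h1 := h.tm
    have h2 := h'.tm
    constructor
    · have k1 : (1 - r) * wt F w ω 0 ≤ (1 - r) * x none :=
        mul_le_mul_of_nonneg_left h1.1 (by linarith [hr.2])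
      have k2 : r * wt F w ω 0 ≤ r * (x + Δ) none := mul_le_mul_of_nonneg_left h2.1 hr.1
      linarith
    · have k1 : (1 - r) * x none ≤ (1 - r) * wt F w ω 1 :=
        mul_le_mul_of_nonneg_left h1.2 (by linarith [hr.2])
      have k2 : r * (x + Δ) none ≤ r * wt F w ω 1 := mul_le_mul_of_nonneg_left h2.2 hr.1
      linarith
  · rw [dl_seg]
    exact cvx_abs hr h.ny h'.ny
  · rw [dl_seg, dl_seg]
    have e1 : (1 - r) * dl F ω x u + r * dl F ω (x + Δ) u -
        a * ((1 - r) * dl F ω x y + r * dl F ω (x + Δ) y) =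
        (1 - r) * (dl F ω x u - a * dl F ω x y) +
        r * (dl F ω (x + Δ) u - a * dl F ω (x + Δ) y) := by ring
    rw [e1]
    exact cvx_abs hr h.nu h'.nu
  · rw [dl_seg, dl_seg, dl_seg]
    have e1 : (1 - r) * dl F ω x v + r * dl F ω (x + Δ) v -
        t * ((1 - r) * dl F ω x u + r * dl F ω (x + Δ) u) -
        b * ((1 - r) * dl F ω x y + r * dl F ω (x + Δ) y) =
        (1 - r) * (dl F ω x v - t * dl F ω x u - b * dl F ω x y) +
        r * (dl F ω (x + Δ) v - t * dl F ω (x + Δ) u - b * dl F ω (x + Δ) y) := by ring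
    rw [e1]
    exact cvx_abs hr h.nv h'.nv

/-- **The decomposition of a direction** in the natural directions. -/
theorem dec4 {G : MvPolynomial (Option (Fin m)) ℝ} {y u v : Fin m} (hyu : y ≠ u) (hyv : y ≠ v)
    (huv : u ≠ v) (hdep : ∀ b b' : Option (Fin m) → ℝ, b none = b' none →
      (∀ i ∈ ({y, u, v} : Finset (Fin m)), b (some i) = b' (some i)) → eval b G = eval b' G)
    (F : Fam m J) (ω : F.Ω) {a b t aU aD : ℝ} (hU : 0 < aU) (hD : 0 < aD)
    (x W Δ : Option (Fin m) → ℝ) : hs G x Δ W = Δ none * hs G x (bd F ω) W +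
      (Δ (some y) - F.d ω y * Δ none) * hs G x (svc (sl3 y u v a (b + t * a))) W +
      ((Δ (some u) - F.d ω u * Δ none) - a * (Δ (some y) - F.d ω y * Δ none)) / aU *
        hs G x (aU • eu u v t) W +
      ((Δ (some v) - F.d ω v * Δ none) - t * (Δ (some u) - F.d ω u * Δ none) -
        b * (Δ (some y) - F.d ω y * Δ none)) / aD * hs G x (aD • ev v) W := by
  obtain ⟨cu, hcu⟩ : ∃ cu, cu = ((Δ (some u) - F.d ω u * Δ none) -
    a * (Δ (some y) - F.d ω y * Δ none)) / aU := ⟨_, rfl⟩
  obtain ⟨cv, hcv⟩ : ∃ cv, cv = ((Δ (some v) - F.d ω v * Δ none) -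
    t * (Δ (some u) - F.d ω u * Δ none) - b * (Δ (some y) - F.d ω y * Δ none)) / aD := ⟨_, rfl⟩
  obtain ⟨ly, hly⟩ : ∃ ly, ly = Δ (some y) - F.d ω y * Δ none := ⟨_, rfl⟩
  have h1 : hs G x Δ W = hs G x (Δ none • bd F ω + ly • svc (sl3 y u v a (b + t * a)) +
      cu • (aU • eu u v t) + cv • (aD • ev v)) W := by
    have hsy : svc (sl3 y u v a (b + t * a)) (some y) = 1 := if_pos rfl
    have hsu : svc (sl3 y u v a (b + t * a)) (some u) = a := by
      show (if u = y then (1 : ℝ) else if u = u then a else _) = a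
      rw [if_neg (Ne.symm hyu), if_pos rfl]
    have hsv : svc (sl3 y u v a (b + t * a)) (some v) = b + t * a := by
      show (if v = y then (1 : ℝ) else if v = u then a else if v = v then _ else _) = _
      rw [if_neg (Ne.symm hyv), if_neg (Ne.symm huv), if_pos rfl]
    have huy : eu u v t (some y) = 0 := by
      show (if y = u then (1 : ℝ) else if y = v then t else 0) = 0
      rw [if_neg hyu, if_neg hyv]
    have huu : eu u v t (some u) = 1 := by
      show (if u = u then (1 : ℝ) else _) = 1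
      rw [if_pos rfl]
    have huv' : eu u v t (some v) = t := by
      show (if v = u then (1 : ℝ) else if v = v then t else 0) = t
      rw [if_neg (Ne.symm huv), if_pos rfl]
    have hvy : ev v (some y) = 0 := by
      show (if y = v then (1 : ℝ) else 0) = 0
      rw [if_neg hyv]
    have hvu : ev v (some u) = 0 := by
      show (if u = v then (1 : ℝ) else 0) = 0
      rw [if_neg huv]
    have hvv : ev v (some v) = 1 := by
      show (if v = v then (1 : ℝ) else 0) = 1
      rw [if_pos rfl]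
    have hbd : ∀ j, bd F ω (some j) = F.d ω j := fun _ => rfl
    refine hs_congr hdep _ _ ?_ fun i hi => ?_
    · simp only [Pi.add_apply, Pi.smul_apply, smul_eq_mul]
      show Δ none = Δ none * 1 + ly * 0 + cu * (aU * 0) + cv * (aD * 0)
      ring
    · simp only [Pi.add_apply, Pi.smul_apply, smul_eq_mul]
      rcases Finset.mem_insert.1 hi with rfl | hi
      · rw [hsy, huy, hvy, hbd, hly]
        ring
      · rcases Finset.mem_insert.1 hi with rfl | hi
        · rw [hsu, huu, hvu, hbd, hcu, hly]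
          field_simp
          ring
        · rw [Finset.mem_singleton.1 hi, hsv, huv', hvv, hbd, hcu, hcv, hly]
          field_simp
          ring
  rw [h1, hs_add_left, hs_add_left, hs_add_left, hs_smul_left, hs_smul_left,
    hs_smul_left G x (aU • eu u v t) W cu, hs_smul_left G x (aD • ev v) W cv, hcu, hcv, hly]

/-- The natural directions. -/
noncomputable def nd4 (F : Fam m J) (y u v : Fin m) (a b t aU aD : ℝ) (ω : F.Ω) :
    Fin 4 → Option (Fin m) → ℝ :=
  ![bd F ω, svc (sl3 y u v a (b + t * a)), aU • eu u v t, aD • ev v]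

/-- **The variation of the gradient** on the natural box. -/
theorem var_nb {G : MvPolynomial (Option (Fin m)) ℝ} {y u v : Fin m} (hyu : y ≠ u) (hyv : y ≠ v)
    (huv : u ≠ v) (hdep : ∀ b b' : Option (Fin m) → ℝ, b none = b' none →
      (∀ i ∈ ({y, u, v} : Finset (Fin m)), b (some i) = b' (some i)) → eval b G = eval b' G)
    {F : Fam m J} {w : ℕ} {ω : F.Ω} {a b t aU aD N : ℝ} (hU : 0 < aU) (hD : 0 < aD)
    {W : Option (Fin m) → ℝ}
    (hN : ∀ x, NB3 F w y u v a b t aU aD ω x → ∀ i,
      (1 / 2 ^ w) ^ 2 * |hs G x (nd4 F y u v a b t aU aD ω i) W| ≤ N)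
    {x x' : Option (Fin m) → ℝ} (hx : NB3 F w y u v a b t aU aD ω x)
    (hx' : NB3 F w y u v a b t aU aD ω x') : |dd G x' W - dd G x W| ≤ 11 * (2 ^ w * N) := by
  obtain ⟨Δ, hΔ⟩ : ∃ Δ, Δ = x' - x := ⟨_, rfl⟩
  have e0 : x' = x + Δ := by rw [hΔ]; abel
  rw [e0] at hx' ⊢
  have pw : (0 : ℝ) < 1 / 2 ^ w := by positivity
  have hN0 : 0 ≤ N := le_trans (by positivity) (hN x hx 0)
  refine dd_mv fun r hr => ?_
  have hb := hN _ (hx.seg hx' hr)
  have hb' : ∀ i, |hs G (x + r • Δ) (nd4 F y u v a b t aU aD ω i) W| ≤ (2 ^ w) ^ 2 * N := by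
    intro i
    have h1 := hb i
    have h2 : (2 ^ w) ^ 2 * ((1 / 2 ^ w) ^ 2 *
        |hs G (x + r • Δ) (nd4 F y u v a b t aU aD ω i) W|) =
        |hs G (x + r • Δ) (nd4 F y u v a b t aU aD ω i) W| := by
      field_simp
    rw [← h2]
    exact mul_le_mul_of_nonneg_left h1 (by positivity)
  have b0 := hb' 0
  have b1 := hb' 1
  have b2 := hb' 2
  have b3 := hb' 3
  have f0 : nd4 F y u v a b t aU aD ω 0 = bd F ω := rfl
  have f1 : nd4 F y u v a b t aU aD ω 1 = svc (sl3 y u v a (b + t * a)) := rfl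
  have f2 : nd4 F y u v a b t aU aD ω 2 = aU • eu u v t := rfl
  have f3 : nd4 F y u v a b t aU aD ω 3 = aD • ev v := rfl
  rw [f0] at b0
  rw [f1] at b1
  rw [f2] at b2
  rw [f3] at b3
  have hdl : ∀ j, Δ (some j) - F.d ω j * Δ none = dl F ω (x + Δ) j - dl F ω x j := by
    intro j
    unfold dl
    simp only [Pi.add_apply]
    ring
  have c0 : |Δ none| ≤ 1 / 2 ^ w := by
    have h1 := hx.tm
    have h2 := hx'.tm
    have e1 : Δ none = (x + Δ) none - x none := by
      rw [Pi.add_apply]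
      ring
    have e2 : wt F w ω 1 = wt F w ω 0 + 1 / 2 ^ w := by
      unfold wt
      ring
    rw [e1, abs_le]
    constructor <;> linarith [h1.1, h1.2, h2.1, h2.2]
  have c1 : |Δ (some y) - F.d ω y * Δ none| ≤ 6 * (1 / 2 ^ w) := by
    rw [hdl]
    refine (abs_sub _ _).trans ((add_le_add hx'.ny hx.ny).trans (le_of_eq ?_))
    ring
  have c2 : |((Δ (some u) - F.d ω u * Δ none) - a * (Δ (some y) - F.d ω y * Δ none)) / aU| ≤
      2 * (1 / 2 ^ w) := by
    rw [hdl, hdl, abs_div, abs_of_pos hU, div_le_iff₀ hU]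
    have e1 : dl F ω (x + Δ) u - dl F ω x u - a * (dl F ω (x + Δ) y - dl F ω x y) =
        (dl F ω (x + Δ) u - a * dl F ω (x + Δ) y) - (dl F ω x u - a * dl F ω x y) := by ring
    rw [e1]
    refine (abs_sub _ _).trans ((add_le_add hx'.nu hx.nu).trans (le_of_eq ?_))
    ring
  have c3 : |((Δ (some v) - F.d ω v * Δ none) - t * (Δ (some u) - F.d ω u * Δ none) -
      b * (Δ (some y) - F.d ω y * Δ none)) / aD| ≤ 2 * (1 / 2 ^ w) := by
    rw [hdl, hdl, hdl, abs_div, abs_of_pos hD, div_le_iff₀ hD]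
    have e1 : dl F ω (x + Δ) v - dl F ω x v - t * (dl F ω (x + Δ) u - dl F ω x u) -
        b * (dl F ω (x + Δ) y - dl F ω x y) =
        (dl F ω (x + Δ) v - t * dl F ω (x + Δ) u - b * dl F ω (x + Δ) y) -
        (dl F ω x v - t * dl F ω x u - b * dl F ω x y) := by ring
    rw [e1]
    refine (abs_sub _ _).trans ((add_le_add hx'.nv hx.nv).trans (le_of_eq ?_))
    ring
  rw [dec4 hyu hyv huv hdep F ω hU hD (x + r • Δ) W Δ (a := a) (b := b) (t := t)]
  obtain ⟨B, hB⟩ : ∃ B : ℝ, B = (2 ^ w) ^ 2 * N := ⟨_, rfl⟩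
  have hB0 : 0 ≤ B := by rw [hB]; positivity
  rw [← hB] at b0 b1 b2 b3
  have m0 := mul_le_mul c0 b0 (abs_nonneg _) pw.le
  have m1 := mul_le_mul c1 b1 (abs_nonneg _) (by positivity)
  have m2 := mul_le_mul c2 b2 (abs_nonneg _) (by positivity)
  have m3 := mul_le_mul c3 b3 (abs_nonneg _) (by positivity)
  rw [← abs_mul] at m0 m1 m2 m3
  refine (abs_add_le _ _).trans ((add_le_add ((abs_add_le _ _).trans (add_le_add
    ((abs_add_le _ _).trans (add_le_add m0 m1)) m2)) m3).trans (le_of_eq ?_))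
  rw [hB]
  field_simp
  ring

end Pool.JVE
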