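import Pool.Agent.H62.AFN.Cn3

/-!
# An affine label over three coordinates, in natural units

`cls3_nat`: where the mixed second derivatives at the exact points are small there is an affine
closed label; nothing is assumed about the velocity of `k`.
-/

set_option autoImplicit false

namespace Pool.JVE

open Finset MvPolynomial
open Pool.Agent.H49.Ent Pool.Agent.H32.Dense Pool.STK Pool.KA Pool.KSAT Pool.K2S Pool.PB Pool.GEN
open Pool.MIC6 (dpt dpt_near mvp wt wp wpt wp_eq)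
open Pool.FLF (Fam.sub)
open Pool.PB.Trl (rt rt_mem t_rt)
open Pool.D2R (hs dd hs_smul_right)

variable {m J : ℕ}

/-- **An affine label where the mixed second derivatives are small.** -/
theorem cls3_nat (m K : ℕ) : ∃ C : ℝ, 1 ≤ C ∧ ∀ {J : ℕ} (F : Fam m J) (A : F.Ω → Prop)
    (_ : 0 < Pe F.p A) {y u v k : Fin m} {e w ρ PG M' N x R R' P c : ℕ} {V : Type}
    {z : PtT F → V} {z' : LnT F → V} {G : V → MvPolynomial (Option (Fin m)) ℝ}
    {au cu bv cv θp : PtT F → ℝ} {θs ju jv : LnT F → ℝ} {aU aD θ : ℝ}, y ≠ u → y ≠ v →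
    u ≠ v → LbOK F {y, u, v} k K e J w ρ PG A z z' G →
    ND F A y u v w e au cu bv cv θp θs ju jv aU aD (1 / 2 ^ c) → w ≤ J →
    0 < aU → aU ≤ 1 → 0 < aD → aD ≤ 1 →
    (∀ ω, A ω → |Au F w z G u v θp aU ω| ≤ 1 / 2 ^ x ∧ |Av F w z G v aD ω| ≤ 1 / 2 ^ x) →
    (∀ ω, A ω → ∀ W : Option (Fin m) → ℝ, (∀ o, |W o| ≤ 2 ^ e) →
      (1 / 2 ^ w) ^ 2 * |hs (G (z (ptr F J ω))) (bt F ω) (bd F ω) W -
        hs (G (z (ptr F J ω))) (dpt (ptr F J ω)) (bd F ω) W| ≤ 1 / 2 ^ R') →
    (∀ ω, A ω → ∀ o, |eval (dpt (ptr F J ω)) (pderiv o (G (z (ptr F J ω)))) -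
      eval (bt F ω) (pderiv o (G (z (ptr F J ω))))| ≤ 2 ^ w * (1 / 2 ^ (R' + e))) →
    (∀ ω, A ω → ∀ o, |eval (dpt (ptr F J ω)) (pderiv o (G (z (ptr F J ω))))| ≤ 2 ^ e) →
    (∀ ω, A ω → ∀ σ ∈ Set.Icc (0 : ℝ) 1,
      |eval (wpt F w ω σ) (pderiv (some y) (G (z' (slam F w ω)))) +
        (au (ptr F J ω) * eval (wpt F w ω σ) (pderiv (some u) (G (z' (slam F w ω)))) +
        (bv (ptr F J ω) + θp (ptr F J ω) * au (ptr F J ω)) *
          eval (wpt F w ω σ) (pderiv (some v) (G (z' (slam F w ω))))) -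
        akp z G y u v au bv θp (ptr F J ω)| ≤ 2 ^ w * (1 / 2 ^ R)) → 0 ≤ θ →
    (∀ (B : F.Ω → Prop) (hB : 0 < Pe F.p B), Sub B A → Pe F.p A / 2 ≤ Pe F.p B →
      (Fam.sub F B hB).Tm θ) → C * (θ + 1) ≤ ((J : ℝ) - w) * Real.log 2 →
    C * Real.exp (C * (θ + 1)) ≤ 2 ^ N → x ≤ R' → x ≤ R → x ≤ PG → M' + N + w + 6 ≤ x →
    w + M' + (3 * e + 4) + m + 3 ≤ J → P + m + 3 ≤ w + M' →
    ∃ B : F.Ω → Prop, Sub B A ∧ Pe F.p A ≤ 36 * cI m * Pe F.p B ∧
      ∀ ρ : ℕ, Lb F {y, u, v} k 1 (3 * e + 5) J w ρ P B := by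
  classical
  obtain ⟨C₁, hC₁, hgrd⟩ := grd_dif m K
  have hm0 : (0 : ℝ) ≤ m := Nat.cast_nonneg m
  refine ⟨C₁ + (m + 1), by linarith, ?_⟩
  intro J F A hA y u v k e w ρ PG M' N x R R' P c V z z' G au cu bv cv θp θs ju jv aU aD θ hyu
    hyv huv hlab hnd hw hU hU1 hD hD1 hsm hcH hcG hbG hrel hθ hTm hJ' hN'
    n1 n2 n8 n3 n5 n6
  have hdeg := hlab.deg
  have hcl := hlab.cls
  have thc := hnd.thc
  have hθb := hnd.hθ
  have hJ : C₁ * (θ + 1) ≤ ((J : ℝ) - w) * Real.log 2 :=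
    le_trans (mul_le_mul_of_nonneg_right (by linarith) (by linarith)) hJ'
  have hX1 : 1 ≤ Real.exp ((C₁ + (m + 1)) * (θ + 1)) := Real.one_le_exp (by positivity)
  have hN : Real.exp (C₁ * (θ + 1)) ≤ 2 ^ N := by
    have h1 : Real.exp (C₁ * (θ + 1)) ≤ Real.exp ((C₁ + (m + 1)) * (θ + 1)) :=
      Real.exp_le_exp.2 (mul_le_mul_of_nonneg_right (by linarith) (by linarith))
    exact h1.trans (le_trans (le_mul_of_one_le_left (by positivity) (by linarith)) hN')
  have hmN : (m : ℝ) + 1 ≤ 2 ^ N := by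
    refine le_trans ?_ (le_trans (le_mul_of_one_le_right (by linarith) hX1) hN')
    linarith
  have pe : (1 : ℝ) ≤ 2 ^ e := one_le_pow₀ (by norm_num)
  have pw : (0 : ℝ) < 2 ^ w := by positivity
  have px : (0 : ℝ) < 1 / 2 ^ x := by positivity
  have hxR' : (1 : ℝ) / 2 ^ R' ≤ 1 / 2 ^ x := inv_mono n1
  have hxR : (1 : ℝ) / 2 ^ R ≤ 1 / 2 ^ x := inv_mono n2
  obtain ⟨Ru, hRu⟩ : ∃ Ru : LnT F → MvPolynomial (Option (Fin m)) ℝ, Ru = fun s =>
    pderiv (some u) (G (z' s)) + C (θs s) * pderiv (some v) (G (z' s)) := ⟨_, rfl⟩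
  obtain ⟨Rv, hRv⟩ : ∃ Rv : LnT F → MvPolynomial (Option (Fin m)) ℝ, Rv = fun s =>
    pderiv (some v) (G (z' s)) := ⟨_, rfl⟩
  have hdv : ∀ s, (Rv s).totalDegree ≤ K := fun s => by
    rw [hRv]
    exact (deg_pd _ _).trans (hdeg _)
  have hdu : ∀ s, (Ru s).totalDegree ≤ K := fun s => by
    rw [hRu]
    refine (totalDegree_add _ _).trans (max_le ((deg_pd _ _).trans (hdeg _)) ?_)
    refine (totalDegree_mul _ _).trans ?_
    rw [totalDegree_C, zero_add]
    exact (deg_pd _ _).trans (hdeg _)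
  -- the bounds of the mixed second derivatives on the lines
  have hb : ∀ ω, A ω → ∀ (a : ℝ) (W : Option (Fin m) → ℝ), 0 < a →
      (∀ o, |(a • W) o| ≤ 2 ^ e) → |hp F w z G (ptr F J ω) (bd F ω) (a • W)| ≤ 1 / 2 ^ x →
      |hs (G (z' (slam F w ω))) (bt F ω) (bd F ω) W| ≤ (2 ^ w) ^ 2 * (2 * (1 / 2 ^ x)) / a := by
    intro ω hω a W ha hW h1
    have h2 := hcH ω hω (a • W) hW
    unfold hp at h1
    rw [hcl ω hω] at h1 h2
    have hpos : (0 : ℝ) < (1 / 2 ^ w) ^ 2 := by positivity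
    rw [abs_mul, abs_of_pos hpos] at h1
    have h3 : (1 / 2 ^ w) ^ 2 * |hs (G (z' (slam F w ω))) (bt F ω) (bd F ω) (a • W)| ≤
        2 * (1 / 2 ^ x) := by
      have h4 : |hs (G (z' (slam F w ω))) (bt F ω) (bd F ω) (a • W)| ≤
          |hs (G (z' (slam F w ω))) (bt F ω) (bd F ω) (a • W) -
            hs (G (z' (slam F w ω))) (dpt (ptr F J ω)) (bd F ω) (a • W)| +
          |hs (G (z' (slam F w ω))) (dpt (ptr F J ω)) (bd F ω) (a • W)| := by
        have := abs_add_le (hs (G (z' (slam F w ω))) (bt F ω) (bd F ω) (a • W) -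
            hs (G (z' (slam F w ω))) (dpt (ptr F J ω)) (bd F ω) (a • W))
          (hs (G (z' (slam F w ω))) (dpt (ptr F J ω)) (bd F ω) (a • W))
        rwa [sub_add_cancel] at this
      have h5 := mul_le_mul_of_nonneg_left h4 hpos.le
      rw [mul_add] at h5
      linarith
    rw [hs_smul_right, abs_mul, abs_of_pos ha] at h3
    rw [le_div_iff₀ ha]
    have h6 : (1 / 2 ^ w) ^ 2 * (a * |hs (G (z' (slam F w ω))) (bt F ω) (bd F ω) W|) *
        (2 ^ w) ^ 2 = |hs (G (z' (slam F w ω))) (bt F ω) (bd F ω) W| * a := by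
      field_simp
    rw [← h6, mul_comm _ (2 * (1 / 2 ^ x) : ℝ)]
    exact mul_le_mul_of_nonneg_right h3 (by positivity)
  obtain ⟨Bu, hBu⟩ : ∃ Bu : ℝ, Bu = (2 ^ w) ^ 2 * (2 * (1 / 2 ^ x)) / aU := ⟨_, rfl⟩
  obtain ⟨Bv, hBv⟩ : ∃ Bv : ℝ, Bv = (2 ^ w) ^ 2 * (2 * (1 / 2 ^ x)) / aD := ⟨_, rfl⟩
  have hBu0 : 0 < Bu := by rw [hBu]; positivity
  have hBv0 : 0 < Bv := by rw [hBv]; positivity
  obtain ⟨A₁, a1, a2, a3⟩ := hgrd F A hA (R := Ru) (B := Bu) (θ := θ) hw hdu hBu0 hθ
    (fun hA' => hTm A hA' (fun _ h => h) (by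
      have := Pe_nonneg F.isLaw A
      linarith)) hJ (fun ω hω => by
      have h1 := hb ω hω aU (eu u v (θp (ptr F J ω))) hU
        (eu_le pe hU.le hU1 (hθb ω hω)) (hsm ω hω).1
      rw [hs_eu huv, thc ω hω, ← hBu] at h1
      rw [hRu]
      show |dd (pderiv (some u) (G (z' (slam F w ω))) + C (θs (slam F w ω)) *
        pderiv (some v) (G (z' (slam F w ω)))) (bt F ω) (bd F ω)| ≤ _
      rw [dd_lin]
      exact h1)
  have hA₁ : 0 < Pe F.p A₁ := by linarith
  obtain ⟨A₂, c1, c2, c3⟩ := hgrd F A₁ hA₁ (R := Rv) (B := Bv) (θ := θ) hw hdv hBv0 hθ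
    (fun hA' => hTm A₁ hA' a1 a2) hJ (fun ω hω => by
      have h1 := hb ω (a1 ω hω) aD (ev v) hD (ev_le pe hD.le hD1) (hsm ω (a1 ω hω)).2
      rw [hs_ev, ← hBv] at h1
      rw [hRv]
      exact h1)
  have hA₂ : Sub A₂ A := fun ω hω => a1 ω (c1 ω hω)
  -- the differences
  have hbu : Real.exp (C₁ * (θ + 1)) * (1 / 2 ^ w * Bu) ≤ 2 ^ (N + w + 1) / 2 ^ x / aU := by
    have h1 : 2 ^ (N + w + 1) / 2 ^ x / aU = 2 ^ N * (1 / 2 ^ w * Bu) := by
      rw [hBu, pow_succ, pow_add]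
      field_simp
    rw [h1]
    exact mul_le_mul_of_nonneg_right hN (by positivity)
  have hbv : Real.exp (C₁ * (θ + 1)) * (1 / 2 ^ w * Bv) ≤ 2 ^ (N + w + 1) / 2 ^ x / aD := by
    have h1 : 2 ^ (N + w + 1) / 2 ^ x / aD = 2 ^ N * (1 / 2 ^ w * Bv) := by
      rw [hBv, pow_succ, pow_add]
      field_simp
    rw [h1]
    exact mul_le_mul_of_nonneg_right hN (by positivity)
  have hrnd : ∀ a : ℝ, 0 < a → a ≤ 1 → 2 ^ (N + w + 1) / 2 ^ x / a +
      2 * (2 ^ w * (1 / 2 ^ R')) ≤ 2 ^ (N + w + 2) / 2 ^ x / a := by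
    intro a ha ha1
    have h1 : (2 : ℝ) ^ (N + w + 2) / 2 ^ x / a = 2 ^ (N + w + 1) / 2 ^ x / a +
        2 ^ (N + w + 1) / 2 ^ x / a := by
      rw [pow_succ _ (N + w + 1)]
      ring
    rw [h1]
    have h2 : 2 * (2 ^ w * (1 / 2 ^ R')) ≤ (2 : ℝ) ^ (N + w + 1) / 2 ^ x := by
      have h3 : (2 : ℝ) ^ (w + 1) ≤ 2 ^ (N + w + 1) := pow_le_pow_right₀ (by norm_num) (by omega)
      have h4 : 2 * (2 ^ w * (1 / 2 ^ R')) ≤ (2 : ℝ) ^ (w + 1) * (1 / 2 ^ x) := by
        rw [pow_succ]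
        have h5 := mul_le_mul_of_nonneg_left hxR' (by positivity : (0 : ℝ) ≤ 2 * 2 ^ w)
        linarith
      refine h4.trans ?_
      rw [mul_one_div]
      exact div_le_div_of_nonneg_right h3 (by positivity)
    have h3 : (2 : ℝ) ^ (N + w + 1) / 2 ^ x ≤ 2 ^ (N + w + 1) / 2 ^ x / a := by
      rw [le_div_iff₀ ha]
      exact mul_le_of_le_one_right (by positivity) ha1
    linarith
  have hcG' : ∀ ω, A ω → ∀ o, |eval (dpt (ptr F J ω)) (pderiv o (G (z (ptr F J ω)))) -
      eval (bt F ω) (pderiv o (G (z' (slam F w ω))))| ≤ 2 ^ w * (1 / 2 ^ (R' + e)) := by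
    intro ω hω o
    have h1 := hcG ω hω o
    rw [hcl ω hω] at h1 ⊢
    exact h1
  have hRe : (2 : ℝ) ^ w * (1 / 2 ^ (R' + e)) ≤ 2 ^ w * (1 / 2 ^ R') :=
    mul_le_mul_of_nonneg_left (inv_mono (by omega)) pw.le
  have hRe2 : (2 : ℝ) ^ e * (2 ^ w * (1 / 2 ^ (R' + e))) = 2 ^ w * (1 / 2 ^ R') := by
    rw [pow_add]
    field_simp
  obtain ⟨gu, hgu⟩ : ∃ gu : PtT F → ℝ, gu = fun p => eval (dpt p) (pderiv (some u) (G (z p))) +
    θp p * eval (dpt p) (pderiv (some v) (G (z p))) := ⟨_, rfl⟩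
  obtain ⟨gv, hgv⟩ : ∃ gv : PtT F → ℝ, gv = fun p => eval (dpt p) (pderiv (some v) (G (z p))) :=
    ⟨_, rfl⟩
  obtain ⟨pt, hpt⟩ : ∃ pt : LnT F → Option (Fin m) → ℝ, pt = fun s o => (lc w s o).eval 0 :=
    ⟨_, rfl⟩
  have hpt0 : ∀ ω, pt (slam F w ω) = wpt F w ω 0 := fun ω => by
    rw [hpt]
    exact lc_wpt F w ω 0
  have h0 : (0 : ℝ) ∈ Set.Icc (0 : ℝ) 1 := ⟨le_rfl, zero_le_one⟩
  have hx8 : (1 : ℝ) / 2 ^ PG ≤ 1 / 2 ^ x := inv_mono n8
  obtain ⟨B, b1, b2, b3⟩ := cls3_nb (F := F) (B := A₂) (k := k) hyu hyv huv (W := w) (e := e)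
    (M' := M') (P := P) (gu := gu) (gv := gv)
    (gt := fun p => eval (dpt p) (pderiv none (G (z p))))
    (gy := fun p => eval (dpt p) (pderiv (some y) (G (z p))))
    (hu := fun s => eval (pt s) (Ru s)) (hv := fun s => eval (pt s) (Rv s))
    (hy := fun s => eval (pt s) (pderiv (some y) (G (z' s))))
    (ru := 2 ^ (N + w + 2) / 2 ^ x / aU) (rv := 2 ^ (N + w + 2) / 2 ^ x / aD)
    (E₁ := 2 ^ w * (1 / 2 ^ R)) (E₂ := 2 ^ w / 2 ^ PG + (m + 1) * (2 ^ w * (1 / 2 ^ R')))
    (hnd.sub hA₂) (by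
      rw [div_le_one (by positivity)]
      exact one_le_pow₀ (by norm_num)) (fun ω hω => by
      have hωA := hA₂ ω hω
      refine ⟨hbG ω hωA none, hbG ω hωA (some y), ?_⟩
      have h1 := hlab.vel ω hωA
      have h2 : |∑ o, bd F ω o * eval (bt F ω) (pderiv o (G (z' (slam F w ω)))) -
          dd (G (z (ptr F J ω))) (dpt (ptr F J ω)) (bd F ω)| ≤
          (m + 1) * (2 ^ w * (1 / 2 ^ R')) := by
        unfold dd
        rw [← Finset.sum_sub_distrib]
        refine (Finset.abs_sum_le_sum_abs _ _).trans ?_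
        have h3 : ∑ o, |bd F ω o * eval (bt F ω) (pderiv o (G (z' (slam F w ω)))) -
            eval (dpt (ptr F J ω)) (pderiv o (G (z (ptr F J ω)))) * bd F ω o| ≤
            ∑ _o : Option (Fin m), 2 ^ w * (1 / 2 ^ R') := by
          refine Finset.sum_le_sum fun o _ => ?_
          have e1 : bd F ω o * eval (bt F ω) (pderiv o (G (z' (slam F w ω)))) -
              eval (dpt (ptr F J ω)) (pderiv o (G (z (ptr F J ω)))) * bd F ω o =
              -(bd F ω o * (eval (dpt (ptr F J ω)) (pderiv o (G (z (ptr F J ω)))) -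
                eval (bt F ω) (pderiv o (G (z' (slam F w ω)))))) := by ring
          rw [e1, abs_neg, abs_mul]
          have h4 := mul_le_mul (bd_le F ω o) ((hcG' ω hωA o).trans hRe) (abs_nonneg _)
            zero_le_one
          rw [one_mul] at h4
          exact h4
        refine h3.trans (le_of_eq ?_)
        rw [Finset.sum_const, nsmul_eq_mul, Finset.card_univ, Fintype.card_option,
          Fintype.card_fin]
        push_cast
        ring
      have h3 : dd (G (z (ptr F J ω))) (dpt (ptr F J ω)) (bd F ω) =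
          eval (dpt (ptr F J ω)) (pderiv none (G (z (ptr F J ω)))) +
          eval (dpt (ptr F J ω)) (pderiv (some y) (G (z (ptr F J ω)))) * F.d ω y +
          gu (ptr F J ω) * F.d ω u +
          gv (ptr F J ω) * (F.d ω v - θp (ptr F J ω) * F.d ω u) := by
        have hsum : ∑ j : Fin m, eval (dpt (ptr F J ω)) (pderiv (some j) (G (z (ptr F J ω)))) *
            F.d ω j = ∑ j ∈ ({y, u, v} : Finset (Fin m)),
              eval (dpt (ptr F J ω)) (pderiv (some j) (G (z (ptr F J ω)))) * F.d ω j := by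
          refine (Finset.sum_subset (Finset.subset_univ _) fun j _ hj => ?_).symm
          rw [pd_zero_out (hlab.dep _) hj, map_zero, zero_mul]
        unfold dd
        rw [Fintype.sum_option]
        show eval (dpt (ptr F J ω)) (pderiv none (G (z (ptr F J ω)))) * 1 +
          ∑ j : Fin m, eval (dpt (ptr F J ω)) (pderiv (some j) (G (z (ptr F J ω)))) *
            F.d ω j = _
        rw [hsum, Finset.sum_insert (by
          rw [Finset.mem_insert, Finset.mem_singleton]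
          exact fun h => h.elim hyu hyv), Finset.sum_insert (by
          rw [Finset.mem_singleton]
          exact huv), Finset.sum_singleton, hgu, hgv]
        ring
      have e2 : F.d ω k - eval (dpt (ptr F J ω)) (pderiv none (G (z (ptr F J ω)))) -
          eval (dpt (ptr F J ω)) (pderiv (some y) (G (z (ptr F J ω)))) * F.d ω y -
          gu (ptr F J ω) * F.d ω u -
          gv (ptr F J ω) * (F.d ω v - θp (ptr F J ω) * F.d ω u) =
          (F.d ω k - ∑ o, bd F ω o * eval (bt F ω) (pderiv o (G (z' (slam F w ω))))) +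
          (∑ o, bd F ω o * eval (bt F ω) (pderiv o (G (z' (slam F w ω)))) -
            dd (G (z (ptr F J ω))) (dpt (ptr F J ω)) (bd F ω)) := by
        rw [h3]
        ring
      show |F.d ω k - eval (dpt (ptr F J ω)) (pderiv none (G (z (ptr F J ω)))) -
          eval (dpt (ptr F J ω)) (pderiv (some y) (G (z (ptr F J ω)))) * F.d ω y -
          gu (ptr F J ω) * F.d ω u -
          gv (ptr F J ω) * (F.d ω v - θp (ptr F J ω) * F.d ω u)| ≤ _
      rw [e2]
      exact (abs_add_le _ _).trans (add_le_add h1 h2)) (fun ω hω => by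
      have h1 := hbG ω (hA₂ ω hω) (some u)
      have h2 := hbG ω (hA₂ ω hω) (some v)
      have h3 := hθb ω (hA₂ ω hω)
      rw [hgu]
      show |eval (dpt (ptr F J ω)) (pderiv (some u) (G (z (ptr F J ω)))) +
        θp (ptr F J ω) * eval (dpt (ptr F J ω)) (pderiv (some v) (G (z (ptr F J ω))))| ≤ _
      have h4 : |θp (ptr F J ω) * eval (dpt (ptr F J ω))
          (pderiv (some v) (G (z (ptr F J ω))))| ≤ 2 ^ e * 2 ^ e := by
        rw [abs_mul]
        exact mul_le_mul h3 h2 (abs_nonneg _) (by positivity)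
      refine (abs_add_le _ _).trans ((add_le_add h1 h4).trans ?_)
      have h5 : (2 : ℝ) ^ (2 * e + 1) = 2 ^ e * 2 ^ e + 2 ^ e * 2 ^ e := by
        rw [pow_succ, two_mul, pow_add]
        ring
      have h6 : (2 : ℝ) ^ e * 1 ≤ 2 ^ e * 2 ^ e := mul_le_mul_of_nonneg_left pe (by positivity)
      rw [h5]
      linarith) (fun ω hω => by
      rw [hgv]
      exact hbG ω (hA₂ ω hω) (some v)) (fun ω hω => by
      have hωA := hA₂ ω hω
      have h1 := a3 ω (c1 ω hω) (rt F w ω) (rt_mem F w ω) 0 h0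
      rw [wpt_rt F hw] at h1
      show |gu (ptr F J ω) - eval (pt (slam F w ω)) (Ru (slam F w ω))| ≤ _
      rw [hpt0]
      have h2 : |gu (ptr F J ω) - eval (bt F ω) (Ru (slam F w ω))| ≤
          2 * (2 ^ w * (1 / 2 ^ R')) := by
        have k1 := hcG' ω hωA (some u)
        have k2 := hcG' ω hωA (some v)
        have k3 := hθb ω hωA
        have e1 : gu (ptr F J ω) - eval (bt F ω) (Ru (slam F w ω)) =
            (eval (dpt (ptr F J ω)) (pderiv (some u) (G (z (ptr F J ω)))) -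
              eval (bt F ω) (pderiv (some u) (G (z' (slam F w ω))))) +
            θp (ptr F J ω) * (eval (dpt (ptr F J ω)) (pderiv (some v) (G (z (ptr F J ω)))) -
              eval (bt F ω) (pderiv (some v) (G (z' (slam F w ω))))) := by
          rw [hgu, hRu]
          show eval (dpt (ptr F J ω)) (pderiv (some u) (G (z (ptr F J ω)))) +
            θp (ptr F J ω) * eval (dpt (ptr F J ω)) (pderiv (some v) (G (z (ptr F J ω)))) -
            eval (bt F ω) (pderiv (some u) (G (z' (slam F w ω))) + C (θs (slam F w ω)) *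
              pderiv (some v) (G (z' (slam F w ω)))) = _
          rw [map_add, map_mul, eval_C, thc ω hωA]
          ring
        rw [e1]
        have k4 : |θp (ptr F J ω) * (eval (dpt (ptr F J ω)) (pderiv (some v)
            (G (z (ptr F J ω)))) - eval (bt F ω) (pderiv (some v) (G (z' (slam F w ω)))))| ≤
            2 ^ e * (2 ^ w * (1 / 2 ^ (R' + e))) := by
          rw [abs_mul]
          exact mul_le_mul k3 k2 (abs_nonneg _) (by positivity)
        rw [hRe2] at k4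
        refine (abs_add_le _ _).trans ?_
        linarith
      have h3 := hrnd aU hU hU1
      have e2 : gu (ptr F J ω) - eval (wpt F w ω 0) (Ru (slam F w ω)) =
          (gu (ptr F J ω) - eval (bt F ω) (Ru (slam F w ω))) +
          (eval (bt F ω) (Ru (slam F w ω)) - eval (wpt F w ω 0) (Ru (slam F w ω))) := by ring
      rw [e2]
      refine (abs_add_le _ _).trans ?_
      linarith) (fun ω hω => by
      have hωA := hA₂ ω hω
      have h1 := c3 ω hω (rt F w ω) (rt_mem F w ω) 0 h0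
      rw [wpt_rt F hw] at h1
      show |gv (ptr F J ω) - eval (pt (slam F w ω)) (Rv (slam F w ω))| ≤ _
      rw [hpt0]
      have h2 : |gv (ptr F J ω) - eval (bt F ω) (Rv (slam F w ω))| ≤
          2 ^ w * (1 / 2 ^ R') := by
        have k2 := hcG' ω hωA (some v)
        rw [hgv, hRv]
        exact k2.trans hRe
      have h3 := hrnd aD hD hD1
      have e2 : gv (ptr F J ω) - eval (wpt F w ω 0) (Rv (slam F w ω)) =
          (gv (ptr F J ω) - eval (bt F ω) (Rv (slam F w ω))) +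
          (eval (bt F ω) (Rv (slam F w ω)) - eval (wpt F w ω 0) (Rv (slam F w ω))) := by ring
      have h4 : (0 : ℝ) ≤ 2 ^ w * (1 / 2 ^ R') := by positivity
      rw [e2]
      refine (abs_add_le _ _).trans ?_
      linarith) (fun ω hω => by
      have h1 := hrel ω (hA₂ ω hω) 0 h0
      show |eval (pt (slam F w ω)) (pderiv (some y) (G (z' (slam F w ω)))) +
        eval (pt (slam F w ω)) (Ru (slam F w ω)) * au (ptr F J ω) +
        eval (pt (slam F w ω)) (Rv (slam F w ω)) * bv (ptr F J ω) -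
          (eval (dpt (ptr F J ω)) (pderiv (some y) (G (z (ptr F J ω)))) +
            gu (ptr F J ω) * au (ptr F J ω) + gv (ptr F J ω) * bv (ptr F J ω))| ≤ _
      have hakp : akp z G y u v au bv θp (ptr F J ω) =
          eval (dpt (ptr F J ω)) (pderiv (some y) (G (z (ptr F J ω)))) +
            gu (ptr F J ω) * au (ptr F J ω) + gv (ptr F J ω) * bv (ptr F J ω) := by
        obtain ⟨ct, hct⟩ : ∃ ct, ct = bv (ptr F J ω) + θp (ptr F J ω) * au (ptr F J ω) := ⟨_, rfl⟩
        have hsum : ∑ j : Fin m, eval (dpt (ptr F J ω)) (pderiv (some j) (G (z (ptr F J ω)))) *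
            sl3 y u v (au (ptr F J ω)) ct j = ∑ j ∈ ({y, u, v} : Finset (Fin m)),
              eval (dpt (ptr F J ω)) (pderiv (some j) (G (z (ptr F J ω)))) *
                sl3 y u v (au (ptr F J ω)) ct j := by
          refine (Finset.sum_subset (Finset.subset_univ _) fun j _ hj => ?_).symm
          rw [pd_zero_out (hlab.dep _) hj, map_zero, zero_mul]
        have hsy : sl3 y u v (au (ptr F J ω)) ct y = 1 := if_pos rfl
        have hsu : sl3 y u v (au (ptr F J ω)) ct u = au (ptr F J ω) := by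
          unfold sl3
          rw [if_neg (Ne.symm hyu), if_pos rfl]
        have hsv : sl3 y u v (au (ptr F J ω)) ct v = ct := by
          unfold sl3
          rw [if_neg (Ne.symm hyv), if_neg (Ne.symm huv), if_pos rfl]
        unfold akp dd
        rw [← hct, Fintype.sum_option]
        show eval (dpt (ptr F J ω)) (pderiv none (G (z (ptr F J ω)))) * 0 +
          ∑ j : Fin m, eval (dpt (ptr F J ω)) (pderiv (some j) (G (z (ptr F J ω)))) *
            sl3 y u v (au (ptr F J ω)) ct j = _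
        rw [hsum, Finset.sum_insert (by
          rw [Finset.mem_insert, Finset.mem_singleton]
          exact fun h => h.elim hyu hyv), Finset.sum_insert (by
          rw [Finset.mem_singleton]
          exact huv), Finset.sum_singleton, hsy, hsu, hsv, hct, hgu, hgv]
        ring
      rw [← hakp]
      have e1 : eval (pt (slam F w ω)) (Ru (slam F w ω)) =
          eval (pt (slam F w ω)) (pderiv (some u) (G (z' (slam F w ω)))) +
          θs (slam F w ω) * eval (pt (slam F w ω)) (pderiv (some v) (G (z' (slam F w ω)))) := by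
        rw [hRu]
        show eval _ (pderiv (some u) (G (z' (slam F w ω))) + C (θs (slam F w ω)) *
              pderiv (some v) (G (z' (slam F w ω)))) = _
        rw [map_add, map_mul, eval_C]
      have e2 : eval (pt (slam F w ω)) (Rv (slam F w ω)) =
          eval (pt (slam F w ω)) (pderiv (some v) (G (z' (slam F w ω)))) := by rw [hRv]
      rw [e1, e2, hpt0, ← thc ω (hA₂ ω hω)]
      refine le_trans (le_of_eq ?_) h1
      congr 1
      ring) (by positivity) (by positivity) (by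
      have h1 : 3 * (2 ^ (N + w + 2) / 2 ^ x / aU) * aU = 3 * (2 ^ (N + w + 2) / 2 ^ x) := by
        field_simp
      have h2 : 3 * (2 ^ (N + w + 2) / 2 ^ x / aD) * aD = 3 * (2 ^ (N + w + 2) / 2 ^ x) := by
        field_simp
      rw [h1, h2]
      have h3 : (2 : ℝ) ^ w * (1 / 2 ^ R) ≤ 2 ^ (N + w + 2) / 2 ^ x := by
        have k1 : (2 : ℝ) ^ w * (1 / 2 ^ R) ≤ 2 ^ w * (1 / 2 ^ x) :=
          mul_le_mul_of_nonneg_left hxR pw.le
        have k2 : (2 : ℝ) ^ w ≤ 2 ^ (N + w + 2) := pow_le_pow_right₀ (by norm_num) (by omega)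
        refine k1.trans ?_
        rw [mul_one_div]
        exact div_le_div_of_nonneg_right k2 (by positivity)
      have h4 : 8 * ((2 : ℝ) ^ (N + w + 2) / 2 ^ x) ≤ 1 / 2 ^ M' := by
        have k1 : 8 * ((2 : ℝ) ^ (N + w + 2) / 2 ^ x) = 2 ^ (N + w + 5) / 2 ^ x := by
          have : (2 : ℝ) ^ (N + w + 5) = 2 ^ (N + w + 2) * 2 ^ 3 := by rw [← pow_add]
          rw [this]
          norm_num
          ring
        rw [k1, div_le_div_iff₀ (by positivity) (by positivity), one_mul, ← pow_add]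
        exact pow_le_pow_right₀ (by norm_num) (by omega)
      have h5 : (0 : ℝ) ≤ 2 ^ (N + w + 2) / 2 ^ x := by positivity
      linarith) (by
      have h1 : 2 * (2 ^ (N + w + 2) / 2 ^ x / aU) * aU = 2 * (2 ^ (N + w + 2) / 2 ^ x) := by
        field_simp
      have h2 : 2 * (2 ^ (N + w + 2) / 2 ^ x / aD) * aD = 2 * (2 ^ (N + w + 2) / 2 ^ x) := by
        field_simp
      rw [h1, h2]
      have h3 : (2 : ℝ) ^ w / 2 ^ PG ≤ 2 ^ (N + w + 2) / 2 ^ x := by
        have k1 : (2 : ℝ) ^ w / 2 ^ PG ≤ 2 ^ w / 2 ^ x := by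
          have := mul_le_mul_of_nonneg_left hx8 pw.le
          rw [mul_one_div, mul_one_div] at this
          exact this
        have k2 : (2 : ℝ) ^ w ≤ 2 ^ (N + w + 2) := pow_le_pow_right₀ (by norm_num) (by omega)
        exact k1.trans (div_le_div_of_nonneg_right k2 (by positivity))
      have h6 : ((m : ℝ) + 1) * (2 ^ w * (1 / 2 ^ R')) ≤ 2 ^ (N + w + 2) / 2 ^ x := by
        have k1 : ((m : ℝ) + 1) * (2 ^ w * (1 / 2 ^ R')) ≤ 2 ^ N * (2 ^ w * (1 / 2 ^ x)) :=
          mul_le_mul hmN (mul_le_mul_of_nonneg_left hxR' pw.le) (by positivity) (by positivity)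
        refine k1.trans ?_
        have k3 : (2 : ℝ) ^ N * (2 ^ w * (1 / 2 ^ x)) = 2 ^ (N + w) / 2 ^ x := by
          rw [pow_add]
          ring
        rw [k3]
        exact div_le_div_of_nonneg_right (pow_le_pow_right₀ (by norm_num) (by omega))
          (by positivity)
      have h4 : 8 * ((2 : ℝ) ^ (N + w + 2) / 2 ^ x) ≤ 1 / 2 ^ M' := by
        have k1 : 8 * ((2 : ℝ) ^ (N + w + 2) / 2 ^ x) = 2 ^ (N + w + 5) / 2 ^ x := by
          have : (2 : ℝ) ^ (N + w + 5) = 2 ^ (N + w + 2) * 2 ^ 3 := by rw [← pow_add]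
          rw [this]
          norm_num
          ring
        rw [k1, div_le_div_iff₀ (by positivity) (by positivity), one_mul, ← pow_add]
        exact pow_le_pow_right₀ (by norm_num) (by omega)
      have h5 : (0 : ℝ) ≤ 2 ^ (N + w + 2) / 2 ^ x := by positivity
      linarith) hw n5 n6
  refine ⟨B, fun ω hω => hA₂ ω (b1 ω hω), ?_, b3⟩
  have h1 := cI_pos m
  have h2 : Pe F.p A ≤ 4 * Pe F.p A₂ := by linarith
  calc Pe F.p A ≤ 4 * (9 * cI m * Pe F.p B) :=
        h2.trans (mul_le_mul_of_nonneg_left b2 (by norm_num))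
    _ = 36 * cI m * Pe F.p B := by ring

end Pool.JVE
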