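import Pool.Agent.H62.AFN.Tn3

/-!
# The data at the exact points, in natural units

`afd_nat`: the data `Afd` from the label on the planes; the second derivatives in natural directions
on the natural box are at most `2 ^ (-s)`, the velocities are known in natural units up to the
factor `2 ^ (-c)`.
-/

set_option autoImplicit false

namespace Pool.JVE

open Finset MvPolynomial
open Pool.Agent.H49.Ent Pool.Agent.H32.Dense Pool.STK Pool.KA Pool.KSAT Pool.K2S Pool.PB Pool.GEN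
open Pool.MIC6 (dpt dpt_near mvp wt wp wpt wp_eq mva)
open Pool.D2R (hs hs_comm hs_add_left hs_add_right hs_smul_left hs_smul_right)

variable {m J : ℕ}

/-- **The data at the exact points.** -/
theorem afd_nat (m K : ℕ) : ∃ C : ℝ, 1 ≤ C ∧ ∀ {J : ℕ} (F : Fam m J) {A A' : F.Ω → Prop}
    {y u v k : Fin m} {e w ρ P N R R' s c : ℕ} {V : Type} {z : PtT F → V} {z' : LnT F → V}
    {G : V → MvPolynomial (Option (Fin m)) ℝ} {au cu bv cv ak θp : PtT F → ℝ}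
    {θs ju jv : LnT F → ℝ} {aU aD : ℝ}, Sub A' A → y ≠ u → y ≠ v → u ≠ v →
    LbOK F {y, u, v} k K e J w ρ P A z z' G →
    ND F A y u v w e au cu bv cv θp θs ju jv aU aD (1 / 2 ^ c) →
    (∀ ω, A ω → |bv (ptr F J ω) + θp (ptr F J ω) * au (ptr F J ω)| ≤ 2 ^ e) →
    2 ^ (w + e + 4) / 2 ^ J ≤ 1 / 2 ^ c * aU → 2 ^ (w + e + 4) / 2 ^ J ≤ 1 / 2 ^ c * aD →
    (∀ ω, A ω → ∀ x, NB3 F w y u v (au (ptr F J ω)) (bv (ptr F J ω)) (θp (ptr F J ω)) aU aD
        ω x → ∀ i, (1 / 2 ^ w) ^ 2 * |hs (G (z (ptr F J ω))) x (nd4 F y u v (au (ptr F J ω))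
          (bv (ptr F J ω)) (θp (ptr F J ω)) aU aD ω i) (aU • eu u v (θp (ptr F J ω)))| ≤
            1 / 2 ^ s ∧
        (1 / 2 ^ w) ^ 2 * |hs (G (z (ptr F J ω))) x (nd4 F y u v (au (ptr F J ω))
          (bv (ptr F J ω)) (θp (ptr F J ω)) aU aD ω i) (aD • ev v)| ≤ 1 / 2 ^ s) →
    w ≤ J → ρ ≤ w → ρ + 2 ≤ J → 2 ≤ c →
    (∀ ω, A' ω → ∀ σ ∈ Set.Icc (0 : ℝ) 1, ∀ η : ℝ, |η| ≤ 1 →
      |eval (mvp (F.u ω) (F.d ω) (sl3 y u v (au (ptr F J ω)) (bv (ptr F J ω) +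
        θp (ptr F J ω) * au (ptr F J ω))) (wt F w ω σ) (1 / 2 ^ w * η)) (G (z' (slam F w ω))) -
        (wp F w ω σ k + ak (ptr F J ω) * (1 / 2 ^ w * η))| ≤ 1 / 2 ^ R) →
    0 < aU → aU ≤ 1 → 0 < aD → aD ≤ 1 →
    C ≤ 2 ^ N → N + R' + 1 ≤ R → N + 3 * e + R' + 1 ≤ J → R' + 2 ≤ s + c →
    Afd F A' y u v w au (fun p => bv p + θp p * au p) z G θp θs ju jv aU aD (1 / 2 ^ R') ∧
    (∀ ω, A' ω → ∀ W : Option (Fin m) → ℝ, (∀ o, |W o| ≤ 2 ^ e) →
      (1 / 2 ^ w) ^ 2 * |hs (G (z (ptr F J ω))) (bt F ω) (bd F ω) W -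
        hs (G (z (ptr F J ω))) (dpt (ptr F J ω)) (bd F ω) W| ≤ 1 / 2 ^ R') ∧
    (∀ ω, A' ω → ∀ o, |eval (dpt (ptr F J ω)) (pderiv o (G (z (ptr F J ω)))) -
      eval (bt F ω) (pderiv o (G (z (ptr F J ω))))| ≤ 2 ^ w * (1 / 2 ^ (R' + e))) ∧
    (∀ ω, A' ω → ∀ o, |eval (dpt (ptr F J ω)) (pderiv o (G (z (ptr F J ω))))| ≤ 2 ^ e) := by
  classical
  obtain ⟨C₁, hC₁, hown⟩ := hs_own K
  obtain ⟨C₂, hC₂, hder⟩ := der_bds m K
  obtain ⟨D, hD⟩ : ∃ D : ℝ, D = ((m : ℝ) + 1) ^ 3 * C₂ := ⟨_, rfl⟩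
  have hm1 : (1 : ℝ) ≤ (m : ℝ) + 1 := by
    have : (0 : ℝ) ≤ m := Nat.cast_nonneg m
    linarith
  have hm3 : (1 : ℝ) ≤ ((m : ℝ) + 1) ^ 3 := one_le_pow₀ hm1
  have hD1 : 1 ≤ D := by
    rw [hD]
    exact one_le_mul_of_one_le_of_one_le hm3 hC₂
  refine ⟨C₁ + D, by linarith, ?_⟩
  intro J F A A' y u v k e w ρ P N R R' s c V z z' G au cu bv cv ak θp θs ju jv aU aD hA' hyu hyv
    huv hlab hnd hav hκU hκD hN2 hw hρ hρJ hc hpl hU0 hU1 hD0 hDD1 hN n1 n2 n3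
  have hθ := hnd.hθ
  have hκ3 : 3 * ((1 : ℝ) / 2 ^ c) ≤ 1 := by
    have h1 : (1 : ℝ) / 2 ^ c ≤ 1 / 2 ^ 2 := inv_mono hc
    norm_num at h1
    norm_num
    linarith
  have hCN₁ : C₁ ≤ 2 ^ N := by linarith
  have hCN₂ : D ≤ 2 ^ N := by linarith
  have pe : (1 : ℝ) ≤ 2 ^ e := one_le_pow₀ (by norm_num)
  have pw : (0 : ℝ) < 2 ^ w := by positivity
  have pJ : (0 : ℝ) < 2 ^ J := by positivity
  have hρw : (2 : ℝ) ^ ρ ≤ 2 ^ w := pow_le_pow_right₀ (by norm_num) hρ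
  obtain ⟨r, hr⟩ : ∃ r : ℝ, r = 1 / 2 ^ ρ := ⟨_, rfl⟩
  have hr0 : 0 < r := by rw [hr]; positivity
  have hJr : (1 : ℝ) / 2 ^ J ≤ r / 4 := by
    rw [hr, div_div, div_le_div_iff₀ pJ (by positivity), one_mul, one_mul]
    have h1 : (2 : ℝ) ^ ρ * 4 = 2 ^ (ρ + 2) := by
      rw [pow_add]
      norm_num
    rw [h1]
    exact pow_le_pow_right₀ (by norm_num) hρJ
  have hwr : 1 / 2 ^ w ≤ r := by
    rw [hr]
    exact div_le_div_of_nonneg_left (by norm_num) (by positivity) hρw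
  have two : ∀ a b c : ℕ, a + c ≤ b → (2 : ℝ) ^ a / 2 ^ b ≤ 1 / 2 ^ c := by
    intro a b c h
    rw [div_le_div_iff₀ (by positivity) (by positivity), one_mul, ← pow_add]
    exact pow_le_pow_right₀ (by norm_num) h
  have hhalf : (1 : ℝ) / 2 ^ (R' + 1) + 1 / 2 ^ (R' + 1) = 1 / 2 ^ R' := by
    rw [pow_succ]
    field_simp
    norm_num
  -- the derivatives
  have hd2 : ∀ ω, A ω → _ := fun ω hω => hder (G (z (ptr F J ω))) (bt F ω) r (2 ^ e)
    (hlab.deg _) hr0 (fun b hb o => by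
      rw [hlab.cls ω hω]
      exact hlab.lip ω hω b (by rw [← hr]; exact hb) o)
  have hdpt : ∀ ω o, |dpt (ptr F J ω) o - bt F ω o| ≤ 1 / 2 ^ J := fun ω o => dpt_near F ω o
  -- comparison of the two points
  have hcmp : ∀ ω, A ω → ∀ (a b : ℝ) (W W' : Option (Fin m) → ℝ), 0 ≤ a → 0 ≤ b →
      (∀ o, |W o| ≤ a) → (∀ o, |W' o| ≤ b) →
      (1 / 2 ^ w) ^ 2 * |hs (G (z (ptr F J ω))) (dpt (ptr F J ω)) W W' -
        hs (G (z (ptr F J ω))) (bt F ω) W W'| ≤ D * (2 ^ e * a * b) / 2 ^ J := by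
    intro ω hω a b W W' ha hb hW hW'
    have h1 := hs_lip (H := C₂ * (2 ^ e / r ^ 2)) (by positivity) ha
      (by positivity : (0 : ℝ) ≤ 1 / 2 ^ J) (fun y' hy' o o' i =>
        (hd2 ω hω).2 y' (fun o => (hy' o).trans hJr) o o' i) (hdpt ω) hW hW'
    refine (mul_le_mul_of_nonneg_left h1 (by positivity)).trans ?_
    have h2 : (1 / 2 ^ w) ^ 2 * (((m : ℝ) + 1) ^ 3 * (C₂ * (2 ^ e / r ^ 2) * (1 / 2 ^ J) * a * b)) =
        ((1 / 2 ^ w) ^ 2 / r ^ 2) * (D * (2 ^ e * a * b) / 2 ^ J) := by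
      rw [hD]
      ring
    rw [h2]
    refine mul_le_of_le_one_left (by positivity) ?_
    rw [div_le_one (by positivity)]
    exact pow_le_pow_left₀ (by positivity) hwr 2
  have hE : ∀ a b : ℝ, 0 ≤ a → 0 ≤ b → a ≤ 2 ^ e → b ≤ 2 ^ e →
      D * (2 ^ e * a * b) / 2 ^ J ≤ 1 / 2 ^ (R' + 1) := by
    intro a b ha hb ha1 hb1
    have h1 : D * (2 ^ e * a * b) ≤ 2 ^ N * (2 ^ e * 2 ^ e * 2 ^ e) :=
      mul_le_mul hCN₂ (mul_le_mul (mul_le_mul_of_nonneg_left ha1 (by positivity)) hb1 hb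
        (by positivity)) (by positivity) (by positivity)
    have h2 : (2 : ℝ) ^ N * (2 ^ e * 2 ^ e * 2 ^ e) = 2 ^ (N + 3 * e) := by
      have h3 : N + 3 * e = N + (e + e + e) := by ring
      rw [h3, pow_add, pow_add, pow_add]
    rw [h2] at h1
    exact (div_le_div_of_nonneg_right h1 (by positivity)).trans (two _ _ _ (by omega))
  have hE' : ∀ a b : ℝ, 0 ≤ a → 0 ≤ b → a ≤ 2 ^ e → b ≤ 2 ^ e →
      D * (2 ^ e * a * b) / 2 ^ J ≤ 1 / 2 ^ R' := fun a b ha hb ha1 hb1 =>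
    (hE a b ha hb ha1 hb1).trans (inv_mono (by omega))
  have hC₁R : C₁ * (1 / 2 ^ R) ≤ 1 / 2 ^ (R' + 1) := by
    rw [mul_one_div]
    exact (div_le_div_of_nonneg_right hCN₁ (by positivity)).trans (two _ _ _ (by omega))
  have hown' := hown F (A := A') (k := k) (w := w) (z' := z') (G := G)
    (a := fun ω => ak (ptr F J ω))
    (sl := fun ω => sl3 y u v (au (ptr F J ω)) (bv (ptr F J ω) +
      θp (ptr F J ω) * au (ptr F J ω))) (S := 1 / 2 ^ R) hw hlab.deg hpl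
  have hsv : ∀ ω, A ω → ∀ o, |svc (sl3 y u v (au (ptr F J ω)) (bv (ptr F J ω) +
      θp (ptr F J ω) * au (ptr F J ω))) o| ≤ 2 ^ e :=
    fun ω hω => svc_le pe (hnd.hbu ω hω).1 (hav ω hω)
  have hp_of : ∀ ω, A ω → ∀ (a b : ℝ) (W W' : Option (Fin m) → ℝ), 0 ≤ a → 0 ≤ b →
      a ≤ 2 ^ e → b ≤ 2 ^ e → (∀ o, |W o| ≤ a) → (∀ o, |W' o| ≤ b) →
      (1 / 2 ^ w) ^ 2 * |hs (G (z' (slam F w ω))) (bt F ω) W W'| ≤ C₁ * (1 / 2 ^ R) →
      |hp F w z G (ptr F J ω) W W'| ≤ 1 / 2 ^ R' := by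
    intro ω hω a b W W' ha hb ha1 hb1 hW hW' h1
    have h2 := hcmp ω hω a b W W' ha hb hW hW'
    have h3 := hE a b ha hb ha1 hb1
    rw [← hlab.cls ω hω] at h1
    have e1 : hp F w z G (ptr F J ω) W W' =
        (1 / 2 ^ w) ^ 2 * hs (G (z (ptr F J ω))) (bt F ω) W W' +
        (1 / 2 ^ w) ^ 2 * (hs (G (z (ptr F J ω))) (dpt (ptr F J ω)) W W' -
          hs (G (z (ptr F J ω))) (bt F ω) W W') := by
      unfold hp
      ring
    have hpos : (0 : ℝ) < (1 / 2 ^ w) ^ 2 := by positivity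
    rw [e1, ← hhalf]
    refine (abs_add_le _ _).trans (add_le_add ?_ ?_)
    · rw [abs_mul, abs_of_pos hpos]
      exact h1.trans hC₁R
    · rw [abs_mul, abs_of_pos hpos]
      exact h2.trans h3
  refine ⟨⟨fun ω hω => hnd.thc ω (hA' ω hω), fun ω hω => hnd.nu ω (hA' ω hω),
    fun ω hω => ?_, fun ω ω' hω hω' hs => ?_, fun ω ω' hω hω' hs => ?_,
    fun ω ω' hω hω' hps => ?_⟩, fun ω hω W hW => ?_, fun ω hω o => ?_, fun ω hω o => ?_⟩
  · have h1 := hnd.nv ω (hA' ω hω)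
    have h2 := hnd.thc ω (hA' ω hω)
    have e1 : jv (slam F w ω) + θs (slam F w ω) * au (ptr F J ω) -
        (fun p => bv p + θp p * au p) (ptr F J ω) = jv (slam F w ω) - bv (ptr F J ω) := by
      show jv (slam F w ω) + θs (slam F w ω) * au (ptr F J ω) -
        (bv (ptr F J ω) + θp (ptr F J ω) * au (ptr F J ω)) = _
      rw [h2]
      ring
    rw [e1]
    exact h1
  · exact hp_of ω (hA' ω hω) 1 (2 ^ e) _ _ zero_le_one (by positivity) pe le_rfl (bd_le F ω)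
      (hsv ω' (hA' ω' hω')) (hown' ω ω' hω' hs).1
  · exact hp_of ω (hA' ω hω) (2 ^ e) (2 ^ e) _ _ (by positivity) (by positivity) le_rfl le_rfl
      (hsv ω' (hA' ω' hω')) (hsv ω' (hA' ω' hω')) (hown' ω ω' hω' hs).2
  · -- the difference of the directions
    have hωA := hA' ω hω
    have hω'A := hA' ω' hω'
    have hmem := hnd.mem_dpt hw hκU hκD hU0 hD0 hκ3 hωA
    have hb := hN2 ω hωA _ hmem
    have hu := hnd.two_u hωA hω'A hps.symm
    have hv := hnd.two_v hωA hω'A hps.symm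
    obtain ⟨δ, hδ⟩ : ∃ δ : Option (Fin m) → ℝ, δ = bd F ω' - bd F ω -
      (F.d ω' y - F.d ω y) • svc (sl3 y u v (au (ptr F J ω))
        ((fun p => bv p + θp p * au p) (ptr F J ω))) := ⟨_, rfl⟩
    rw [← hδ]
    have hδn : δ none = 0 := by
      rw [hδ]
      show (1 : ℝ) - 1 - (F.d ω' y - F.d ω y) * 0 = 0
      ring
    have hδj : ∀ j, δ (some j) = F.d ω' j - F.d ω j - (F.d ω' y - F.d ω y) *
        sl3 y u v (au (ptr F J ω)) (bv (ptr F J ω) + θp (ptr F J ω) * au (ptr F J ω)) j := by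
      intro j
      rw [hδ]
      rfl
    have hδy : δ (some y) = 0 := by
      rw [hδj]
      have : sl3 y u v (au (ptr F J ω)) (bv (ptr F J ω) + θp (ptr F J ω) *
        au (ptr F J ω)) y = 1 := if_pos rfl
      rw [this]
      ring
    have hδu : δ (some u) = (F.d ω' u - F.d ω u) - au (ptr F J ω) * (F.d ω' y - F.d ω y) := by
      rw [hδj]
      have : sl3 y u v (au (ptr F J ω)) (bv (ptr F J ω) + θp (ptr F J ω) *
          au (ptr F J ω)) u = au (ptr F J ω) := by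
        unfold sl3
        rw [if_neg (Ne.symm hyu), if_pos rfl]
      rw [this]
      ring
    have hδv : δ (some v) = (F.d ω' v - F.d ω v) -
        (bv (ptr F J ω) + θp (ptr F J ω) * au (ptr F J ω)) * (F.d ω' y - F.d ω y) := by
      rw [hδj]
      have : sl3 y u v (au (ptr F J ω)) (bv (ptr F J ω) + θp (ptr F J ω) *
          au (ptr F J ω)) v = bv (ptr F J ω) + θp (ptr F J ω) * au (ptr F J ω) := by
        unfold sl3
        rw [if_neg (Ne.symm hyv), if_neg (Ne.symm huv), if_pos rfl]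
      rw [this]
      ring
    have key : ∀ W : Option (Fin m) → ℝ,
        (1 / 2 ^ w) ^ 2 * |hs (G (z (ptr F J ω))) (dpt (ptr F J ω))
          (aU • eu u v (θp (ptr F J ω))) W| ≤ 1 / 2 ^ s →
        (1 / 2 ^ w) ^ 2 * |hs (G (z (ptr F J ω))) (dpt (ptr F J ω)) (aD • ev v) W| ≤ 1 / 2 ^ s →
        |hp F w z G (ptr F J ω) δ W| ≤ 1 / 2 ^ R' := by
      intro W h1 h2
      unfold hp
      have hpos : (0 : ℝ) < (1 / 2 ^ w) ^ 2 := by positivity
      rw [dec4 hyu hyv huv (hlab.dep _) F ω hU0 hD0 (dpt (ptr F J ω)) W δ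
        (a := au (ptr F J ω)) (b := bv (ptr F J ω)) (t := θp (ptr F J ω)), hδn, hδy, hδu, hδv]
      obtain ⟨xu, hxu⟩ : ∃ xu, xu = (F.d ω' u - F.d ω u) -
        au (ptr F J ω) * (F.d ω' y - F.d ω y) := ⟨_, rfl⟩
      obtain ⟨xv, hxv⟩ : ∃ xv, xv = (F.d ω' v - F.d ω v) -
        θp (ptr F J ω) * (F.d ω' u - F.d ω u) - bv (ptr F J ω) * (F.d ω' y - F.d ω y) := ⟨_, rfl⟩
      rw [← hxu] at hu
      rw [← hxv] at hv
      have e1 : ((F.d ω' u - F.d ω u) - au (ptr F J ω) * (F.d ω' y - F.d ω y) -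
          F.d ω u * 0 - au (ptr F J ω) * (0 - F.d ω y * 0)) = xu := by
        rw [hxu]
        ring
      have e2 : ((F.d ω' v - F.d ω v) - (bv (ptr F J ω) + θp (ptr F J ω) * au (ptr F J ω)) *
          (F.d ω' y - F.d ω y) - F.d ω v * 0 - θp (ptr F J ω) *
          ((F.d ω' u - F.d ω u) - au (ptr F J ω) * (F.d ω' y - F.d ω y) - F.d ω u * 0) -
          bv (ptr F J ω) * (0 - F.d ω y * 0)) = xv := by
        rw [hxv]
        ring
      rw [e1, e2]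
      obtain ⟨HU, hHU⟩ : ∃ HU, HU = hs (G (z (ptr F J ω))) (dpt (ptr F J ω))
        (aU • eu u v (θp (ptr F J ω))) W := ⟨_, rfl⟩
      obtain ⟨HV, hHV⟩ : ∃ HV, HV = hs (G (z (ptr F J ω))) (dpt (ptr F J ω)) (aD • ev v) W :=
        ⟨_, rfl⟩
      rw [← hHU] at h1 ⊢
      rw [← hHV] at h2 ⊢
      have c1 : |xu / aU| ≤ 2 * (1 / 2 ^ c) := by
        rw [abs_div, abs_of_pos hU0, div_le_iff₀ hU0]
        refine hu.trans (le_of_eq ?_)
        ring
      have c2 : |xv / aD| ≤ 2 * (1 / 2 ^ c) := by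
        rw [abs_div, abs_of_pos hD0, div_le_iff₀ hD0]
        refine hv.trans (le_of_eq ?_)
        ring
      have k1 := mul_le_mul c1 h1 (by positivity) (by positivity)
      have k2 := mul_le_mul c2 h2 (by positivity) (by positivity)
      have e3 : (1 / 2 ^ w) ^ 2 * (0 * hs (G (z (ptr F J ω))) (dpt (ptr F J ω)) (bd F ω) W +
          (0 - F.d ω y * 0) * hs (G (z (ptr F J ω))) (dpt (ptr F J ω)) (svc (sl3 y u v
            (au (ptr F J ω)) (bv (ptr F J ω) + θp (ptr F J ω) * au (ptr F J ω)))) W +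
          xu / aU * HU + xv / aD * HV) =
          xu / aU * ((1 / 2 ^ w) ^ 2 * HU) + xv / aD * ((1 / 2 ^ w) ^ 2 * HV) := by ring
      rw [e3]
      have k3 : |xu / aU * ((1 / 2 ^ w) ^ 2 * HU)| ≤ 2 * (1 / 2 ^ c) * (1 / 2 ^ s) := by
        rw [abs_mul, abs_mul ((1 / 2 ^ w) ^ 2), abs_of_pos hpos]
        exact k1
      have k4 : |xv / aD * ((1 / 2 ^ w) ^ 2 * HV)| ≤ 2 * (1 / 2 ^ c) * (1 / 2 ^ s) := by
        rw [abs_mul, abs_mul ((1 / 2 ^ w) ^ 2), abs_of_pos hpos]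
        exact k2
      refine (abs_add_le _ _).trans ((add_le_add k3 k4).trans ?_)
      have e4 : 2 * ((1 : ℝ) / 2 ^ c) * (1 / 2 ^ s) + 2 * (1 / 2 ^ c) * (1 / 2 ^ s) =
          2 ^ 2 / 2 ^ (s + c) := by
        rw [pow_add]
        field_simp
        norm_num
      rw [e4]
      exact two 2 (s + c) R' (by omega)
    refine ⟨key _ ?_ ?_, key _ ?_ ?_⟩
    · exact (hb 2).1
    · exact (hb 3).1
    · exact (hb 2).2
    · exact (hb 3).2
  · have h1 := hcmp ω (hA' ω hω) 1 (2 ^ e) (bd F ω) W zero_le_one (by positivity) (bd_le F ω) hW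
    rw [abs_sub_comm]
    exact h1.trans (hE' 1 (2 ^ e) zero_le_one (by positivity) pe le_rfl)
  · have hωA := hA' ω hω
    have h1 := mva (pderiv o (G (z (ptr F J ω)))) (bt F ω) (dpt (ptr F J ω))
      (fun _ => C₂ * (2 ^ e / r)) (fun b hb i _ => (hd2 ω hωA).1 b (fun o => (hb o).trans
        ((hdpt ω o).trans (hJr.trans (by linarith)))) o i)
    refine h1.trans ?_
    have hcard : ((Finset.univ : Finset (Option (Fin m))).card : ℝ) = m + 1 := by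
      rw [Finset.card_univ, Fintype.card_option, Fintype.card_fin]
      push_cast
      ring
    have h2 : ∑ i, C₂ * (2 ^ e / r) * |dpt (ptr F J ω) i - bt F ω i| ≤
        ∑ _i : Option (Fin m), C₂ * (2 ^ e / r) * (1 / 2 ^ J) :=
      Finset.sum_le_sum fun i _ => mul_le_mul_of_nonneg_left (hdpt ω i) (by positivity)
    refine h2.trans ?_
    rw [Finset.sum_const, nsmul_eq_mul, hcard]
    have h3 : ((m : ℝ) + 1) * (C₂ * (2 ^ e / r) * (1 / 2 ^ J)) =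
        (1 / 2 ^ w / r) * (2 ^ w * ((((m : ℝ) + 1) * C₂) * 2 ^ e / 2 ^ J)) := by
      field_simp
    have h4 : (1 / 2 ^ w) / r ≤ 1 := by
      rw [div_le_one hr0]
      exact hwr
    rw [h3]
    refine (mul_le_of_le_one_left (by positivity) h4).trans ?_
    refine mul_le_mul_of_nonneg_left ?_ pw.le
    have h5 : ((m : ℝ) + 1) * C₂ ≤ 2 ^ N := by
      refine le_trans ?_ hCN₂
      rw [hD]
      refine mul_le_mul_of_nonneg_right ?_ (by linarith)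
      have := pow_le_pow_right₀ hm1 (by norm_num : 1 ≤ 3)
      rw [pow_one] at this
      exact this
    have h6 : ((m : ℝ) + 1) * C₂ * 2 ^ e ≤ 2 ^ N * 2 ^ e :=
      mul_le_mul_of_nonneg_right h5 (by positivity)
    rw [← pow_add] at h6
    exact (div_le_div_of_nonneg_right h6 (by positivity)).trans (two _ _ _ (by omega))
  · have hωA := hA' ω hω
    rw [hlab.cls ω hωA]
    refine hlab.lip ω hωA _ (fun o => (hdpt ω o).trans ?_) o
    rw [← hr]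
    linarith

end Pool.JVE
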