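import Pool.Agent.H62.AFN.Hnf
import Pool.Agent.H62.AFN.Stc
import Pool.Agent.H91.LA.Nbxc

/-!
# The second derivatives on the natural box from two labels, in a class

`up_cls`: in a class where the coordinates are full behind the numbers, two closed labels of `k` over
`y`, `u`, `v`, one of them affine, bound the second derivatives of the labels in natural directions.
-/

set_option autoImplicit false

namespace Pool.JVE

open Finset MvPolynomial
open Pool.Agent.H49.Ent Pool.Agent.H32.Dense Pool.STK Pool.KA Pool.KSAT Pool.K2S Pool.PB Pool.GEN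
open Pool.S6C
open Pool.BFL (Pb)
open Pool.GRW (xr xr_near Cm one_le_Cm tmc_bas bas_part)
open Pool.LA91 (FulC)

variable {m J : ℕ}

theorem two_exp (n : ℕ) : (2 : ℝ) ^ n = Real.exp (n * Real.log 2) := by
  rw [← Real.rpow_natCast 2 n, Real.rpow_def_of_pos (by norm_num), mul_comm]

/-- **The second derivatives from two labels, in a class.** -/
theorem up_cls {S : PCl m} {C₀ : ℝ} (htm : TmC S C₀) {c : ℕ → Fin m}
    (hc : Set.InjOn c (Set.Iio 3)) {k : Fin m} {W U D x : ℝ} (hW0 : 0 < W) (hx : 0 < x)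
    (hUW : W < U) (hUD : U ≤ D) (hDx : D + x ≤ 1) {s : ℕ → ℝ} (hs1 : s 1 = U) (hs2 : s 2 = D)
    (hbase : ∀ t : ℝ, W < t → t < 1 → Pool.LA91.Ful S {c 0} W t) (hful : FulC S c 1 3 W s)
    (K : ℕ) (hK : 1 ≤ K) {ε : ℝ} (hε : 0 < ε) :
    ∃ e₁ : ℝ, 0 < e₁ ∧ ∀ e₀ : ℝ, 0 < e₀ → e₀ ≤ e₁ → Bas S (fun J F A =>
      ∀ (V : Type) (z : PtT F → V) (z' : LnT F → V) (G : V → MvPolynomial (Option (Fin m)) ℝ)
        (V₀ : Type) (z₀ : PtT F → V₀) (z₀' : LnT F → V₀)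
        (G₀ : V₀ → MvPolynomial (Option (Fin m)) ℝ) (E₁ E₂ ρ₁ ρ₂ PG P : ℕ)
        (au cu bv cv θp : PtT F → ℝ) (θs ju jv : LnT F → ℝ) (κ : ℝ),
        LbOK F {c 0, c 1, c 2} k K E₁ J ⌊W * J⌋₊ ρ₁ PG A z z' G →
        LbOK F {c 0, c 1, c 2} k 1 E₂ J ⌊W * J⌋₊ ρ₂ P A z₀ z₀' G₀ → ρ₁ ≤ J → ρ₂ ≤ J →
        PG + E₁ + m + 3 ≤ J → P + E₂ + m + 3 ≤ J →
        ND F A (c 0) (c 1) (c 2) ⌊W * J⌋₊ ⌊e₀ * J⌋₊ au cu bv cv θp θs ju jv
          (1 / 2 ^ ⌊(U - W - e₀) * J⌋₊) (1 / 2 ^ ⌊(D - W - e₀) * J⌋₊) κ → κ ≤ 1 →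
        ∃ B : F.Ω → Prop, Sub B A ∧ Pe F.p A ≤ 2 * cI m ^ 2 * Pe F.p B ∧
          HN F B ⌊W * J⌋₊ (c 0) (c 1) (c 2) au bv θp (1 / 2 ^ ⌊(U - W - e₀) * J⌋₊)
            (1 / 2 ^ ⌊(D - W - e₀) * J⌋₊) z G (2 ^ ⌊ε * J⌋₊ * (1 / 2 ^ PG + 1 / 2 ^ P))) := by
  classical
  obtain ⟨C, hC, hhn⟩ := hn_fam m K hK
  have hK1 : (1 : ℝ) ≤ K := by exact_mod_cast hK
  have hcI : 0 < cI m := cI_pos m
  have h01 : c 0 ≠ c 1 := fun h => by
    have := hc (show (0 : ℕ) < 3 by norm_num) (show (1 : ℕ) < 3 by norm_num) h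
    omega
  have hCm1 := one_le_Cm 4 K
  obtain ⟨Cc, hCc⟩ : ∃ Cc, Cc = Cm 4 K := ⟨_, rfl⟩
  rw [← hCc] at hCm1
  -- the constants
  obtain ⟨χ, hχ⟩ : ∃ χ, χ = x / 4 := ⟨_, rfl⟩
  have hχ0 : 0 < χ := by rw [hχ]; linarith only [hx]
  obtain ⟨γ₀, hγ₀⟩ : ∃ γ₀, γ₀ = min (χ / 4) (ε / 32) := ⟨_, rfl⟩
  have hγ0 : 0 < γ₀ := by rw [hγ₀]; exact lt_min (by linarith only [hχ0]) (by linarith only [hε])
  have hγχ : γ₀ ≤ χ / 4 := by rw [hγ₀]; exact min_le_left _ _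
  have hγε : γ₀ ≤ ε / 32 := by rw [hγ₀]; exact min_le_right _ _
  obtain ⟨φ, hφ⟩ : ∃ φ, φ = γ₀ / (8192 * Cc) := ⟨_, rfl⟩
  have hφ0 : 0 < φ := by rw [hφ]; positivity
  have hφC : 8192 * (Cc * φ) = γ₀ := by
    rw [hφ]
    field_simp
  obtain ⟨o, ho⟩ : ∃ o, o = min (x / 4) (ε / (16 * K)) := ⟨_, rfl⟩
  have ho0 : 0 < o := by
    rw [ho]
    exact lt_min (by linarith only [hx]) (by positivity)
  have hox : o ≤ x / 4 := by rw [ho]; exact min_le_left _ _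
  have hoK : 16 * (o * K) ≤ ε := by
    have h1 : o ≤ ε / (16 * K) := by rw [ho]; exact min_le_right _ _
    rw [le_div_iff₀ (by positivity)] at h1
    linarith only [h1]
  obtain ⟨u₂, hu₂⟩ : ∃ u₂, u₂ = W + o := ⟨_, rfl⟩
  have hu₂1 : u₂ < 1 := by rw [hu₂]; linarith only [hox, hUW, hUD, hDx, hx]
  refine ⟨min (min φ (ε / (16 * K))) ((U - W) / 2), lt_min (lt_min hφ0 (by positivity))
    (by linarith only [hUW]), ?_⟩
  intro e₀ he₀ he₁
  have heφ : e₀ ≤ φ := he₁.trans ((min_le_left _ _).trans (min_le_left _ _))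
  have heK : 16 * (e₀ * K) ≤ ε := by
    have h1 : e₀ ≤ ε / (16 * K) := he₁.trans ((min_le_left _ _).trans (min_le_right _ _))
    rw [le_div_iff₀ (by positivity)] at h1
    linarith only [h1]
  have heU : 2 * e₀ ≤ U - W := by
    have h1 := he₁.trans (min_le_right _ _)
    linarith only [h1]
  have hexC : e₀ ≤ χ := by
    have h1 : φ ≤ γ₀ := by
      have : φ * 1 ≤ Cc * φ := by
        rw [mul_comm Cc]
        exact mul_le_mul_of_nonneg_left hCm1 hφ0.le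
      linarith only [this, hφC, hφ0]
    linarith only [h1, heφ, hγχ, hχ0]
  have hc2 : 0 < cI m ^ 2 := by positivity
  have H1 := bas_part (hbase u₂ (by rw [hu₂]; linarith only [ho0]) hu₂1 φ hφ0) hc2
  have H2 := bas_part (hful φ hφ0) hc2
  have H3 := bas_part (Pool.GRW.TmC.wn htm u₂ φ hφ0) hc2
  obtain ⟨J₁, hJ₁⟩ := exists_nat_ge (2048 * Cc * (m + 13) / γ₀)
  obtain ⟨J₂, hJ₂⟩ := exists_nat_ge ((m + 100) / (x / 16))
  obtain ⟨J₃, hJ₃⟩ := exists_nat_ge ((Real.log C + 8 * K + 8) / (ε / 8))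
  obtain ⟨J₄, hJ₄⟩ := exists_nat_ge ((2 * m + 100) / (U - W))
  refine Bas.mono (J₁ + J₂ + J₃ + J₄) ((tmc_bas htm hφ0).and (H1.and (H2.and H3))) ?_
  rintro J hJ F A ⟨⟨hA, -⟩, h1, h2, h3⟩ V z z' G V₀ z₀ z₀' G₀ E₁ E₂ ρ₁ ρ₂ PG P au cu bv cv θp
    θs ju jv κ hG hG₀ hρ₁ hρ₂ nG nG₀ hnd hκ
  have hJ0 : (0 : ℝ) ≤ J := Nat.cast_nonneg J
  have j1 : (J₁ : ℝ) ≤ J := by exact_mod_cast (by omega : J₁ ≤ J)
  have j2 : (J₂ : ℝ) ≤ J := by exact_mod_cast (by omega : J₂ ≤ J)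
  have j3 : (J₃ : ℝ) ≤ J := by exact_mod_cast (by omega : J₃ ≤ J)
  have j4 : (J₄ : ℝ) ≤ J := by exact_mod_cast (by omega : J₄ ≤ J)
  have hm0 : (0 : ℝ) ≤ m := Nat.cast_nonneg m
  have k1 : 2048 * Cc * (m + 13) ≤ γ₀ * J := by
    have := hJ₁.trans j1
    rw [div_le_iff₀ hγ0] at this
    linarith only [this]
  have k2 : (m : ℝ) + 100 ≤ x / 16 * J := by
    have := hJ₂.trans j2
    rw [div_le_iff₀ (by linarith only [hx])] at this
    linarith only [this]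
  have k3 : Real.log C + 8 * K + 8 ≤ ε / 8 * J := by
    have := hJ₃.trans j3
    rw [div_le_iff₀ (by linarith only [hε])] at this
    linarith only [this]
  have k4 : 2 * (m : ℝ) + 100 ≤ (U - W) * J := by
    have := hJ₄.trans j4
    rw [div_le_iff₀ (by linarith only [hUW])] at this
    linarith only [this]
  -- the numbers
  have hcast : ∀ a b : ℕ, (a : ℝ) ≤ b → a ≤ b := fun a b h => by exact_mod_cast h
  have g0 : ∀ z : ℝ, 0 ≤ z → ((⌊z * J⌋₊ : ℕ) : ℝ) ≤ z * J := fun z hz =>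
    Nat.floor_le (mul_nonneg hz hJ0)
  have g1 : ∀ z : ℝ, z * J - 1 < ((⌊z * J⌋₊ : ℕ) : ℝ) := fun z => Nat.sub_one_lt_floor _
  obtain ⟨e, he⟩ : ∃ e, e = ⌊e₀ * J⌋₊ := ⟨_, rfl⟩
  have hea : (e : ℝ) ≤ e₀ * J := by rw [he]; exact g0 _ he₀.le
  obtain ⟨w, hw⟩ : ∃ w, w = ⌊W * J⌋₊ := ⟨_, rfl⟩
  have hw1 : (w : ℝ) ≤ W * J := by rw [hw]; exact g0 W hW0.le
  have hw2 : W * J - 1 < w := by rw [hw]; exact g1 W
  obtain ⟨nU, hnU⟩ : ∃ nU, nU = ⌊(U - W - e₀) * J⌋₊ := ⟨_, rfl⟩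
  have hnU1 : (nU : ℝ) ≤ (U - W - e₀) * J := by
    rw [hnU]
    exact g0 _ (by linarith only [heU, he₀])
  have hnU2 : (U - W - e₀) * J - 1 < nU := by rw [hnU]; exact g1 _
  obtain ⟨nD, hnD⟩ : ∃ nD, nD = ⌊(D - W - e₀) * J⌋₊ := ⟨_, rfl⟩
  have hnD1 : (nD : ℝ) ≤ (D - W - e₀) * J := by
    rw [hnD]
    exact g0 _ (by linarith only [heU, he₀, hUD])
  have hnD2 : (D - W - e₀) * J - 1 < nD := by rw [hnD]; exact g1 _
  obtain ⟨n₂, hn₂⟩ : ∃ n₂, n₂ = ⌊u₂ * J⌋₊ := ⟨_, rfl⟩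
  have hn1 : (n₂ : ℝ) ≤ u₂ * J := by
    rw [hn₂]
    exact g0 _ (by rw [hu₂]; linarith only [hW0, ho0])
  obtain ⟨L, hL⟩ : ∃ L, L = ⌊χ * J⌋₊ := ⟨_, rfl⟩
  have hL1 : (L : ℝ) ≤ χ * J := by rw [hL]; exact g0 _ hχ0.le
  have hL2 : χ * J - 1 < L := by rw [hL]; exact g1 _
  have hu₂J : u₂ * J = W * J + o * J := by rw [hu₂]; ring
  have hχJ : χ * J = x / 4 * J := by rw [hχ]
  have q1 : e₀ * J ≤ φ * J := mul_le_mul_of_nonneg_right heφ hJ0
  have q2 : o * J ≤ x / 4 * J := mul_le_mul_of_nonneg_right hox hJ0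
  have q3 : W * J ≤ U * J := mul_le_mul_of_nonneg_right hUW.le hJ0
  have q4 : U * J ≤ D * J := mul_le_mul_of_nonneg_right hUD hJ0
  have q5 : (D + x) * J ≤ 1 * J := mul_le_mul_of_nonneg_right hDx hJ0
  have q6 : e₀ * J ≤ χ * J := mul_le_mul_of_nonneg_right hexC hJ0
  have q7 : 0 ≤ e₀ * J := mul_nonneg he₀.le hJ0
  have q8 : 2 * e₀ * J ≤ (U - W) * J := mul_le_mul_of_nonneg_right heU hJ0
  have q9 : 0 ≤ x * J := mul_nonneg hx.le hJ0
  have hww : w ≤ n₂ := by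
    rw [hw, hn₂, hu₂]
    exact Nat.floor_le_floor (mul_le_mul_of_nonneg_right (by linarith only [ho0]) hJ0)
  have m1 : m + 3 ≤ w + nU := hcast _ _ (by
    push_cast
    have : 0 ≤ W * J := mul_nonneg hW0.le hJ0
    linarith only [hw2, hnU2, k4, q8, this, hm0])
  have m2 : m + 3 ≤ w + nD := hcast _ _ (by
    push_cast
    have : 0 ≤ W * J := mul_nonneg hW0.le hJ0
    linarith only [hw2, hnD2, k4, q8, this, hm0, q4])
  obtain ⟨gU, hgU⟩ : ∃ gU, gU = w + nU - (m + 3) := ⟨_, rfl⟩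
  obtain ⟨gD, hgD⟩ : ∃ gD, gD = w + nD - (m + 3) := ⟨_, rfl⟩
  have hgU' : gU + (m + 3) = w + nU := by omega
  have hgD' : gD + (m + 3) = w + nD := by omega
  have hgUr : (gU : ℝ) + (m + 3) = w + nU := by exact_mod_cast hgU'
  have hgDr : (gD : ℝ) + (m + 3) = w + nD := by exact_mod_cast hgD'
  rw [← hw] at hG hG₀
  rw [← hw, ← he, ← hnU, ← hnD] at hnd
  rw [← hw, ← hnU, ← hnD]
  have hwJ : w ≤ J := hcast _ _ (by linarith only [hw1, q3, q4, q5, q9])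
  have pU : (0 : ℝ) < 1 / 2 ^ nU := by positivity
  have pD : (0 : ℝ) < 1 / 2 ^ nD := by positivity
  -- the charts
  obtain ⟨Bu, bu1, bu2, zu, zu', bu3, bu4⟩ := lab_grdx (F := F) (A := A) (I := {c 0}) (v := c 1)
    (av := fun p _ => au p) (cv := cu) (th := fun s _ => ju s) (W := w) (M := nU) (e := e)
    (P := gU) hwJ (DpI.of_dp fun ω hω => ⟨(hnd.hbu ω hω).1, (hnd.hbu ω hω).2,
      (hnd.vu ω hω).trans (mul_le_of_le_one_left pU.le hκ)⟩)
    (fun ω hω _ _ => hnd.nu ω hω) (hcast _ _ (by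
      push_cast
      linarith only [hw1, hnU1, hea, k2, q4, q5, q9, hm0])) (by omega)
  have hsum : ∀ f : Fin m → ℝ, ∑ j ∈ ({c 0, c 1} : Finset (Fin m)), f j = f (c 0) + f (c 1) :=
    fun f => Finset.sum_pair h01
  obtain ⟨Bv, bv1, bv2, zv, zv', bv3, bv4⟩ := lab_grdx (F := F) (A := Bu) (I := {c 0, c 1})
    (v := c 2) (av := fun p j => if j = c 1 then θp p else bv p) (cv := cv)
    (th := fun s j => if j = c 1 then θs s else jv s) (W := w) (M := nD) (e := e)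
    (P := gD) hwJ (fun ω hω => by
      have hωA := bu1 ω hω
      refine ⟨fun j _ => ?_, (hnd.hbv ω hωA).2, ?_⟩
      · show |if j = c 1 then θp (ptr F J ω) else bv (ptr F J ω)| ≤ _
        split_ifs
        · exact hnd.hθ ω hωA
        · exact (hnd.hbv ω hωA).1
      · rw [hsum]
        show |F.d ω (c 2) - cv (ptr F J ω) - ((if c 0 = c 1 then θp (ptr F J ω) else
          bv (ptr F J ω)) * F.d ω (c 0) + (if c 1 = c 1 then θp (ptr F J ω) else
          bv (ptr F J ω)) * F.d ω (c 1))| ≤ _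
        rw [if_neg h01, if_pos rfl]
        have e1 : F.d ω (c 2) - cv (ptr F J ω) - (bv (ptr F J ω) * F.d ω (c 0) +
          θp (ptr F J ω) * F.d ω (c 1)) = F.d ω (c 2) - θp (ptr F J ω) * F.d ω (c 1) -
          cv (ptr F J ω) - bv (ptr F J ω) * F.d ω (c 0) := by ring
        rw [e1]
        exact (hnd.vv ω hωA).trans (mul_le_of_le_one_left pD.le hκ)) (fun ω hω j _ => by
      have hωA := bu1 ω hω
      show |(if j = c 1 then θs (slam F w ω) else jv (slam F w ω)) -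
        (if j = c 1 then θp (ptr F J ω) else bv (ptr F J ω))| ≤ _
      split_ifs
      · rw [hnd.thc ω hωA, sub_self, abs_zero]
        exact pD.le
      · exact hnd.nv ω hωA) (hcast _ _ (by
      push_cast
      linarith only [hw1, hnD1, hea, k2, q4, q5, q9, hm0])) (by omega)
  have hBvA : Sub Bv A := fun ω hω => bu1 ω (bv1 ω hω)
  have hPv : Pe F.p A ≤ cI m ^ 2 * Pe F.p Bv := by
    have := mul_le_mul_of_nonneg_left bv2 hcI.le
    calc Pe F.p A ≤ cI m * Pe F.p Bu := bu2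
      _ ≤ cI m * (cI m * Pe F.p Bv) := this
      _ = cI m ^ 2 * Pe F.p Bv := by ring
  have hBv0 : 0 < Pe F.p Bv := by
    by_contra hcon
    have h5 : cI m ^ 2 * Pe F.p Bv ≤ 0 :=
      mul_nonpos_of_nonneg_of_nonpos hc2.le (not_lt.1 hcon)
    linarith only [h5, hPv, hA]
  have f1 := h1 Bv hBvA hPv
  have f2 := h2 Bv hBvA hPv
  have f3 := h3 Bv hBvA hPv
  have hlog1 := Real.log_two_gt_d9
  have hlog2 := Real.log_two_lt_d9
  have hl1 : Real.log 2 ≤ 1 := by linarith only [hlog2]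
  have hl0 : 0 < Real.log 2 := by linarith only [hlog1]
  have hlow : ∀ (g : ℕ) (σ : ℝ), (σ - e₀) * J - (m + 5) ≤ g →
      ((J : ℝ) - g) * Real.log 2 - ((e₀ + φ) * J + (m + 8)) ≤
        ((1 - σ) - φ) * Real.log 2 * J := by
    intro g σ hg
    have r1 : ((J : ℝ) - g) * Real.log 2 ≤ ((1 - σ) * J + e₀ * J + (m + 5)) * Real.log 2 :=
      mul_le_mul_of_nonneg_right (by linarith only [hg]) hl0.le
    have r2 : (e₀ * J + (m + 5)) * Real.log 2 ≤ e₀ * J + (m + 5) :=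
      mul_le_of_le_one_right (by linarith only [q7, hm0]) hl1
    have r3 : φ * J * Real.log 2 ≤ φ * J :=
      mul_le_of_le_one_right (mul_nonneg hφ0.le hJ0) hl1
    linarith only [r1, r2, r3, hm0]
  obtain ⟨B, b1, b2, b3⟩ := hhn F Bv hBv0 hc (k := k) (w := w) (n₂ := n₂)
    (n := e + (n₂ - w) + 6) (L := L) (e := e) (nU := nU) (nD := nD) (gU := gU) (gD := gD)
    (E₁ := E₁) (E₂ := E₂) (ρ₁ := ρ₁) (ρ₂ := ρ₂) (PG := PG) (P := P)
    (θf := (e₀ + φ) * J + (m + 8)) (θt := φ * J) (γ := γ₀ * J) (hG.sub hBvA) (hG₀.sub hBvA)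
    hρ₁ hρ₂ nG nG₀ (hnd.sub hBvA) ((bu3 0).sub bv1) (bv3 0)
    (fun ω hω => bu4 ω (bv1 ω hω) (c 0) (Finset.mem_singleton_self _))
    (fun ω hω => by
      have r1 := bv4 ω hω (c 0) (Finset.mem_insert_self _ _)
      have r2 := bv4 ω hω (c 1) (Finset.mem_insert_of_mem (Finset.mem_singleton_self _))
      beta_reduce at r1 r2
      rw [if_neg h01] at r1
      rw [if_pos rfl] at r2
      exact ⟨r1, r2⟩) hww (hcast _ _ (by
      push_cast
      linarith only [hn1, hu₂J, hL1, hχJ, q2, q3, q4, q5, q9])) (hcast _ _ (by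
      push_cast
      linarith only [hgUr, hw1, hnU1, hea, hL1, hχJ, k2, q4, q5, q9, hm0])) (hcast _ _ (by
      push_cast
      linarith only [hgDr, hw1, hnD1, hea, hL1, hχJ, k2, q4, q5, q9, hm0])) (by omega) (by omega)
    (by omega) (by omega) (by positivity) (by positivity) (by
      rw [hn₂]
      refine f3.2 L ?_
      rw [← hn₂]
      exact hcast _ _ (by
        push_cast
        linarith only [hn1, hu₂J, hL1, hχJ, q2, q3, q4, q5, q9])) (fun X x x' hxx => by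
      have r1 := f1 X x x' (fun ω hω => by rw [← hw]; exact hxx ω hω)
      rw [← hn₂, ← hw] at r1
      have r2 : ({c 0} : Finset (Fin m)) = (range 1).image c := by
        ext a
        simp
      rw [Finset.card_singleton, r2] at r1
      have r3 := r1.trans (Pool.LA91.base_dig (isLaw_cond F.isLaw hBv0).nonneg
        (r₀ := 1) (c := c) (fun ω => x' (slam F w ω)))
      rw [Nat.cast_sub (hcast _ _ (by
        linarith only [hn1, hu₂J, q2, q3, q4, q5, q9]))] at r3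
      exact r3) (fun X x x' hxx => by
      have r1 := f2 X x x' (fun ω hω => by rw [← hw]; exact hxx ω hω)
      rw [← hw] at r1
      have r2 := r1 1 le_rfl (by norm_num)
      have r3 := r1 2 (by norm_num) (by norm_num)
      rw [hs1] at r2
      rw [hs2] at r3
      exact ⟨(hlow gU U (by linarith only [hgUr, hw2, hnU2])).trans r2,
        (hlow gD D (by linarith only [hgDr, hw2, hnD2])).trans r3⟩) (by
      rw [← hCc]
      have r1 : Cc * (e₀ * J) ≤ Cc * (φ * J) := mul_le_mul_of_nonneg_left q1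
        (by linarith only [hCm1])
      have r2 : 8192 * (Cc * (φ * J)) = γ₀ * J := by
        rw [← hφC]
        ring
      have e1 : Cc * ((e₀ + φ) * J + (m + 8) + 5) * 1024 = 1024 * (Cc * (e₀ * J)) +
        1024 * (Cc * (φ * J)) + (2048 * Cc * (m + 13)) / 2 := by ring
      rw [e1]
      have r3 : 0 ≤ γ₀ * J := mul_nonneg hγ0.le hJ0
      linarith only [r1, r2, k1, r3]) (by
      rw [← hCc]
      have r2 : 8192 * (Cc * (φ * J)) = γ₀ * J := by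
        rw [← hφC]
        ring
      have e1 : Cc * (φ * J + 7) * 1024 = 1024 * (Cc * (φ * J)) + 7168 * Cc := by ring
      rw [e1]
      have r4 : 0 ≤ Cc * m := mul_nonneg (by linarith only [hCm1]) hm0
      have r3 : 0 ≤ γ₀ * J := mul_nonneg hγ0.le hJ0
      linarith only [r2, k1, r3, r4, hCm1]) (by
      have r1 : γ₀ * J ≤ χ / 4 * J := mul_le_mul_of_nonneg_right hγχ hJ0
      have r2 : (χ * J - 1) * Real.log 2 ≤ L * Real.log 2 :=
        mul_le_mul_of_nonneg_right hL2.le hl0.le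
      have r3 : (χ * J - 1) * (1 / 2) ≤ (χ * J - 1) * Real.log 2 :=
        mul_le_mul_of_nonneg_left (by linarith only [hlog1]) (by linarith only [hχJ, k2, hm0])
      linarith only [r1, r2, r3, hχJ, k2, hm0])
  refine ⟨B, fun ω hω => hBvA ω (b1 ω hω), ?_, b3.mono ?_⟩
  · have := mul_le_mul_of_nonneg_left b2 hc2.le
    calc Pe F.p A ≤ cI m ^ 2 * Pe F.p Bv := hPv
      _ ≤ cI m ^ 2 * (2 * Pe F.p B) := this
      _ = 2 * cI m ^ 2 * Pe F.p B := by ring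
  · refine mul_le_mul_of_nonneg_right ?_ (by positivity)
    obtain ⟨N, hN⟩ : ∃ N, N = (e + (n₂ - w) + 6) * K := ⟨_, rfl⟩
    have hNr : (N : ℝ) ≤ ε / 8 * J + 8 * K := by
      have r1 : ((n₂ - w : ℕ) : ℝ) ≤ o * J + 1 := by
        rw [Nat.cast_sub hww]
        linarith only [hn1, hw2, hu₂J]
      rw [hN]
      push_cast
      have r2 : ((e : ℝ) + ((n₂ - w : ℕ) : ℝ) + 6) * K ≤ (e₀ * J + (o * J + 1) + 6) * K :=
        mul_le_mul_of_nonneg_right (by linarith only [r1, hea]) (by linarith only [hK1])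
      have r3 : 16 * (e₀ * K) * J ≤ ε * J := mul_le_mul_of_nonneg_right heK hJ0
      have r4 : 16 * (o * K) * J ≤ ε * J := mul_le_mul_of_nonneg_right hoK hJ0
      linarith only [r2, r3, r4, hK1]
    have hfl : ε * J - 1 < ⌊ε * (J : ℝ)⌋₊ := Nat.sub_one_lt_floor _
    rw [← hN]
    have hlogC : 0 ≤ Real.log C := Real.log_nonneg hC
    have e1 : C * 2 ^ N * Real.exp (4 * (γ₀ * J)) =
        Real.exp (Real.log C + N * Real.log 2 + 4 * (γ₀ * J)) := by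
      rw [Real.exp_add, Real.exp_add, Real.exp_log (by linarith only [hC]), two_exp]
    have e2 : (2 : ℝ) ^ ⌊ε * (J : ℝ)⌋₊ = Real.exp (⌊ε * (J : ℝ)⌋₊ * Real.log 2) := two_exp _
    rw [e1, e2]
    refine Real.exp_le_exp.2 ?_
    have r1 : (N : ℝ) * Real.log 2 ≤ (ε / 8 * J + 8 * K) * Real.log 2 :=
      mul_le_mul_of_nonneg_right hNr hl0.le
    have r2 : (ε * J - 1) * Real.log 2 ≤ ⌊ε * (J : ℝ)⌋₊ * Real.log 2 :=
      mul_le_mul_of_nonneg_right hfl.le hl0.le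
    have r3 : γ₀ * J ≤ ε / 32 * J := mul_le_mul_of_nonneg_right hγε hJ0
    have r4 : (ε / 8 * J + 8 * K) * Real.log 2 ≤ ε / 8 * J + 8 * K :=
      mul_le_of_le_one_right (by positivity) hl1
    have r5 : (ε * J - 1) * (1 / 2) ≤ (ε * J - 1) * Real.log 2 :=
      mul_le_mul_of_nonneg_left (by linarith only [hlog1]) (by
        linarith only [k3, hlogC, hK1])
    linarith only [r1, r2, r3, r4, r5, k3, hK1, hlogC]

end Pool.JVE
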