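import Pool.Agent.H62.AFN.Nat3
import Pool.Agent.H62.OWN.Afu

/-!
# The label on the planes, in natural units

`tie3_nat`: a closed label of `k` over `y`, `u`, `v` on the planes through the lines in the direction
of the slopes at the exact point. The slopes of `u` and of `v - θ u` are known in natural units, up
to the small factor `2 ^ (-c)`, and the second derivatives of the label in natural directions on the
natural box are at most `2 ^ (-s)`; nothing is assumed about the velocity of `k`.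
-/

set_option autoImplicit false

namespace Pool.JVE

open Finset MvPolynomial
open Pool.Agent.H49.Ent Pool.Agent.H32.Dense Pool.STK Pool.KA Pool.KSAT Pool.K2S Pool.PB Pool.GEN
open Pool.MIC6 (mvp wt wp wpt wp_eq dpt dpt_near dpt_none ptr_x mva tie_der nod_of mvp_zero)
open Pool.PB.Trl (rt rt_mem t_rt)
open Pool.FLF (Fam.sub)
open Pool.GRD (LbP)
open Pool.D2R (hs dd dd_add dd_smul)

variable {m J : ℕ}

section box

variable {F : Fam m J} {A : F.Ω → Prop} {y u v : Fin m} {w e : ℕ}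
  {au cu bv cv θp : PtT F → ℝ} {θs ju jv : LnT F → ℝ} {aU aD κ : ℝ}

/-- **The error of the lines through one point.** -/
theorem ND.fib (h : ND F A y u v w e au cu bv cv θp θs ju jv aU aD κ) (hw : w ≤ J)
    (hyu : y ≠ u) (hyv : y ≠ v) (huv : u ≠ v)
    (hκU : 2 ^ (w + e + 4) / 2 ^ J ≤ κ * aU) (hκD : 2 ^ (w + e + 4) / 2 ^ J ≤ κ * aD)
    (hU : 0 < aU) (hD : 0 < aD) (hκ : 3 * κ ≤ 1) {G : MvPolynomial (Option (Fin m)) ℝ}
    (hdep : ∀ b b' : Option (Fin m) → ℝ, b none = b' none →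
      (∀ i ∈ ({y, u, v} : Finset (Fin m)), b (some i) = b' (some i)) → eval b G = eval b' G)
    {N : ℝ} {ω ω' : F.Ω} (hω : A ω) (hω' : A ω') (hp : ptr F J ω = ptr F J ω')
    (hN : ∀ x, NB3 F w y u v (au (ptr F J ω)) (bv (ptr F J ω)) (θp (ptr F J ω)) aU aD ω x →
      ∀ i, (1 / 2 ^ w) ^ 2 * |hs G x (nd4 F y u v (au (ptr F J ω)) (bv (ptr F J ω))
          (θp (ptr F J ω)) aU aD ω i) (aU • eu u v (θp (ptr F J ω)))| ≤ N ∧
        (1 / 2 ^ w) ^ 2 * |hs G x (nd4 F y u v (au (ptr F J ω)) (bv (ptr F J ω))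
          (θp (ptr F J ω)) aU aD ω i) (aD • ev v)| ≤ N)
    {g : Option (Fin m) → ℝ} (hg : ∀ W, lf g W = dd G (dpt (ptr F J ω)) W) {σ : ℝ}
    (hσ : σ ∈ Set.Icc (0 : ℝ) 1) :
    |(eval (wpt F w ω' σ) G - lf g (wpt F w ω' σ)) -
      (eval (mvp (F.u ω) (F.d ω) (sl3 y u v (au (ptr F J ω))
          (bv (ptr F J ω) + θp (ptr F J ω) * au (ptr F J ω))) (wt F w ω σ)
          (wp F w ω' σ y - wp F w ω σ y)) G -
        lf g (mvp (F.u ω) (F.d ω) (sl3 y u v (au (ptr F J ω))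
          (bv (ptr F J ω) + θp (ptr F J ω) * au (ptr F J ω))) (wt F w ω σ)
          (wp F w ω' σ y - wp F w ω σ y)))| ≤ 66 * (κ * N) := by
  have pw : (0 : ℝ) < 1 / 2 ^ w := by positivity
  obtain ⟨d1, d2, d3⟩ := h.dev hw hκU hκD hω hω' hp hσ
  have m1 := h.mem_wpt hw hκU hκD hU hD hκ hω hω' hp hσ
  have m2 := mem_mvp (F := F) (w := w) hyu hyv huv hU hD ω (a := au (ptr F J ω))
    (b := bv (ptr F J ω)) (t := θp (ptr F J ω)) d1 hσ
  have m3 := h.mem_dpt hw hκU hκD hU hD hκ hω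
  obtain ⟨p, hp0⟩ : ∃ p, p = ptr F J ω := ⟨_, rfl⟩
  rw [← hp0] at hN hg d2 d3 m1 m2 m3 ⊢
  obtain ⟨a, ha⟩ : ∃ a, a = au p := ⟨_, rfl⟩
  obtain ⟨b, hb⟩ : ∃ b, b = bv p := ⟨_, rfl⟩
  obtain ⟨t, ht⟩ : ∃ t, t = θp p := ⟨_, rfl⟩
  rw [← ha, ← hb, ← ht] at hN m1 m2 m3 ⊢
  rw [← ha] at d2
  rw [← hb, ← ht] at d3
  obtain ⟨s, hs'⟩ : ∃ s, s = wp F w ω' σ y - wp F w ω σ y := ⟨_, rfl⟩
  rw [← hs'] at d2 d3 m2 ⊢
  obtain ⟨x, hx⟩ : ∃ x, x = mvp (F.u ω) (F.d ω) (sl3 y u v a (b + t * a)) (wt F w ω σ) s :=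
    ⟨_, rfl⟩
  obtain ⟨x', hx'⟩ : ∃ x', x' = wpt F w ω' σ := ⟨_, rfl⟩
  rw [← hx] at m2 ⊢
  rw [← hx'] at m1 ⊢
  obtain ⟨Δ, hΔ⟩ : ∃ Δ, Δ = x' - x := ⟨_, rfl⟩
  have e0 : x' = x + Δ := by rw [hΔ]; abel
  have hN0 : 0 ≤ N := le_trans (by positivity) (hN _ m3 0).1
  have hκ0 : 0 ≤ κ := by
    have h1 : 0 ≤ κ * aU := le_trans (by positivity) hκU
    by_contra hc
    exact absurd (mul_neg_of_neg_of_pos (not_le.1 hc) hU) (not_lt.2 h1)
  -- the components
  have hsy : sl3 y u v a (b + t * a) y = 1 := if_pos rfl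
  have hsu : sl3 y u v a (b + t * a) u = a := by
    show (if u = y then (1 : ℝ) else if u = u then a else _) = a
    rw [if_neg (Ne.symm hyu), if_pos rfl]
  have hsv : sl3 y u v a (b + t * a) v = b + t * a := by
    show (if v = y then (1 : ℝ) else if v = u then a else if v = v then _ else _) = _
    rw [if_neg (Ne.symm hyv), if_neg (Ne.symm huv), if_pos rfl]
  have hdel : ∀ j, Δ (some j) = dl F ω x' j - dl F ω x j := by
    intro j
    have hn : x' none = x none := by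
      rw [hx', hx]
      show wt F w ω' σ = wt F w ω σ
      exact wt_ptr F hp σ
    rw [hΔ]
    unfold dl
    rw [Pi.sub_apply, hn]
    ring
  have hΔn : Δ none = 0 := by
    rw [hΔ, Pi.sub_apply, hx', hx]
    show wt F w ω' σ - wt F w ω σ = 0
    rw [wt_ptr F hp σ, sub_self]
  have hdx : ∀ j, dl F ω x j = sl3 y u v a (b + t * a) j * s := fun j => by
    rw [hx]
    exact dl_mvp F w ω σ s _ j
  have hdx' : ∀ j, dl F ω x' j = wp F w ω' σ j - wp F w ω σ j := fun j => by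
    rw [hx']
    exact dl_wpt F hp σ j
  have hΔy : Δ (some y) = 0 := by
    rw [hdel, hdx, hdx', hsy, hs']
    ring
  obtain ⟨du', hdu'⟩ : ∃ du', du' = (wp F w ω' σ u - wp F w ω σ u) - a * s := ⟨_, rfl⟩
  obtain ⟨dv', hdv'⟩ : ∃ dv', dv' = (wp F w ω' σ v - wp F w ω σ v) -
    t * (wp F w ω' σ u - wp F w ω σ u) - b * s := ⟨_, rfl⟩
  rw [← hdu'] at d2
  rw [← hdv'] at d3
  have hΔu : Δ (some u) = du' := by
    rw [hdel, hdx, hdx', hsu, hdu']
  have hΔv : Δ (some v) = dv' + t * du' := by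
    rw [hdel, hdx, hdx', hsv, hdu', hdv']
    ring
  have huy : eu u v t (some y) = 0 := by
    show (if y = u then (1 : ℝ) else if y = v then t else 0) = 0
    rw [if_neg hyu, if_neg hyv]
  have huu : eu u v t (some u) = 1 := by
    show (if u = u then (1 : ℝ) else _) = 1
    rw [if_pos rfl]
  have huv' : eu u v t (some v) = t := by
    show (if v = u then (1 : ℝ) else if v = v then t else 0) = t
    rw [if_neg (Ne.symm huv), if_pos rfl]
  have hvy : ev v (some y) = 0 := by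
    show (if y = v then (1 : ℝ) else 0) = 0
    rw [if_neg hyv]
  have hvu : ev v (some u) = 0 := by
    show (if u = v then (1 : ℝ) else 0) = 0
    rw [if_neg huv]
  have hvv : ev v (some v) = 1 := by
    show (if v = v then (1 : ℝ) else 0) = 1
    rw [if_pos rfl]
  have hdec : ∀ ξ, dd G ξ Δ = du' / aU * dd G ξ (aU • eu u v t) +
      dv' / aD * dd G ξ (aD • ev v) := by
    intro ξ
    have h1 : dd G ξ Δ = dd G ξ ((du' / aU) • (aU • eu u v t) + (dv' / aD) • (aD • ev v)) := by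
      refine dd_congr hdep ξ ?_ fun i hi => ?_
      · rw [hΔn]
        simp only [Pi.add_apply, Pi.smul_apply, smul_eq_mul]
        show (0 : ℝ) = du' / aU * (aU * 0) + dv' / aD * (aD * 0)
        ring
      · simp only [Pi.add_apply, Pi.smul_apply, smul_eq_mul]
        rcases Finset.mem_insert.1 hi with rfl | hi
        · rw [hΔy, huy, hvy]
          ring
        · rcases Finset.mem_insert.1 hi with rfl | hi
          · rw [hΔu, huu, hvu]
            field_simp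
            ring
          · rw [Finset.mem_singleton.1 hi, hΔv, huv', hvv]
            field_simp
            ring
    rw [h1, dd_add, dd_smul G ξ (aU • eu u v t) (du' / aU), dd_smul G ξ (aD • ev v) (dv' / aD)]
  have hmv := seg_mv (R := shp g G) (x := x) (Δ := Δ) (B := 66 * (κ * N)) (fun r hr => by
    rw [dd_shp, hg, hdec, hdec]
    have hξ := m2.seg (e0 ▸ m1) hr
    have v1 := var_nb hyu hyv huv hdep hU hD (W := aU • eu u v t)
      (fun x hx i => (hN x hx i).1) m3 hξ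
    have v2 := var_nb hyu hyv huv hdep hU hD (W := aD • ev v)
      (fun x hx i => (hN x hx i).2) m3 hξ
    have c1 : |du' / aU| ≤ 1 / 2 ^ w * (3 * κ) := by
      rw [abs_div, abs_of_pos hU, div_le_iff₀ hU]
      refine d2.trans (le_of_eq ?_)
      ring
    have c2 : |dv' / aD| ≤ 1 / 2 ^ w * (3 * κ) := by
      rw [abs_div, abs_of_pos hD, div_le_iff₀ hD]
      refine d3.trans (le_of_eq ?_)
      ring
    have e1 : du' / aU * dd G (x + r • Δ) (aU • eu u v t) +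
        dv' / aD * dd G (x + r • Δ) (aD • ev v) -
        (du' / aU * dd G (dpt p) (aU • eu u v t) + dv' / aD * dd G (dpt p) (aD • ev v)) =
        du' / aU * (dd G (x + r • Δ) (aU • eu u v t) - dd G (dpt p) (aU • eu u v t)) +
        dv' / aD * (dd G (x + r • Δ) (aD • ev v) - dd G (dpt p) (aD • ev v)) := by ring
    rw [e1]
    have k1 := mul_le_mul c1 v1 (abs_nonneg _) (by positivity)
    have k2 := mul_le_mul c2 v2 (abs_nonneg _) (by positivity)
    rw [← abs_mul] at k1 k2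
    refine (abs_add_le _ _).trans ((add_le_add k1 k2).trans (le_of_eq ?_))
    field_simp
    ring)
  rw [eval_shp, eval_shp, ← e0] at hmv
  exact hmv

end box

/-- The gradient at the exact point. -/
noncomputable def gpe {F : Fam m J} {V : Type} (z : PtT F → V)
    (G : V → MvPolynomial (Option (Fin m)) ℝ) (p : PtT F) (o : Option (Fin m)) : ℝ :=
  eval (dpt p) (pderiv o (G (z p)))

theorem lf_gpe {F : Fam m J} {V : Type} (z : PtT F → V)
    (G : V → MvPolynomial (Option (Fin m)) ℝ) (p : PtT F) (W : Option (Fin m) → ℝ) :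
    lf (gpe z G p) W = dd (G (z p)) (dpt p) W := rfl

/-- The slope of `k` at the exact point. -/
noncomputable def akp {F : Fam m J} {V : Type} (z : PtT F → V)
    (G : V → MvPolynomial (Option (Fin m)) ℝ) (y u v : Fin m) (au bv θp : PtT F → ℝ)
    (p : PtT F) : ℝ := dd (G (z p)) (dpt p) (svc (sl3 y u v (au p) (bv p + θp p * au p)))

/-- The numbers of the label on the planes. -/
theorem num_n {C C₁ C₂ D X q e₀ : ℝ} {N g K P e s c R : ℕ} (hC₁ : 1 ≤ C₁) (hC₂ : 1 ≤ C₂)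
    (hD : 1 ≤ D) (hX : 1 ≤ X) (hC : 136 * (C₁ * C₂ * D) ≤ C) (hN : C * X ≤ 2 ^ N)
    (hq : q = 1 / 2 ^ g) (he₀ : e₀ = 1 / 2 ^ J)
    (n1 : N + g * (K + 1) + (R + 2) ≤ P) (n2 : N + g * (K + 1) + e + (R + 2) ≤ J)
    (n3 : N + g * (K + 1) + (R + 2) ≤ s + c) :
    C₂ * (C₁ * (1 / q) ^ (K + 1) * (X / 2 ^ P + 66 * (1 / 2 ^ c * (1 / 2 ^ s)) +
      D * 2 ^ e * e₀ + 1 / 2 ^ P + D * 2 ^ e * e₀ + 1 / 2 ^ P)) ≤ (1 : ℝ) / 2 ^ R := by
  subst hq
  subst he₀
  obtain ⟨Q, hQ⟩ : ∃ Q : ℝ, Q = 2 ^ (g * (K + 1)) := ⟨_, rfl⟩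
  have hQ0 : 0 < Q := by rw [hQ]; positivity
  have f1 : ((1 : ℝ) / (1 / 2 ^ g)) ^ (K + 1) = Q := by
    rw [one_div_one_div, hQ, pow_mul]
  rw [f1]
  have two : ∀ a b : ℕ, a + (R + 2) ≤ b → (2 : ℝ) ^ a / 2 ^ b ≤ 1 / 2 ^ (R + 2) := by
    intro a b h
    rw [div_le_div_iff₀ (by positivity) (by positivity), one_mul, ← pow_add]
    exact pow_le_pow_right₀ (by norm_num) h
  have hCC : 0 < C₁ * C₂ := by positivity
  have hCD : C₁ * C₂ ≤ C₁ * C₂ * D := le_mul_of_one_le_right hCC.le hD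
  have hC0 : 136 ≤ C := by
    have : 1 ≤ C₁ * C₂ := one_le_mul_of_one_le_of_one_le hC₁ hC₂
    linarith
  have hCN : C ≤ 2 ^ N := le_trans (le_mul_of_one_le_right (by linarith) hX) hN
  have k1 : C₂ * (C₁ * Q * (X / 2 ^ P + 1 / 2 ^ P + 1 / 2 ^ P)) ≤ 1 / 2 ^ (R + 2) := by
    have l1 : C₂ * (C₁ * Q * (X / 2 ^ P + 1 / 2 ^ P + 1 / 2 ^ P)) =
        C₁ * C₂ * (X + 1 + 1) * Q / 2 ^ P := by ring
    rw [l1]
    have l2 : C₁ * C₂ * (X + 1 + 1) ≤ 2 ^ N := by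
      refine le_trans ?_ hN
      have l3 : C₁ * C₂ * (X + 1 + 1) ≤ C₁ * C₂ * (3 * X) :=
        mul_le_mul_of_nonneg_left (by linarith) hCC.le
      have l4 : C₁ * C₂ * (3 * X) = 3 * (C₁ * C₂) * X := by ring
      refine l3.trans (l4.le.trans (mul_le_mul_of_nonneg_right ?_ (by linarith)))
      linarith
    have l5 : C₁ * C₂ * (X + 1 + 1) * Q / 2 ^ P ≤ 2 ^ N * Q / 2 ^ P :=
      div_le_div_of_nonneg_right (mul_le_mul_of_nonneg_right l2 hQ0.le) (by positivity)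
    refine l5.trans ?_
    rw [hQ, ← pow_add]
    exact two _ _ (by omega)
  have k2 : C₂ * (C₁ * Q * (66 * (1 / 2 ^ c * (1 / 2 ^ s)))) ≤ 1 / 2 ^ (R + 2) := by
    have l1 : C₂ * (C₁ * Q * (66 * (1 / 2 ^ c * (1 / 2 ^ s)))) =
        66 * (C₁ * C₂) * Q / 2 ^ (s + c) := by
      rw [pow_add]
      field_simp
    rw [l1]
    have l2 : 66 * (C₁ * C₂) ≤ 2 ^ N := by linarith
    have l5 : 66 * (C₁ * C₂) * Q / 2 ^ (s + c) ≤ 2 ^ N * Q / 2 ^ (s + c) :=
      div_le_div_of_nonneg_right (mul_le_mul_of_nonneg_right l2 hQ0.le) (by positivity)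
    refine l5.trans ?_
    rw [hQ, ← pow_add]
    exact two _ _ (by omega)
  have k3 : C₂ * (C₁ * Q * (D * 2 ^ e * (1 / 2 ^ J) + D * 2 ^ e * (1 / 2 ^ J))) ≤
      1 / 2 ^ (R + 2) := by
    have l1 : C₂ * (C₁ * Q * (D * 2 ^ e * (1 / 2 ^ J) + D * 2 ^ e * (1 / 2 ^ J))) =
        2 * (C₁ * C₂ * D) * Q * 2 ^ e / 2 ^ J := by ring
    rw [l1]
    have l2 : 2 * (C₁ * C₂ * D) ≤ 2 ^ N := by
      have : 0 < C₁ * C₂ * D := by positivity
      linarith
    have l5 : 2 * (C₁ * C₂ * D) * Q * 2 ^ e / 2 ^ J ≤ 2 ^ N * Q * 2 ^ e / 2 ^ J :=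
      div_le_div_of_nonneg_right (mul_le_mul_of_nonneg_right (mul_le_mul_of_nonneg_right l2
        hQ0.le) (by positivity)) (by positivity)
    refine l5.trans ?_
    rw [hQ, ← pow_add, ← pow_add]
    exact two _ _ (by omega)
  have k4 : (1 : ℝ) / 2 ^ (R + 2) + 1 / 2 ^ (R + 2) + 1 / 2 ^ (R + 2) ≤ 1 / 2 ^ R := by
    have e2 : (1 : ℝ) / 2 ^ (R + 2) = 1 / 2 ^ R / 4 := by
      rw [pow_add]
      field_simp
      norm_num
    have : (0 : ℝ) < 1 / 2 ^ R := by positivity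
    rw [e2]
    linarith
  refine le_trans (le_of_eq ?_) ((add_le_add (add_le_add k1 k2) k3).trans k4)
  ring

/-- **The label on the planes, in natural units.** -/
theorem tie3_nat (m K : ℕ) (hK : 1 ≤ K) : ∃ C : ℝ, 1 ≤ C ∧ ∀ {J : ℕ} (F : Fam m J)
    (A : F.Ω → Prop) (hA : 0 < Pe F.p A) {y u v k : Fin m} {e w ρ P g N R s c : ℕ} {V : Type}
    {z : PtT F → V} {z' : LnT F → V} {G : V → MvPolynomial (Option (Fin m)) ℝ}
    {au cu bv cv θp : PtT F → ℝ} {θs ju jv : LnT F → ℝ} {aU aD θ : ℝ}, y ≠ u → y ≠ v → u ≠ v →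
    LbOK F {y, u, v} k K e J w ρ P A z z' G →
    ND F A y u v w e au cu bv cv θp θs ju jv aU aD (1 / 2 ^ c) → 0 < aU → 0 < aD →
    2 ^ (w + e + 4) / 2 ^ J ≤ 1 / 2 ^ c * aU → 2 ^ (w + e + 4) / 2 ^ J ≤ 1 / 2 ^ c * aD →
    (∀ ω, A ω → ∀ x, NB3 F w y u v (au (ptr F J ω)) (bv (ptr F J ω)) (θp (ptr F J ω)) aU aD
        ω x → ∀ i, (1 / 2 ^ w) ^ 2 * |hs (G (z (ptr F J ω))) x (nd4 F y u v (au (ptr F J ω))
          (bv (ptr F J ω)) (θp (ptr F J ω)) aU aD ω i) (aU • eu u v (θp (ptr F J ω)))| ≤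
            1 / 2 ^ s ∧
        (1 / 2 ^ w) ^ 2 * |hs (G (z (ptr F J ω))) x (nd4 F y u v (au (ptr F J ω))
          (bv (ptr F J ω)) (θp (ptr F J ω)) aU aD ω i) (aD • ev v)| ≤ 1 / 2 ^ s) →
    w ≤ J → ρ ≤ w → ρ + 2 ≤ J → 2 ≤ c → 0 ≤ θ → (Fam.sub F A hA).Tm θ →
    C * (θ + 1) ≤ ((J : ℝ) - w) * Real.log 2 →
    (∀ B₀ : F.Ω → Prop, Sub B₀ A → Pe F.p A / 4 < Pe F.p B₀ → Real.log (2 * (K + 2 : ℕ)) <
      CH (Pool.Agent.H49.Ent.cond F.p B₀ True) (fun ω => F.D g ω y) (ptr F J)) →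
    C * Real.exp (C * (θ + 1)) ≤ 2 ^ N → N + e + g + w + 4 ≤ J →
    N + g * (K + 1) + (R + 2) ≤ P → N + g * (K + 1) + e + (R + 2) ≤ J →
    N + g * (K + 1) + (R + 2) ≤ s + c →
    ∃ A' : F.Ω → Prop, Sub A' A ∧ Pe F.p A / 4 ≤ Pe F.p A' ∧
      (∀ ω, A' ω → ∀ σ ∈ Set.Icc (0 : ℝ) 1, ∀ η : ℝ, |η| ≤ 1 →
        |eval (mvp (F.u ω) (F.d ω) (sl3 y u v (au (ptr F J ω)) (bv (ptr F J ω) +
          θp (ptr F J ω) * au (ptr F J ω))) (wt F w ω σ) (1 / 2 ^ w * η))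
          (G (z' (slam F w ω))) -
          (wp F w ω σ k + akp z G y u v au bv θp (ptr F J ω) * (1 / 2 ^ w * η))| ≤
            1 / 2 ^ R) ∧
      (∀ ω, A' ω → ∀ σ ∈ Set.Icc (0 : ℝ) 1,
        |eval (wpt F w ω σ) (pderiv (some y) (G (z' (slam F w ω)))) +
          (au (ptr F J ω) * eval (wpt F w ω σ) (pderiv (some u) (G (z' (slam F w ω)))) +
          (bv (ptr F J ω) + θp (ptr F J ω) * au (ptr F J ω)) *
            eval (wpt F w ω σ) (pderiv (some v) (G (z' (slam F w ω))))) -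
          akp z G y u v au bv θp (ptr F J ω)| ≤ 2 ^ w * (1 / 2 ^ R)) := by
  classical
  obtain ⟨C₁, hC₁, htie⟩ := tie_sh m K hK
  obtain ⟨C₂, hC₂, hder⟩ := tie_der m K
  obtain ⟨C₃, hC₃, hbds⟩ := der_bds m K
  obtain ⟨D, hD⟩ : ∃ D : ℝ, D = 2 * (((m : ℝ) + 2) ^ 2 * C₃) := ⟨_, rfl⟩
  have hm0 : (0 : ℝ) ≤ m := Nat.cast_nonneg m
  have hm2 : (1 : ℝ) ≤ ((m : ℝ) + 2) ^ 2 := one_le_pow₀ (by linarith)
  have hD2 : ((m : ℝ) + 2) ^ 2 * C₃ ≤ D := by
    rw [hD]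
    have : 0 ≤ ((m : ℝ) + 2) ^ 2 * C₃ := by positivity
    linarith
  have hDm : ((m : ℝ) + 2) ^ 2 ≤ D :=
    (le_mul_of_one_le_right (by positivity) hC₃).trans hD2
  have hD1 : 1 ≤ D := hm2.trans hDm
  have hCC : 1 ≤ C₁ * C₂ := one_le_mul_of_one_le_of_one_le hC₁ hC₂
  have hCC1 : C₁ ≤ C₁ * C₂ := le_mul_of_one_le_right (by linarith) hC₂
  have hCD : C₁ * C₂ ≤ C₁ * C₂ * D := le_mul_of_one_le_right (by linarith) hD1
  have hDC : D ≤ C₁ * C₂ * D := le_mul_of_one_le_left (by linarith) hCC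
  refine ⟨136 * (C₁ * C₂ * D), by linarith, ?_⟩
  intro J F A hA y u v k e w ρ P g N R s c V z z' G au cu bv cv θp θs ju jv aU aD θ hyu hyv huv
    hlab hnd hU hDp hκU hκD hN2 hw hρ hρJ hc hθ hTm hJ hact hN n0 n1 n2 n3
  obtain ⟨C, hC⟩ : ∃ C, C = 136 * (C₁ * C₂ * D) := ⟨_, rfl⟩
  rw [← hC] at hJ hN
  have hCC₁ : C₁ ≤ C := by linarith
  have pe : (1 : ℝ) ≤ 2 ^ e := one_le_pow₀ (by norm_num)
  have pw : (0 : ℝ) < 1 / 2 ^ w := by positivity
  have pJ : (0 : ℝ) < 1 / 2 ^ J := by positivity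
  have hX : 1 ≤ Real.exp (C₁ * (θ + 1)) := Real.one_le_exp (by positivity)
  have hXX : Real.exp (C₁ * (θ + 1)) ≤ Real.exp (C * (θ + 1)) :=
    Real.exp_le_exp.2 (mul_le_mul_of_nonneg_right hCC₁ (by linarith))
  have hC0 : 0 < C := by linarith
  have hNC : C * Real.exp (C₁ * (θ + 1)) ≤ 2 ^ N :=
    (mul_le_mul_of_nonneg_left hXX hC0.le).trans hN
  have hCN : C ≤ 2 ^ N := le_trans (le_mul_of_one_le_right hC0.le hX) hNC
  have hκ3 : 3 * ((1 : ℝ) / 2 ^ c) ≤ 1 := by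
    have h1 : (1 : ℝ) / 2 ^ c ≤ 1 / 2 ^ 2 := inv_mono hc
    norm_num at h1
    norm_num
    linarith
  have hcard : ((Finset.univ : Finset (Option (Fin m))).card : ℝ) = m + 1 := by
    rw [Finset.card_univ, Fintype.card_option, Fintype.card_fin]
    push_cast
    ring
  have hρw : (2 : ℝ) ^ ρ ≤ 2 ^ w := pow_le_pow_right₀ (by norm_num) hρ
  have hJr : (1 : ℝ) / 2 ^ J ≤ 1 / 2 ^ ρ / 4 := by
    rw [div_div, div_le_div_iff₀ (by positivity) (by positivity), one_mul, one_mul]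
    have h1 : (2 : ℝ) ^ ρ * 4 = 2 ^ (ρ + 2) := by
      rw [pow_add]
      norm_num
    rw [h1]
    exact pow_le_pow_right₀ (by norm_num) hρJ
  -- the gradient at the exact point
  have hgp : ∀ ω, A ω → ∀ o, |gpe z G (ptr F J ω) o| ≤ 2 ^ e := by
    intro ω hω o
    unfold gpe
    rw [hlab.cls ω hω]
    refine hlab.lip ω hω _ (fun o => (dpt_near F ω o).trans ?_) o
    have : (0 : ℝ) < 1 / 2 ^ ρ := by positivity
    linarith
  have hgd : ∀ ω, A ω → ∀ o, |eval (bt F ω) (pderiv o (G (z' (slam F w ω)))) -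
      gpe z G (ptr F J ω) o| ≤ ((m : ℝ) + 1) * (C₃ * (2 ^ e * 2 ^ w)) * (1 / 2 ^ J) := by
    intro ω hω o
    have h1 := hbds (G (z' (slam F w ω))) (bt F ω) (1 / 2 ^ ρ) (2 ^ e) (hlab.deg _)
      (by positivity) (fun b hb o => hlab.lip ω hω b hb o)
    have h2 := mva (pderiv o (G (z' (slam F w ω)))) (bt F ω) (dpt (ptr F J ω))
      (fun _ => C₃ * (2 ^ e / (1 / 2 ^ ρ))) (fun b hb i _ => h1.1 b (fun o => (hb o).trans
        ((dpt_near F ω o).trans (hJr.trans (by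
          have : (0 : ℝ) < 1 / 2 ^ ρ := by positivity
          linarith)))) o i)
    unfold gpe
    rw [hlab.cls ω hω, abs_sub_comm]
    refine h2.trans ?_
    have h3 : ∑ i, C₃ * (2 ^ e / (1 / 2 ^ ρ)) * |dpt (ptr F J ω) i - bt F ω i| ≤
        ∑ _i : Option (Fin m), C₃ * (2 ^ e * 2 ^ w) * (1 / 2 ^ J) := by
      refine Finset.sum_le_sum fun i _ => mul_le_mul ?_ (dpt_near F ω i) (abs_nonneg _)
        (by positivity)
      refine mul_le_mul_of_nonneg_left ?_ (by linarith)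
      have e1 : (2 : ℝ) ^ e / (1 / 2 ^ ρ) = 2 ^ e * 2 ^ ρ := by field_simp
      rw [e1]
      exact mul_le_mul_of_nonneg_left hρw (by positivity)
    refine h3.trans (le_of_eq ?_)
    rw [Finset.sum_const, nsmul_eq_mul, hcard]
    ring
  obtain ⟨B, b1, b2, b3⟩ := htie F A hA (I := {y, u, v}) (κ := y) (k := k) (w := w) (P := P)
    (gp := gpe z G) (sl := fun p => sl3 y u v (au p) (bv p + θp p * au p)) (ρ := 1 / 2 ^ g)
    (s₀ := D * 2 ^ e * (1 / 2 ^ J))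
    (err := 2 ^ w / 2 ^ P + 2 ^ w * (((m : ℝ) + 1) ^ 2 * C₃ * 2 ^ e * (1 / 2 ^ J)))
    (M₂ := 66 * (1 / 2 ^ c * (1 / 2 ^ s))) (θ := θ) (LbP.of hlab) hw hθ hTm
    (le_trans (mul_le_mul_of_nonneg_right hCC₁ (by linarith)) hJ) (by positivity) (by
      rw [div_le_one (by positivity)]
      exact one_le_pow₀ (by norm_num)) (by
      have h1 : D ≤ 2 ^ N := by linarith
      have h2 : D * 2 ^ e * (1 / 2 ^ J) ≤ 2 ^ N * 2 ^ e * (1 / 2 ^ J) :=
        mul_le_mul_of_nonneg_right (mul_le_mul_of_nonneg_right h1 (by positivity)) pJ.le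
      refine h2.trans ?_
      have e1 : (1 : ℝ) / 2 ^ g * (1 / 2 ^ w) / 16 = 1 / 2 ^ (g + w + 4) := by
        rw [pow_add, pow_add]
        norm_num
        field_simp
      rw [e1, mul_one_div, ← pow_add, div_le_div_iff₀ (by positivity) (by positivity), one_mul,
        ← pow_add]
      exact pow_le_pow_right₀ (by norm_num) (by omega)) (by positivity)
    (fun ω ω' hω hω' hp => by
      have hx := ptr_x F hp
      have k0 : (m : ℝ) + 2 ≤ D := by
        refine le_trans ?_ hDm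
        nlinarith
      have hs1 : 1 / 2 ^ J ≤ D * 2 ^ e * ((1 : ℝ) / 2 ^ J) := by
        have : 1 * (1 / 2 ^ J) ≤ D * 2 ^ e * ((1 : ℝ) / 2 ^ J) :=
          mul_le_mul_of_nonneg_right (one_le_mul_of_one_le_of_one_le hD1 pe) pJ.le
        linarith
      refine ⟨(hx y).trans hs1, ?_⟩
      have e1 : F.x ω' k - lf (gpe z G (ptr F J ω)) (bt F ω') -
          (F.x ω k - lf (gpe z G (ptr F J ω)) (bt F ω)) = (F.x ω' k - F.x ω k) -
          lf (gpe z G (ptr F J ω)) (bt F ω' - bt F ω) := by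
        rw [lf_sub]
        ring
      rw [e1]
      have hbt : ∀ o, |(bt F ω' - bt F ω) o| ≤ 1 / 2 ^ J := by
        intro o
        cases o with
        | none =>
          show |F.t ω' - F.t ω| ≤ _
          have hT : F.T ω = F.T ω' := congrArg (fun p : PtT F => p.2.1) hp
          have : F.t ω' = F.t ω := by
            show (F.T ω' : ℝ) / 2 ^ J = (F.T ω : ℝ) / 2 ^ J
            rw [hT]
          rw [this, sub_self, abs_zero]
          exact pJ.le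
        | some j => exact hx j
      have h1 : |lf (gpe z G (ptr F J ω)) (bt F ω' - bt F ω)| ≤
          ((m : ℝ) + 1) * (2 ^ e * (1 / 2 ^ J)) := by
        unfold lf
        refine (Finset.abs_sum_le_sum_abs _ _).trans ?_
        have h2 : ∑ o, |gpe z G (ptr F J ω) o * (bt F ω' - bt F ω) o| ≤
            ∑ _o : Option (Fin m), 2 ^ e * (1 / 2 ^ J) := by
          refine Finset.sum_le_sum fun o _ => ?_
          rw [abs_mul]
          exact mul_le_mul (hgp ω hω o) (hbt o) (abs_nonneg _) (by positivity)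
        refine h2.trans (le_of_eq ?_)
        rw [Finset.sum_const, nsmul_eq_mul, hcard]
      refine (abs_sub _ _).trans ((add_le_add (hx k) h1).trans ?_)
      have h3 : 1 * (1 / 2 ^ J) ≤ 2 ^ e * ((1 : ℝ) / 2 ^ J) :=
        mul_le_mul_of_nonneg_right pe pJ.le
      have h4 : ((m : ℝ) + 2) * (2 ^ e * (1 / 2 ^ J)) ≤ D * (2 ^ e * (1 / 2 ^ J)) :=
        mul_le_mul_of_nonneg_right k0 (by positivity)
      linarith) (fun ω hω => by
      have h1 := hlab.vel ω hω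
      have h2 : |∑ o, bd F ω o * eval (bt F ω) (pderiv o (G (z' (slam F w ω)))) -
          lf (gpe z G (ptr F J ω)) (bd F ω)| ≤
          ((m : ℝ) + 1) * (((m : ℝ) + 1) * (C₃ * (2 ^ e * 2 ^ w)) * (1 / 2 ^ J)) := by
        unfold lf
        rw [← Finset.sum_sub_distrib]
        refine (Finset.abs_sum_le_sum_abs _ _).trans ?_
        have h3 : ∑ o, |bd F ω o * eval (bt F ω) (pderiv o (G (z' (slam F w ω)))) -
            gpe z G (ptr F J ω) o * bd F ω o| ≤ ∑ _o : Option (Fin m),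
              ((m : ℝ) + 1) * (C₃ * (2 ^ e * 2 ^ w)) * (1 / 2 ^ J) := by
          refine Finset.sum_le_sum fun o _ => ?_
          have e1 : bd F ω o * eval (bt F ω) (pderiv o (G (z' (slam F w ω)))) -
              gpe z G (ptr F J ω) o * bd F ω o = bd F ω o *
              (eval (bt F ω) (pderiv o (G (z' (slam F w ω)))) - gpe z G (ptr F J ω) o) := by
            ring
          rw [e1, abs_mul]
          have h4 := mul_le_mul (bd_le F ω o) (hgd ω hω o) (abs_nonneg _) zero_le_one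
          rw [one_mul] at h4
          exact h4
        refine h3.trans (le_of_eq ?_)
        rw [Finset.sum_const, nsmul_eq_mul, hcard]
      have e2 : F.d ω k - lf (gpe z G (ptr F J ω)) (bd F ω) =
          (F.d ω k - ∑ o, bd F ω o * eval (bt F ω) (pderiv o (G (z' (slam F w ω))))) +
          (∑ o, bd F ω o * eval (bt F ω) (pderiv o (G (z' (slam F w ω)))) -
            lf (gpe z G (ptr F J ω)) (bd F ω)) := by ring
      rw [e2]
      refine (abs_add_le _ _).trans ((add_le_add h1 h2).trans (le_of_eq ?_))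
      ring) (fun ω ω' hω hω' hp σ hσ => by
      rw [← hlab.cls ω hω]
      exact hnd.fib hw hyu hyv huv hκU hκD hU hDp hκ3 (hlab.dep _) hω hω' hp
        (fun x hx i => hN2 ω hω x hx i) (fun W => lf_gpe z G _ W) hσ) (fun B₁ hB₁ hPB₁ => by
      have hPB₁' : Pe F.p A / 2 ≤ Pe F.p B₁ := hPB₁
      have hB₁0 : 0 < Pe F.p B₁ := by linarith
      obtain ⟨B', b1, b2, b3⟩ := nod_of (F := F) (K + 2) (B := B₁) hB₁0 (κ := y)
        (g := g) (Φ := ptr F J) (fun B₀ hB₀ hPB₀ => by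
          refine hact B₀ (fun ω hω => hB₁ ω (hB₀ ω hω)) ?_
          have hPB₀' : Pe F.p B₁ / 2 < Pe F.p B₀ := hPB₀
          linarith)
      exact ⟨B', b1, b2, b3⟩)
  obtain ⟨E, hE⟩ : ∃ E : ℝ, E = C₁ * (1 / (1 / 2 ^ g)) ^ (K + 1) *
      (Real.exp (C₁ * (θ + 1)) / 2 ^ P + 66 * (1 / 2 ^ c * (1 / 2 ^ s)) +
        D * 2 ^ e * (1 / 2 ^ J) + 1 / 2 ^ w * (2 * (2 ^ w / 2 ^ P +
          2 ^ w * (((m : ℝ) + 1) ^ 2 * C₃ * 2 ^ e * (1 / 2 ^ J))))) := ⟨_, rfl⟩
  rw [← hE] at b3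
  have hEn : C₂ * E ≤ 1 / 2 ^ R := by
    have h1 := num_n (C := C) (K := K) (q := 1 / 2 ^ g) (e₀ := 1 / 2 ^ J) (J := J) hC₁ hC₂ hD1
      hX hC.symm.le hNC rfl rfl n1 n2 n3
    refine le_trans ?_ h1
    rw [hE]
    refine mul_le_mul_of_nonneg_left (mul_le_mul_of_nonneg_left ?_ (by positivity))
      (by linarith)
    have e1 : (1 : ℝ) / 2 ^ w * (2 * (2 ^ w / 2 ^ P +
        2 ^ w * (((m : ℝ) + 1) ^ 2 * C₃ * 2 ^ e * (1 / 2 ^ J)))) =
        1 / 2 ^ P + 2 * (((m : ℝ) + 1) ^ 2 * C₃) * 2 ^ e * (1 / 2 ^ J) + 1 / 2 ^ P := by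
      field_simp
      ring
    rw [e1]
    have h2 : 2 * (((m : ℝ) + 1) ^ 2 * C₃) ≤ D := by
      rw [hD]
      refine mul_le_mul_of_nonneg_left (mul_le_mul_of_nonneg_right ?_ (by linarith))
        (by norm_num)
      exact pow_le_pow_left₀ (by linarith) (by linarith) 2
    have h3 : 2 * (((m : ℝ) + 1) ^ 2 * C₃) * 2 ^ e * (1 / 2 ^ J) ≤ D * 2 ^ e * (1 / 2 ^ J) :=
      mul_le_mul_of_nonneg_right (mul_le_mul_of_nonneg_right h2 (by positivity)) pJ.le
    linarith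
  have hE0 : 0 ≤ E := by
    rw [hE]
    positivity
  have hE1 : E ≤ 1 / 2 ^ R := le_trans (le_mul_of_one_le_left hE0 hC₂) hEn
  refine ⟨B, b1, b2, fun ω hω σ hσ η hη => (b3 ω hω σ hσ η hη).trans hE1,
    fun ω hω σ hσ => ?_⟩
  have h1 := hder (I := {y, u, v}) (G := G (z' (slam F w ω))) (F.u ω) (F.d ω)
    (sl3 y u v (au (ptr F J ω)) (bv (ptr F J ω) + θp (ptr F J ω) * au (ptr F J ω)))
    (t := wt F w ω σ) (v := wp F w ω σ k) (a := akp z G y u v au bv θp (ptr F J ω))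
    (h := 1 / 2 ^ w) (S := E) (hlab.deg _) (hlab.dep _) pw (fun η hη => b3 ω hω σ hσ η hη)
  have h3 : ∀ f : Fin m → ℝ, ∑ j ∈ ({y, u, v} : Finset (Fin m)), f j = f y + (f u + f v) := by
    intro f
    rw [Finset.sum_insert (by
      rw [Finset.mem_insert, Finset.mem_singleton]
      exact fun h => h.elim hyu hyv), Finset.sum_insert (by
      rw [Finset.mem_singleton]
      exact huv), Finset.sum_singleton]
  have hsy : ∀ a c : ℝ, sl3 y u v a c y = 1 := fun _ _ => if_pos rfl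
  have hsu : ∀ a c : ℝ, sl3 y u v a c u = a := fun a c => by
    show (if u = y then (1 : ℝ) else if u = u then a else _) = a
    rw [if_neg (Ne.symm hyu), if_pos rfl]
  have hsv : ∀ a c : ℝ, sl3 y u v a c v = c := fun a c => by
    show (if v = y then (1 : ℝ) else if v = u then a else if v = v then _ else _) = _
    rw [if_neg (Ne.symm hyv), if_neg (Ne.symm huv), if_pos rfl]
  rw [h3, hsy, hsu, hsv, one_mul, mvp_zero] at h1
  refine h1.trans ?_
  have e1 : C₂ * E / (1 / 2 ^ w) = 2 ^ w * (C₂ * E) := by field_simp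
  rw [e1]
  exact mul_le_mul_of_nonneg_left hEn (by positivity)

end Pool.JVE
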