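import Pool.Agent.H62.AFN.Chd
import Pool.Agent.H91.LA.Nbx
import Pool.Agent.H91.LA.Own

/-!
# The second derivatives on the natural box from two labels

`hn_fam`: two closed labels of `k` over `y`, `u`, `v`, one of them affine, are near at the own points;
with affine charts of `u` over `y` and of `v` over `y`, `u`, which are full behind their precisions,
they are near on the natural boxes, outside a small event. Hence the second derivatives of the
labels in natural directions are small there.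
-/

set_option autoImplicit false

namespace Pool.JVE

open Finset MvPolynomial
open Pool.Agent.H49.Ent Pool.Agent.H32.Dense Pool.STK Pool.KA Pool.KSAT Pool.K2S Pool.PB Pool.GEN
open Pool.BFL (Pb)
open Pool.GRW (xr xr_near Cm one_le_Cm)

variable {m J : ℕ}

/-- The value of a closed label at the rational own point. -/
theorem xr_val {F : Fam m J} {I : Finset (Fin m)} {k : Fin m} {K e w ρ P : ℕ} {A : F.Ω → Prop}
    {V : Type} {z : PtT F → V} {z' : LnT F → V} {G : V → MvPolynomial (Option (Fin m)) ℝ}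
    (h : LbOK F I k K e J w ρ P A z z' G) (hρ : ρ ≤ J) {ω : F.Ω} (hω : A ω) :
    |eval (xr F ω) (G (z' (slam F w ω))) - eval (bt F ω) (G (z' (slam F w ω)))| ≤
      2 ^ e * ((m + 1) * (1 / 2 ^ J)) := by
  have k3 := mvσ (G (z' (slam F w ω))) (bt F ω) (xr F ω) (2 ^ e) fun y hy o =>
    h.lip ω hω y (fun o' => ((hy o').trans (xr_near F ω o')).trans
      (Pool.PB.inv_mono hρ)) o
  have k4 : ∑ o, |xr F ω o - bt F ω o| ≤ (m + 1) * (1 / 2 ^ J) := by
    refine (Finset.sum_le_sum fun o _ => xr_near F ω o).trans (le_of_eq ?_)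
    rw [Finset.sum_const, Finset.card_univ, Fintype.card_option, Fintype.card_fin, nsmul_eq_mul]
    push_cast
    ring
  exact k3.trans (mul_le_mul_of_nonneg_left k4 (by positivity))

theorem num_xr {e P : ℕ} (h : P + e + m + 3 ≤ J) :
    (2 : ℝ) ^ e * ((m + 1) * (1 / 2 ^ J)) ≤ 1 / 4 * (1 / 2 ^ P) := by
  have e2 : (m : ℝ) + 1 ≤ 2 ^ m := by
    have := Nat.lt_two_pow_self (n := m)
    exact_mod_cast this
  have h1 : (2 : ℝ) ^ e * ((m + 1) * (1 / 2 ^ J)) ≤ 2 ^ e * (2 ^ m * (1 / 2 ^ J)) :=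
    mul_le_mul_of_nonneg_left (mul_le_mul_of_nonneg_right e2 (by positivity)) (by positivity)
  refine h1.trans ?_
  rw [← mul_assoc, ← pow_add, mul_one_div, div_le_iff₀ (by positivity)]
  have h2 : (1 : ℝ) / 4 * (1 / 2 ^ P) * 2 ^ J = 2 ^ J / 2 ^ (P + 2) := by
    rw [pow_add]
    field_simp
    norm_num
  rw [h2, le_div_iff₀ (by positivity), ← pow_add]
  exact pow_le_pow_right₀ (by norm_num) (by omega)

/-- **The second derivatives on the natural box from two labels.** -/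
theorem hn_fam (m K : ℕ) (hK : 1 ≤ K) : ∃ C : ℝ, 1 ≤ C ∧ ∀ {J : ℕ} (F : Fam m J)
    (B : F.Ω → Prop) (_ : 0 < Pe F.p B) {c : ℕ → Fin m} (_ : Set.InjOn c (Set.Iio 3)) {k : Fin m}
    {w n₂ n L e nU nD gU gD E₁ E₂ ρ₁ ρ₂ PG P : ℕ} {V : Type} {z : PtT F → V} {z' : LnT F → V}
    {G : V → MvPolynomial (Option (Fin m)) ℝ} {V₀ : Type} {z₀ : PtT F → V₀} {z₀' : LnT F → V₀}
    {G₀ : V₀ → MvPolynomial (Option (Fin m)) ℝ} {au cu bv cv θp : PtT F → ℝ}
    {θs ju jv : LnT F → ℝ} {κ θf θt γ : ℝ} {zu zv : PtT F → (Fin (m + 1) → ℤ) × ℤ}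
    {zu' zv' : LnT F → (Fin (m + 1) → ℤ) × ℤ},
    LbOK F {c 0, c 1, c 2} k K E₁ J w ρ₁ PG B z z' G →
    LbOK F {c 0, c 1, c 2} k 1 E₂ J w ρ₂ P B z₀ z₀' G₀ → ρ₁ ≤ J → ρ₂ ≤ J →
    PG + E₁ + m + 3 ≤ J → P + E₂ + m + 3 ≤ J →
    ND F B (c 0) (c 1) (c 2) w e au cu bv cv θp θs ju jv (1 / 2 ^ nU) (1 / 2 ^ nD) κ →
    LbOK F {c 0} (c 1) 1 (e + 1) J w 0 gU B zu zu' (afz {c 0} w nU) →
    LbOK F {c 0, c 1} (c 2) 1 (e + 1) J w 0 gD B zv zv' (afz {c 0, c 1} w nD) →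
    (∀ ω, B ω → |((zu' (slam F w ω)).1 (c 0).castSucc : ℝ) / 2 ^ nU - au (ptr F J ω)| ≤
      1 / 2 ^ nU) →
    (∀ ω, B ω → |((zv' (slam F w ω)).1 (c 0).castSucc : ℝ) / 2 ^ nD - bv (ptr F J ω)| ≤
      1 / 2 ^ nD ∧ |((zv' (slam F w ω)).1 (c 1).castSucc : ℝ) / 2 ^ nD - θp (ptr F J ω)| ≤
      1 / 2 ^ nD) → w ≤ n₂ → n₂ + L ≤ J → gU + (e + 1) + m + 4 + L ≤ J →
    gD + (e + 1) + m + 4 + L ≤ J → gU ≤ w + nU → gD ≤ w + nD → n₂ + 4 ≤ n + w → e + 6 ≤ n →
    0 ≤ θf → 0 ≤ θt →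
    (L : ℝ) * Real.log 2 - θt ≤
      CH (Pool.Agent.H49.Ent.cond F.p B True) (F.T1 (n₂ + L)) (slam F n₂) →
    (∀ (X : Type) (x : PtT F → X) (x' : LnT F → X),
      (∀ ω, B ω → x (ptr F J ω) = x' (slam F w ω)) →
      ((1 : ℕ) : ℝ) * (((J : ℝ) - n₂) * Real.log 2) - θt ≤
        CH (Pool.Agent.H49.Ent.cond F.p B True) (fun ω (l : Fin 1) => F.X J ω (c l))
          (fun ω => ((fun l : Fin 1 => F.X n₂ ω (c l)), x' (slam F w ω), F.W ω))) →
    (∀ (X : Type) (x : PtT F → X) (x' : LnT F → X),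
      (∀ ω, B ω → x (ptr F J ω) = x' (slam F w ω)) →
      ((J : ℝ) - gU) * Real.log 2 - θf ≤
        CH (Pool.Agent.H49.Ent.cond F.p B True) (fun ω => F.X J ω (c 1))
          (fun ω => ((fun l' : Fin 1 => F.X J ω (c l')), x' (slam F w ω), F.W ω)) ∧
      ((J : ℝ) - gD) * Real.log 2 - θf ≤
        CH (Pool.Agent.H49.Ent.cond F.p B True) (fun ω => F.X J ω (c 2))
          (fun ω => ((fun l' : Fin 2 => F.X J ω (c l')), x' (slam F w ω), F.W ω))) →
    Cm 4 K * (θf + 5) * 1024 ≤ γ → Cm 4 K * (θt + 7) * 1024 ≤ γ → γ ≤ L * Real.log 2 →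
    ∃ B' : F.Ω → Prop, Sub B' B ∧ Pe F.p B ≤ 2 * Pe F.p B' ∧
      HN F B' w (c 0) (c 1) (c 2) au bv θp (1 / 2 ^ nU) (1 / 2 ^ nD) z G
        (C * 2 ^ (n * K) * Real.exp (4 * γ) * (1 / 2 ^ PG + 1 / 2 ^ P)) := by
  classical
  obtain ⟨C₁, hC₁, hhn⟩ := hn_of K
  obtain ⟨C₂, hC₂, hbr⟩ := box_ray K
  refine ⟨2 * (C₁ * C₂), by
    have := one_le_mul_of_one_le_of_one_le hC₁ hC₂
    linarith, ?_⟩
  intro J F B hB c hc k w n₂ n L e nU nD gU gD E₁ E₂ ρ₁ ρ₂ PG P V z z' G V₀ z₀ z₀' G₀ au cu bv cv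
    θp θs ju jv κ θf θt γ zu zv zu' zv' hG hG₀ hρ₁ hρ₂ nG nG₀ hnd hu hv cu0 cv0 hw2 hL hLU hLD hgU
    hgD hn hne hθf hθt htime hbase hfull hγf hγt hγL
  have h01 : c 0 ≠ c 1 := fun h => by
    have := hc (show (0 : ℕ) < 3 by norm_num) (show (1 : ℕ) < 3 by norm_num) h
    omega
  have h02 : c 0 ≠ c 2 := fun h => by
    have := hc (show (0 : ℕ) < 3 by norm_num) (show (2 : ℕ) < 3 by norm_num) h
    omega
  have h12 : c 1 ≠ c 2 := fun h => by
    have := hc (show (1 : ℕ) < 3 by norm_num) (show (2 : ℕ) < 3 by norm_num) h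
    omega
  have im1 : (range 1).image c = {c 0} := by
    ext x
    simp
  have im2 : (range 2).image c = {c 0, c 1} := by
    ext x
    simp only [Finset.mem_image, Finset.mem_range, Finset.mem_insert, Finset.mem_singleton]
    constructor
    · rintro ⟨a, ha, rfl⟩
      interval_cases a
      · exact Or.inl rfl
      · exact Or.inr rfl
    · rintro (rfl | rfl)
      · exact ⟨0, by norm_num, rfl⟩
      · exact ⟨1, by norm_num, rfl⟩
  have hwJ : w ≤ J := by omega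
  have hq := isLaw_cond F.isLaw hB
  have hqB : ∀ ω, 0 < Pool.Agent.H49.Ent.cond F.p B True ω → B ω := fun ω hω =>
    Pool.LA91.of_cond_pos hω
  -- the tuple
  obtain ⟨y, hy⟩ : ∃ y : PtT F → (((Fin (m + 1) → ℤ) × ℤ) × ((Fin (m + 1) → ℤ) × ℤ)) × (V × V₀),
    y = fun a => ((zu a, zv a), (z a, z₀ a)) := ⟨_, rfl⟩
  obtain ⟨y', hy'⟩ : ∃ y' : LnT F → (((Fin (m + 1) → ℤ) × ℤ) × ((Fin (m + 1) → ℤ) × ℤ)) ×
    (V × V₀), y' = fun a => ((zu' a, zv' a), (z' a, z₀' a)) := ⟨_, rfl⟩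
  have hycl : ∀ ω, B ω → y (ptr F J ω) = y' (slam F w ω) := by
    intro ω hω
    rw [hy, hy']
    show ((zu (ptr F J ω), zv (ptr F J ω)), (z (ptr F J ω), z₀ (ptr F J ω))) = _
    rw [hu.cls ω hω, hv.cls ω hω, hG.cls ω hω, hG₀.cls ω hω]
  obtain ⟨GG, hGG⟩ : ∃ GG : (((Fin (m + 1) → ℤ) × ℤ) × ((Fin (m + 1) → ℤ) × ℤ)) × (V × V₀) →
      ℕ → MvPolynomial (Option (Fin m)) ℝ, GG = fun x i =>
      if i = 1 then afz {c 0} w nU x.1.1 else afz {c 0, c 1} w nD x.1.2 := ⟨_, rfl⟩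
  obtain ⟨D, hD⟩ : ∃ D : (((Fin (m + 1) → ℤ) × ℤ) × ((Fin (m + 1) → ℤ) × ℤ)) × (V × V₀) →
      MvPolynomial (Option (Fin m)) ℝ, D = fun x => G x.2.1 - G₀ x.2.2 := ⟨_, rfl⟩
  have hg1 : ∀ x, GG x 1 = afz {c 0} w nU x.1.1 := fun x => by
    rw [hGG]
    exact if_pos rfl
  have hg2 : ∀ x, GG x 2 = afz {c 0, c 1} w nD x.1.2 := fun x => by
    rw [hGG]
    exact if_neg (by norm_num)
  have hDe : ∀ a, D (y' a) = G (z' a) - G₀ (z₀' a) := fun a => by rw [hD, hy']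
  obtain ⟨τ, hτ⟩ : ∃ τ : ℝ, τ = 2 * (1 / 2 ^ PG + 1 / 2 ^ P) := ⟨_, rfl⟩
  have hτ0 : 0 < τ := by rw [hτ]; positivity
  have hγ0 : 0 ≤ γ := le_trans (by
    have := one_le_Cm 4 K
    positivity) hγf
  have h8 : (8 : ℝ) ^ 3 / (1 / 2) = 1024 := by norm_num
  have h3r : ((3 : ℕ) : ℝ) = 3 := by norm_num
  have key := Pool.LA91.nbx_fam (r₀ := 1) (r := 3) (by norm_num) (F := F) (A := B) hq hqB
    (c := c) hc (K := fun _ => 1) (e := fun _ => e + 1) (ρ := fun _ => 0)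
    (g := fun i => if i = 1 then gU else gD) (M := fun _ => K) (w := w) (u := n₂) (L := L)
    (KD := K) (Mt := K) (z := y) (z' := y') (G := GG) (D := D)
    (fun i hi hi' => by
      have h1 : i = 1 ∨ i = 2 := by omega
      rcases h1 with rfl | rfl
      · rw [im1, if_pos rfl]
        refine ⟨fun v => by rw [hg1]; exact hu.deg _, fun v => by rw [hg1]; exact hu.dep _, hycl,
          fun ω hω => ?_, fun ω hω => ?_, fun ω hω => ?_⟩
        · rw [hg1, hy']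
          exact hu.pos ω hω
        · rw [hg1, hy']
          exact hu.vel ω hω
        · rw [hg1, hy']
          exact hu.lip ω hω
      · rw [im2, if_neg (by norm_num)]
        refine ⟨fun v => by rw [hg2]; exact hv.deg _, fun v => by rw [hg2]; exact hv.dep _, hycl,
          fun ω hω => ?_, fun ω hω => ?_, fun ω hω => ?_⟩
        · rw [hg2, hy']
          exact hv.pos ω hω
        · rw [hg2, hy']
          exact hv.vel ω hω
        · rw [hg2, hy']
          exact hv.lip ω hω)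
    (fun _ _ _ => Nat.zero_le _) (fun v => by
      rw [hD]
      exact (totalDegree_sub _ _).trans (max_le (hG.deg _) ((hG₀.deg _).trans hK)))
    (fun v b₁ b₂ hb hbb => by
      rw [hD]
      have e1 : ∀ i ∈ ({c 0, c 1, c 2} : Finset (Fin m)), b₁ (some i) = b₂ (some i) := by
        intro i hi
        simp only [Finset.mem_insert, Finset.mem_singleton] at hi
        rcases hi with rfl | rfl | rfl
        · exact hbb 0 (by norm_num)
        · exact hbb 1 (by norm_num)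
        · exact hbb 2 (by norm_num)
      show eval b₁ (G v.2.1 - G₀ v.2.2) = eval b₂ (G v.2.1 - G₀ v.2.2)
      rw [map_sub, map_sub, hG.dep _ b₁ b₂ hb e1, hG₀.dep _ b₁ b₂ hb e1])
    hw2 hL (fun i hi hi' => by
      show (if i = 1 then gU else gD) + (e + 1) + m + 2 + L ≤ J
      split_ifs <;> omega)
    (fun _ _ _ _ _ => hK) (fun _ => le_rfl) (fun _ _ _ => hK) le_rfl
    (θ := fun _ => θf) (fun _ => hθf) (θt := θt) (θb := θt) hθt hθt htime
    (hbase _ y y' hycl) (fun i hi hi' => by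
      have h1 : i = 1 ∨ i = 2 := by omega
      rcases h1 with rfl | rfl
      · exact (hfull _ y y' hycl).1
      · exact (hfull _ y y' hycl).2)
    (τ := τ) (η := 1 / 2) (γ := γ) (by norm_num) (by norm_num) hτ0 (fun _ _ _ => by
      rw [h8]
      exact hγf) (by
      rw [h8, h3r]
      refine le_trans (le_of_eq ?_) hγt
      ring) (by
      rw [h8, h3r]
      refine le_trans (le_of_eq ?_) hγt
      ring) hγL (fun ω hω => by
      rw [hDe, map_sub]
      have k1 := xr_val hG hρ₁ hω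
      have k2 := xr_val hG₀ hρ₂ hω
      have k3 := hG.pos ω hω
      have k4 := hG₀.pos ω hω
      have k5 := num_xr (m := m) (J := J) (e := E₁) (P := PG) nG
      have k6 := num_xr (m := m) (J := J) (e := E₂) (P := P) nG₀
      have p1 : (0 : ℝ) < 1 / 2 ^ PG := by positivity
      have p2 : (0 : ℝ) < 1 / 2 ^ P := by positivity
      have k7 := k1.trans k5
      have k8 := k2.trans k6
      rw [hτ]
      rw [abs_le] at k3 k4 k7 k8 ⊢
      constructor <;> linarith [k3.1, k3.2, k4.1, k4.2, k7.1, k7.2, k8.1, k8.2])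
  -- the event
  obtain ⟨B', hB'⟩ : ∃ B' : F.Ω → Prop, B' = fun ω => B ω ∧ ∀ x : Option (Fin m) → ℝ,
      |x none - F.t ω| ≤ 1 / 2 ^ n₂ →
      (∀ l < 1, |x (some (c l)) - xr F ω (some (c l))| ≤ 1 / 2 ^ n₂) →
      (∀ i, 1 ≤ i → i < 3 → |x (some (c i)) - eval x (GG (y' (slam F w ω)) i)| ≤
        2 / 2 ^ (if i = 1 then gU else gD)) →
      |eval x (D (y' (slam F w ω)))| ≤ Real.exp (4 * γ) * τ := ⟨_, rfl⟩
  have hB'B : Sub B' B := fun ω hω => by
    rw [hB'] at hω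
    exact hω.1
  refine ⟨B', hB'B, ?_, ?_⟩
  · rw [Pool.LA91.Pb_cond hB, div_le_iff₀ hB] at key
    have h1 := pe_or F.isLaw (A := B) (B₀ := B') (B₁ := fun ω => B ω ∧
      ¬ ∀ x : Option (Fin m) → ℝ, |x none - F.t ω| ≤ 1 / 2 ^ n₂ →
      (∀ l < 1, |x (some (c l)) - xr F ω (some (c l))| ≤ 1 / 2 ^ n₂) →
      (∀ i, 1 ≤ i → i < 3 → |x (some (c i)) - eval x (GG (y' (slam F w ω)) i)| ≤
        2 / 2 ^ (if i = 1 then gU else gD)) →
      |eval x (D (y' (slam F w ω)))| ≤ Real.exp ((((3 : ℕ) : ℝ) + 1) * γ) * τ) (fun ω hω => by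
        by_cases h2 : B' ω
        · exact Or.inl h2
        · refine Or.inr ⟨hω, fun h3 => h2 ?_⟩
          rw [hB']
          refine ⟨hω, fun x a1 a2 a3 => (h3 x a1 a2 a3).trans (le_of_eq ?_)⟩
          norm_num)
    linarith
  · intro ω hω x hx i
    have hωB := hB'B ω hω
    rw [hB'] at hω
    obtain ⟨-, hω⟩ := hω
    have pU : (0 : ℝ) < 1 / 2 ^ nU := by positivity
    have pD : (0 : ℝ) < 1 / 2 ^ nD := by positivity
    rw [hG.cls ω hωB]
    have hchu : afz {c 0} w nU (zu' (slam F w ω)) = afI {c 0}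
      (((zu' (slam F w ω)).2 : ℝ) / 2 ^ (w + nU))
      (((zu' (slam F w ω)).1 (Fin.last m) : ℝ) / 2 ^ nU)
      (fun k => ((zu' (slam F w ω)).1 k.castSucc : ℝ) / 2 ^ nU) := rfl
    have hchv : afz {c 0, c 1} w nD (zv' (slam F w ω)) = afI {c 0, c 1}
      (((zv' (slam F w ω)).2 : ℝ) / 2 ^ (w + nD))
      (((zv' (slam F w ω)).1 (Fin.last m) : ℝ) / 2 ^ nD)
      (fun k => ((zv' (slam F w ω)).1 k.castSucc : ℝ) / 2 ^ nD) := rfl
    have pe : (1 : ℝ) ≤ 2 ^ e := one_le_pow₀ (by norm_num)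
    have hgUp : (1 : ℝ) / 2 ^ w * (1 / 2 ^ nU) ≤ 1 / 2 ^ gU := by
      have h1 : (1 : ℝ) / 2 ^ w * (1 / 2 ^ nU) = 1 / 2 ^ (w + nU) := by
        rw [pow_add]
        field_simp
      rw [h1]
      exact Pool.PB.inv_mono hgU
    have hgDp : (1 : ℝ) / 2 ^ w * (1 / 2 ^ nD) ≤ 1 / 2 ^ gD := by
      have h1 : (1 : ℝ) / 2 ^ w * (1 / 2 ^ nD) = 1 / 2 ^ (w + nD) := by
        rw [pow_add]
        field_simp
      rw [h1]
      exact Pool.PB.inv_mono hgD
    have hn5 : (2 : ℝ) ^ e * 32 ≤ 2 ^ n / 2 := by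
      rw [le_div_iff₀ (by norm_num)]
      calc (2 : ℝ) ^ e * 32 * 2 = 2 ^ (e + 6) := by rw [pow_add]; ring
        _ ≤ 2 ^ n := pow_le_pow_right₀ (by norm_num) hne
    have le1 : ∀ a : ℕ, (1 : ℝ) / 2 ^ a ≤ 1 := fun a => by
      rw [div_le_one (by positivity)]
      exact one_le_pow₀ (by norm_num)
    obtain ⟨δU, hδU⟩ : ∃ δU : ℝ, δU = 1 / 2 ^ gU := ⟨_, rfl⟩
    obtain ⟨δD, hδD⟩ : ∃ δD : ℝ, δD = 1 / 2 ^ gD := ⟨_, rfl⟩
    have pδU : 0 < δU := by rw [hδU]; positivity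
    have pδD : 0 < δD := by rw [hδD]; positivity
    have hdg : (G (z' (slam F w ω)) - G₀ (z₀' (slam F w ω))).totalDegree ≤ K :=
      (totalDegree_sub _ _).trans (max_le (hG.deg _) ((hG₀.deg _).trans hK))
    have hxr : ∀ {I : Finset (Fin m)} {j : Fin m} {g : ℕ} {zz : PtT F → (Fin (m + 1) → ℤ) × ℤ}
        {zz' : LnT F → (Fin (m + 1) → ℤ) × ℤ} {M : ℕ},
        LbOK F I j 1 (e + 1) J w 0 g B zz zz' (afz I w M) → g + (e + 1) + m + 4 + L ≤ J →
        |xr F ω (some j) - eval (xr F ω) (afz I w M (zz' (slam F w ω)))| ≤ 3 / 2 / 2 ^ g := by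
      intro I j g zz zz' M hlab hg
      have k1 := hlab.pos ω hωB
      have k2 := xr_near F ω (some j)
      have k3 := (xr_val hlab (Nat.zero_le _) hωB).trans
        (num_xr (m := m) (J := J) (e := e + 1) (P := g) (by omega))
      have k4 : (1 : ℝ) / 2 ^ J ≤ 1 / 4 * (1 / 2 ^ g) := by
        have h1 : (1 : ℝ) / 4 * (1 / 2 ^ g) = 1 / 2 ^ (g + 2) := by
          rw [pow_add]
          field_simp
          norm_num
        rw [h1]
        exact Pool.PB.inv_mono (by omega)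
      have e1 : (3 : ℝ) / 2 / 2 ^ g = 3 / 2 * (1 / 2 ^ g) := by ring
      have e2 : bt F ω (some j) = F.x ω j := rfl
      rw [e2] at k2
      rw [e1]
      have p1 : (0 : ℝ) < 1 / 2 ^ g := by positivity
      rw [abs_le] at k1 k2 k3 ⊢
      constructor <;> linarith [k1.1, k1.2, k2.1, k2.2, k3.1, k3.2]
    have hpu := hxr hu hLU
    have hpv := hxr hv hLD
    rw [hchu] at hpu
    rw [hchv] at hpv
    have vu := hu.vel ω hωB
    have vv := hv.vel ω hωB
    have pu := hu.pos ω hωB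
    have pv := hv.pos ω hωB
    rw [hchu, sum_afI, Finset.sum_singleton] at vu
    rw [hchv, sum_afI, Finset.sum_pair h01] at vv
    rw [hchu] at pu
    rw [hchv] at pv
    have hau := (hnd.hbu ω hωB).1
    have h1 : ∀ q, NBR F w (c 0) (c 1) (c 2) (au (ptr F J ω)) (bv (ptr F J ω)) (θp (ptr F J ω))
        (1 / 2 ^ nU) (1 / 2 ^ nD) 5 ω q → |eval q (G (z' (slam F w ω)) - G₀ (z₀' (slam F w ω)))| ≤
          C₂ * 2 ^ (n * K) * (Real.exp (4 * γ) * τ) := by
      refine hbr F (n₂ := n₂) (gU := gU) (gD := gD) hwJ hdg hpu hpv (fun q hq => ?_)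
        (fun q hq => ?_) hn (fun x a1 a2 a3 a4 => ?_)
      · have k1 := cht_u (R := 5) (by norm_num) pu (by
          refine vu.trans (le_of_eq ?_)
          ring) (cu0 ω hωB) hq.tm hq.ny hq.nu
        refine k1.trans ?_
        have e1 : (1 : ℝ) / 2 ^ gU + 5 * (1 / 2 ^ gU) + 5 / 2 ^ w * (1 / 2 ^ nU) +
            1 / 2 ^ nU * (5 / 2 ^ w) = 6 * δU + 10 * (1 / 2 ^ w * (1 / 2 ^ nU)) := by
          rw [hδU]
          ring
        have e2 : (2 : ℝ) ^ n / 2 / 2 ^ gU = 2 ^ n / 2 * δU := by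
          rw [hδU]
          ring
        rw [e1, e2]
        have k2 : (2 : ℝ) ^ e * 32 * δU ≤ 2 ^ n / 2 * δU := mul_le_mul_of_nonneg_right hn5 pδU.le
        have k3 : 1 * (32 * δU) ≤ 2 ^ e * (32 * δU) :=
          mul_le_mul_of_nonneg_right pe (by positivity)
        rw [← hδU] at hgUp
        linarith
      · have k1 := cht_v h01 (R := 5) (by norm_num) pv (by
          refine vv.trans (le_of_eq ?_)
          ring) (cv0 ω hωB).1 (cv0 ω hωB).2 hau hq.tm hq.ny hq.nu hq.nv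
        refine k1.trans ?_
        have e1 : (1 : ℝ) / 2 ^ gD + 5 * (1 / 2 ^ gD) + 5 / 2 ^ w * (1 / 2 ^ nD) +
            1 / 2 ^ nD * (5 / 2 ^ w * (1 / 2 ^ nU) + 2 ^ e * (5 / 2 ^ w)) +
            1 / 2 ^ nD * (5 / 2 ^ w) = 6 * δD + (10 + 5 * (1 / 2 ^ nU) + 5 * 2 ^ e) *
              (1 / 2 ^ w * (1 / 2 ^ nD)) := by
          rw [hδD]
          ring
        have e2 : (2 : ℝ) ^ n / 2 / 2 ^ gD = 2 ^ n / 2 * δD := by
          rw [hδD]
          ring
        rw [e1, e2]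
        rw [← hδD] at hgDp
        have k2 : (2 : ℝ) ^ e * 32 * δD ≤ 2 ^ n / 2 * δD := mul_le_mul_of_nonneg_right hn5 pδD.le
        have k3 : (10 + 5 * (1 / 2 ^ nU) + 5 * 2 ^ e) * (1 / 2 ^ w * (1 / 2 ^ nD)) ≤
            (20 * 2 ^ e) * δD := by
          refine mul_le_mul ?_ hgDp (by positivity) (by positivity)
          have := le1 nU
          linarith
        have k4 : 1 * (6 * δD) ≤ 2 ^ e * (6 * δD) := mul_le_mul_of_nonneg_right pe (by positivity)
        have k5 : 0 < 2 ^ e * δD := by positivity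
        linarith
      · have k1 := hω x a1 (fun l hl => by
          have : l = 0 := by omega
          rw [this]
          exact a2) (fun i hi hi' => by
          have h1 : i = 1 ∨ i = 2 := by omega
          rcases h1 with rfl | rfl
          · rw [hg1, hy', if_pos rfl]
            exact a3
          · rw [hg2, hy', if_neg (by norm_num)]
            exact a4)
        rw [hDe] at k1
        exact k1
    have h2 := hhn F hwJ h01 h02 h12 pU.le pD.le (hG.deg _) (hG₀.deg _) h1 x hx i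
    have e1 : C₁ * (C₂ * 2 ^ (n * K) * (Real.exp (4 * γ) * τ)) = 2 * (C₁ * C₂) * 2 ^ (n * K) *
        Real.exp (4 * γ) * (1 / 2 ^ PG + 1 / 2 ^ P) := by
      rw [hτ]
      ring
    rw [e1] at h2
    exact h2

end Pool.JVE
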