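import Pool.Agent.H62.AFN.Nbr

/-!
# Affine charts and the natural box

`cht_u`, `cht_v`: the points of the natural box are near to the affine charts of `u` over `y` and of
`v` over `y`, `u`. `box_ray`: a polynomial which is small near to the charts, in a finer window, is
small on the natural box.
-/

set_option autoImplicit false

namespace Pool.JVE

open Finset MvPolynomial
open Pool.Agent.H49.Ent Pool.Agent.H32.Dense Pool.STK Pool.KA Pool.KSAT Pool.K2S Pool.PB Pool.GEN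
open Pool.MIC6 (mvp wt wp wpt wp_eq)
open Pool.PB.Trl (rt rt_mem t_rt)
open Pool.GRW (xr xr_near)

variable {m J : ℕ}

theorem sum_afI (F : Fam m J) (ω : F.Ω) (I : Finset (Fin m)) (c b : ℝ) (a : Fin m → ℝ) :
    ∑ o, bd F ω o * eval (bt F ω) (pderiv o (afI I c b a)) = b + ∑ k ∈ I, a k * F.d ω k := by
  classical
  rw [Fintype.sum_option]
  have e2 : bd F ω none = 1 := rfl
  rw [e2, one_mul, pd_none_afI]
  congr 1
  have e3 : ∀ k : Fin m, bd F ω (some k) * eval (bt F ω) (pderiv (some k) (afI I c b a)) =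
      if k ∈ I then a k * F.d ω k else 0 := by
    intro k
    rw [pd_some_afI]
    have e4 : bd F ω (some k) = F.d ω k := rfl
    rw [e4]
    split_ifs
    · ring
    · ring
  rw [Finset.sum_congr rfl fun k _ => e3 k, Finset.sum_ite_mem, Finset.univ_inter]

/-- Affine polynomials on a segment. -/
theorem afI_seg (I : Finset (Fin m)) (c b : ℝ) (a : Fin m → ℝ) (x z : Option (Fin m) → ℝ)
    (r : ℝ) : eval (x + r • (z - x)) (afI I c b a) =
      (1 - r) * eval x (afI I c b a) + r * eval z (afI I c b a) := by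
  rw [eval_afI, eval_afI, eval_afI]
  have h1 : ∑ k ∈ I, a k * (x + r • (z - x)) (some k) =
      (1 - r) * ∑ k ∈ I, a k * x (some k) + r * ∑ k ∈ I, a k * z (some k) := by
    rw [Finset.mul_sum, Finset.mul_sum, ← Finset.sum_add_distrib]
    refine Finset.sum_congr rfl fun k _ => ?_
    simp only [Pi.add_apply, Pi.smul_apply, Pi.sub_apply, smul_eq_mul]
    ring
  rw [h1]
  simp only [Pi.add_apply, Pi.smul_apply, Pi.sub_apply, smul_eq_mul]
  ring

/-- The points of the natural box and the chart of `u`. -/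
theorem cht_u {F : Fam m J} {ω : F.Ω} {w : ℕ} {y u : Fin m} {c b : ℝ} {a : Fin m → ℝ}
    {α δ₁ δ₂ R aU : ℝ} {z : Option (Fin m) → ℝ} (hR : 0 ≤ R)
    (pos : |F.x ω u - eval (bt F ω) (afI {y} c b a)| ≤ δ₁)
    (vel : |F.d ω u - (b + a y * F.d ω y)| ≤ 2 ^ w * δ₁) (hc : |a y - α| ≤ δ₂)
    (tm : |z none - F.t ω| ≤ R / 2 ^ w) (ny : |dl F ω z y| ≤ R / 2 ^ w)
    (nu : |dl F ω z u - α * dl F ω z y| ≤ R / 2 ^ w * aU) :
    |z (some u) - eval z (afI {y} c b a)| ≤ δ₁ + R * δ₁ + R / 2 ^ w * aU + δ₂ * (R / 2 ^ w) := by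
  rw [eval_afI, Finset.sum_singleton] at pos ⊢
  have e0 : z (some u) - (c + (b * z none + a y * z (some y))) =
      (F.x ω u - (c + (b * bt F ω none + a y * bt F ω (some y)))) +
      (z none - F.t ω) * (F.d ω u - (b + a y * F.d ω y)) +
      (dl F ω z u - α * dl F ω z y) - (a y - α) * dl F ω z y := by
    have h1 : bt F ω none = F.t ω := rfl
    have h2 : bt F ω (some y) = F.u ω y + F.t ω * F.d ω y := rfl
    have h3 : F.x ω u = F.u ω u + F.t ω * F.d ω u := rfl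
    rw [h1, h2, h3]
    unfold dl
    ring
  rw [e0]
  have h1 : |(z none - F.t ω) * (F.d ω u - (b + a y * F.d ω y))| ≤ R * δ₁ := by
    rw [abs_mul]
    refine (mul_le_mul tm vel (abs_nonneg _) (by positivity)).trans (le_of_eq ?_)
    field_simp
  have h2 : |(a y - α) * dl F ω z y| ≤ δ₂ * (R / 2 ^ w) := by
    rw [abs_mul]
    exact mul_le_mul hc ny (abs_nonneg _) ((abs_nonneg _).trans hc)
  refine (abs_sub _ _).trans (add_le_add ((abs_add_le _ _).trans (add_le_add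
    ((abs_add_le _ _).trans (add_le_add pos h1)) nu)) h2)

/-- The points of the natural box and the chart of `v`. -/
theorem cht_v {F : Fam m J} {ω : F.Ω} {w : ℕ} {y u v : Fin m} (hyu : y ≠ u) {c b : ℝ}
    {a : Fin m → ℝ} {α β t δ₁ δ₂ R aU aD T : ℝ} {z : Option (Fin m) → ℝ}
    (hR : 0 ≤ R) (pos : |F.x ω v - eval (bt F ω) (afI {y, u} c b a)| ≤ δ₁)
    (vel : |F.d ω v - (b + (a y * F.d ω y + a u * F.d ω u))| ≤ 2 ^ w * δ₁)
    (hcy : |a y - β| ≤ δ₂) (hcu : |a u - t| ≤ δ₂) (hα : |α| ≤ T)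
    (tm : |z none - F.t ω| ≤ R / 2 ^ w) (ny : |dl F ω z y| ≤ R / 2 ^ w)
    (nu : |dl F ω z u - α * dl F ω z y| ≤ R / 2 ^ w * aU)
    (nv : |dl F ω z v - t * dl F ω z u - β * dl F ω z y| ≤ R / 2 ^ w * aD) :
    |z (some v) - eval z (afI {y, u} c b a)| ≤ δ₁ + R * δ₁ + R / 2 ^ w * aD +
      δ₂ * (R / 2 ^ w * aU + T * (R / 2 ^ w)) + δ₂ * (R / 2 ^ w) := by
  rw [eval_afI, Finset.sum_pair hyu] at pos ⊢
  have e0 : z (some v) - (c + (b * z none + (a y * z (some y) + a u * z (some u)))) =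
      (F.x ω v - (c + (b * bt F ω none + (a y * bt F ω (some y) + a u * bt F ω (some u))))) +
      (z none - F.t ω) * (F.d ω v - (b + (a y * F.d ω y + a u * F.d ω u))) +
      (dl F ω z v - t * dl F ω z u - β * dl F ω z y) - (a u - t) * dl F ω z u -
      (a y - β) * dl F ω z y := by
    have h1 : bt F ω none = F.t ω := rfl
    have h2 : bt F ω (some y) = F.u ω y + F.t ω * F.d ω y := rfl
    have h4 : bt F ω (some u) = F.u ω u + F.t ω * F.d ω u := rfl
    have h3 : F.x ω v = F.u ω v + F.t ω * F.d ω v := rfl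
    rw [h1, h2, h3, h4]
    unfold dl
    ring
  rw [e0]
  have h1 : |(z none - F.t ω) * (F.d ω v - (b + (a y * F.d ω y + a u * F.d ω u)))| ≤
      R * δ₁ := by
    rw [abs_mul]
    refine (mul_le_mul tm vel (abs_nonneg _) (by positivity)).trans (le_of_eq ?_)
    field_simp
  have h2 : |(a y - β) * dl F ω z y| ≤ δ₂ * (R / 2 ^ w) := by
    rw [abs_mul]
    exact mul_le_mul hcy ny (abs_nonneg _) ((abs_nonneg _).trans hcy)
  have h3 : |dl F ω z u| ≤ R / 2 ^ w * aU + T * (R / 2 ^ w) := by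
    have e1 : dl F ω z u = (dl F ω z u - α * dl F ω z y) + α * dl F ω z y := by ring
    rw [e1]
    refine (abs_add_le _ _).trans (add_le_add nu ?_)
    rw [abs_mul]
    exact mul_le_mul hα ny (abs_nonneg _) ((abs_nonneg _).trans hα)
  have h4 : |(a u - t) * dl F ω z u| ≤ δ₂ * (R / 2 ^ w * aU + T * (R / 2 ^ w)) := by
    rw [abs_mul]
    exact mul_le_mul hcu h3 (abs_nonneg _) ((abs_nonneg _).trans hcu)
  refine (abs_sub _ _).trans (add_le_add ((abs_sub _ _).trans (add_le_add ((abs_add_le _ _).trans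
    (add_le_add ((abs_add_le _ _).trans (add_le_add pos h1)) nv)) h4)) h2)

/-- **From the charts in a finer window to the natural box.** -/
theorem box_ray (K : ℕ) : ∃ C : ℝ, 1 ≤ C ∧ ∀ {m J : ℕ} (F : Fam m J) {w n₂ n gU gD : ℕ}
    {y u v : Fin m} {a b t aU aD : ℝ} {ω : F.Ω} {Iu Iv : Finset (Fin m)} {cu bu cv bv : ℝ}
    {αu αv : Fin m → ℝ} {D : MvPolynomial (Option (Fin m)) ℝ} {S : ℝ}, w ≤ J →
    D.totalDegree ≤ K →
    |xr F ω (some u) - eval (xr F ω) (afI Iu cu bu αu)| ≤ 3 / 2 / 2 ^ gU →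
    |xr F ω (some v) - eval (xr F ω) (afI Iv cv bv αv)| ≤ 3 / 2 / 2 ^ gD →
    (∀ z, NBR F w y u v a b t aU aD 5 ω z →
      |z (some u) - eval z (afI Iu cu bu αu)| ≤ 2 ^ n / 2 / 2 ^ gU) →
    (∀ z, NBR F w y u v a b t aU aD 5 ω z →
      |z (some v) - eval z (afI Iv cv bv αv)| ≤ 2 ^ n / 2 / 2 ^ gD) → n₂ + 4 ≤ n + w →
    (∀ x : Option (Fin m) → ℝ, |x none - F.t ω| ≤ 1 / 2 ^ n₂ →
      |x (some y) - xr F ω (some y)| ≤ 1 / 2 ^ n₂ →
      |x (some u) - eval x (afI Iu cu bu αu)| ≤ 2 / 2 ^ gU →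
      |x (some v) - eval x (afI Iv cv bv αv)| ≤ 2 / 2 ^ gD → |eval x D| ≤ S) →
    ∀ z, NBR F w y u v a b t aU aD 5 ω z → |eval z D| ≤ C * 2 ^ (n * K) * S := by
  obtain ⟨C, hC, hray⟩ := ray_gr K
  refine ⟨C, hC, ?_⟩
  intro m J F w n₂ n gU gD y u v a b t aU aD ω Iu Iv cu bu cv bv αu αv D S hw hD pU pD bU bD hn
    hbox z hz
  have pw : (0 : ℝ) < 2 ^ w := by positivity
  have pn : (0 : ℝ) < 2 ^ n := by positivity
  have hJw : (1 : ℝ) / 2 ^ J ≤ 1 / 2 ^ w := inv_mono hw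
  have hfin : (11 : ℝ) / 2 ^ w / 2 ^ n ≤ 1 / 2 ^ n₂ := by
    rw [div_div, ← pow_add, div_le_div_iff₀ (by positivity) (by positivity), one_mul]
    calc (11 : ℝ) * 2 ^ n₂ ≤ 2 ^ 4 * 2 ^ n₂ :=
          mul_le_mul_of_nonneg_right (by norm_num) (by positivity)
      _ = 2 ^ (n₂ + 4) := by rw [pow_add]; ring
      _ ≤ 2 ^ (w + n) := pow_le_pow_right₀ (by norm_num) (by omega)
  refine hray D (xr F ω) z S n hD fun s hs => ?_
  have hr0 : 0 ≤ s / 2 ^ n := div_nonneg hs.1 pn.le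
  have hr1 : s / 2 ^ n ≤ 1 / 2 ^ n := div_le_div_of_nonneg_right hs.2 pn.le
  have hr2 : s / 2 ^ n ≤ 1 := hr1.trans (by
    rw [div_le_one pn]
    exact one_le_pow₀ (by norm_num))
  obtain ⟨r, hr⟩ : ∃ r, r = s / 2 ^ n := ⟨_, rfl⟩
  rw [← hr] at hr0 hr1 hr2 ⊢
  have hx : ∀ o, (xr F ω + r • (z - xr F ω)) o = xr F ω o + r * (z o - xr F ω o) := by
    intro o
    simp only [Pi.add_apply, Pi.smul_apply, Pi.sub_apply, smul_eq_mul]
  have hsm : ∀ q : ℝ, |q| ≤ 11 / 2 ^ w → |r * q| ≤ 1 / 2 ^ n₂ := by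
    intro q hq
    rw [abs_mul, abs_of_nonneg hr0]
    refine (mul_le_mul hr1 hq (abs_nonneg _) (by positivity)).trans (le_trans (le_of_eq ?_) hfin)
    field_simp
  have hch : ∀ (I : Finset (Fin m)) (c b' : ℝ) (α : Fin m → ℝ) (j : Fin m) (g : ℕ),
      |xr F ω (some j) - eval (xr F ω) (afI I c b' α)| ≤ 3 / 2 / 2 ^ g →
      |z (some j) - eval z (afI I c b' α)| ≤ 2 ^ n / 2 / 2 ^ g →
      |(xr F ω + r • (z - xr F ω)) (some j) -
        eval (xr F ω + r • (z - xr F ω)) (afI I c b' α)| ≤ 2 / 2 ^ g := by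
    intro I c b' α j g h1 h2
    rw [afI_seg, hx]
    have e1 : xr F ω (some j) + r * (z (some j) - xr F ω (some j)) -
        ((1 - r) * eval (xr F ω) (afI I c b' α) + r * eval z (afI I c b' α)) =
        (1 - r) * (xr F ω (some j) - eval (xr F ω) (afI I c b' α)) +
        r * (z (some j) - eval z (afI I c b' α)) := by ring
    rw [e1]
    have h3 : |(1 - r) * (xr F ω (some j) - eval (xr F ω) (afI I c b' α))| ≤
        3 / 2 / 2 ^ g := by
      rw [abs_mul, abs_of_nonneg (by linarith)]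
      exact (mul_le_of_le_one_left (abs_nonneg _) (by linarith)).trans h1
    have h4 : |r * (z (some j) - eval z (afI I c b' α))| ≤ 1 / 2 / 2 ^ g := by
      rw [abs_mul, abs_of_nonneg hr0]
      refine (mul_le_mul hr1 h2 (abs_nonneg _) (by positivity)).trans (le_of_eq ?_)
      field_simp
    refine (abs_add_le _ _).trans ((add_le_add h3 h4).trans (le_of_eq ?_))
    ring
  have h5 : (5 : ℝ) / 2 ^ w ≤ 11 / 2 ^ w := div_le_div_of_nonneg_right (by norm_num) pw.le
  refine hbox _ ?_ ?_ (hch Iu cu bu αu u gU pU (bU z hz)) (hch Iv cv bv αv v gD pD (bD z hz))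
  · rw [hx]
    have e1 : xr F ω none = F.t ω := rfl
    rw [e1, add_sub_cancel_left]
    exact hsm _ (hz.tm.trans h5)
  · rw [hx, add_sub_cancel_left]
    refine hsm _ ?_
    have h6 := xr_near F ω (some y)
    have e1 : z (some y) - xr F ω (some y) = dl F ω z y + F.d ω y * (z none - F.t ω) -
        (xr F ω (some y) - bt F ω (some y)) := by
      have h2 : bt F ω (some y) = F.u ω y + F.t ω * F.d ω y := rfl
      rw [h2]
      unfold dl
      ring
    have h7 : |F.d ω y * (z none - F.t ω)| ≤ 5 / 2 ^ w := by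
      rw [abs_mul]
      exact (mul_le_of_le_one_left (abs_nonneg _) (F.dir ω y)).trans hz.tm
    rw [e1]
    refine (abs_sub _ _).trans ((add_le_add ((abs_add_le _ _).trans (add_le_add hz.ny h7))
      (h6.trans hJw)).trans (le_of_eq ?_))
    ring

end Pool.JVE
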