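import Pool.Agent.H62.AFN.Dn3
import Pool.Agent.H62.OWN.Afw

/-!
# An affine label over three coordinates, in natural units

`cls3_nb`: an affine label from closed derivatives in natural units. `cls3_nat`: where the mixed
second derivatives at the exact points are small there is an affine closed label; nothing is assumed
about the velocity of `k`.
-/

set_option autoImplicit false

namespace Pool.JVE

open Finset MvPolynomial
open Pool.Agent.H49.Ent Pool.Agent.H32.Dense Pool.STK Pool.KA Pool.KSAT Pool.K2S Pool.PB Pool.GEN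
open Pool.MIC6 (dpt dpt_near mvp wt wp wpt wp_eq)
open Pool.FLF (Fam.sub)
open Pool.PB.Trl (rt rt_mem t_rt)
open Pool.D2R (hs dd hs_smul_right)

variable {m J : ℕ}

/-- **An affine label over three coordinates** from closed derivatives in natural units. -/
theorem cls3_nb {F : Fam m J} {B : F.Ω → Prop} {y u v k : Fin m} (hyu : y ≠ u) (hyv : y ≠ v)
    (huv : u ≠ v) {W e M' P : ℕ} {au cu bv cv gt gy gu gv θp : PtT F → ℝ}
    {hu hv hy ju jv θs : LnT F → ℝ} {aU aD κ ru rv E₁ E₂ : ℝ}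
    (hnd : ND F B y u v W e au cu bv cv θp θs ju jv aU aD κ) (hκ1 : κ ≤ 1)
    (hk : ∀ ω, B ω → |gt (ptr F J ω)| ≤ 2 ^ e ∧ |gy (ptr F J ω)| ≤ 2 ^ e ∧
      |F.d ω k - gt (ptr F J ω) - gy (ptr F J ω) * F.d ω y - gu (ptr F J ω) * F.d ω u -
        gv (ptr F J ω) * (F.d ω v - θp (ptr F J ω) * F.d ω u)| ≤ E₂)
    (hgu : ∀ ω, B ω → |gu (ptr F J ω)| ≤ 2 ^ (2 * e + 1))
    (hgv : ∀ ω, B ω → |gv (ptr F J ω)| ≤ 2 ^ e)
    (du : ∀ ω, B ω → |gu (ptr F J ω) - hu (slam F W ω)| ≤ ru)
    (dv : ∀ ω, B ω → |gv (ptr F J ω) - hv (slam F W ω)| ≤ rv)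
    (rel : ∀ ω, B ω → |hy (slam F W ω) + hu (slam F W ω) * au (ptr F J ω) +
      hv (slam F W ω) * bv (ptr F J ω) - (gy (ptr F J ω) + gu (ptr F J ω) * au (ptr F J ω) +
        gv (ptr F J ω) * bv (ptr F J ω))| ≤ E₁) (hru : 0 < ru) (hrv : 0 < rv)
    (num : 3 * ru * aU + 3 * rv * aD + E₁ ≤ 1 / 2 ^ M')
    (num' : 2 * ru * aU + 2 * rv * aD + E₂ ≤ 1 / 2 ^ M') (hW : W ≤ J)
    (h4 : W + M' + (3 * e + 4) + m + 3 ≤ J) (h5 : P + m + 3 ≤ W + M') :
    ∃ B' : F.Ω → Prop, Sub B' B ∧ Pe F.p B ≤ 9 * cI m * Pe F.p B' ∧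
      ∀ ρ : ℕ, Lb F {y, u, v} k 1 (3 * e + 5) J W ρ P B' := by
  classical
  have pe : (1 : ℝ) ≤ 2 ^ e := one_le_pow₀ (by norm_num)
  -- the closed derivatives
  obtain ⟨B₁, b1, b2, bp, bs, b3⟩ := code_fam (F := F) (A := B) (W := W) gu
    (r := 2 * ru) (Bd := 2 ^ (2 * e + 1)) (by linarith) hgu (fun ω ω' hω hω' hh => by
      have k1 := du ω hω
      have k2 := du ω' hω'
      rw [hh] at k1
      rw [abs_le] at k1 k2 ⊢
      constructor <;> linarith [k1.1, k1.2, k2.1, k2.2])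
  obtain ⟨B₂, c1, c2, cp, cs, c3⟩ := code_fam (F := F) (A := B₁) (W := W) gv
    (r := 2 * rv) (Bd := 2 ^ e) (by linarith) (fun ω hω => hgv ω (b1 ω hω))
    (fun ω ω' hω hω' hh => by
      have k1 := dv ω (b1 ω hω)
      have k2 := dv ω' (b1 ω' hω')
      rw [hh] at k1
      rw [abs_le] at k1 k2 ⊢
      constructor <;> linarith [k1.1, k1.2, k2.1, k2.2])
  have hB₂ : Sub B₂ B := fun ω hω => b1 ω (c1 ω hω)
  obtain ⟨xp, hxp⟩ : ∃ xp : PtT F → ℝ, xp = fun p => bp p - θp p * cp p := ⟨_, rfl⟩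
  obtain ⟨xs, hxs⟩ : ∃ xs : LnT F → ℝ, xs = fun s => bs s - θs s * cs s := ⟨_, rfl⟩
  have hx : ∀ ω, B₂ ω → xp (ptr F J ω) = xs (slam F W ω) := by
    intro ω hω
    rw [hxp, hxs]
    show bp (ptr F J ω) - θp (ptr F J ω) * cp (ptr F J ω) =
      bs (slam F W ω) - θs (slam F W ω) * cs (slam F W ω)
    rw [(b3 ω (c1 ω hω)).1, (c3 ω hω).1, hnd.thc ω (hB₂ ω hω)]
  obtain ⟨a, ha⟩ : ∃ a : PtT F → Fin m → ℝ, a = fun p j =>
    if j = y then gy p + (gu p - bp p) * au p + (gv p - cp p) * bv p else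
      if j = u then xp p else cp p := ⟨_, rfl⟩
  obtain ⟨th, hth⟩ : ∃ th : LnT F → Fin m → ℝ, th = fun s j =>
    if j = y then hy s + (hu s - bs s) * ju s + (hv s - cs s) * jv s else
      if j = u then xs s else cs s := ⟨_, rfl⟩
  obtain ⟨c, hc⟩ : ∃ c : PtT F → ℝ, c = fun p =>
    gt p + (gu p - bp p) * cu p + (gv p - cp p) * cv p := ⟨_, rfl⟩
  have hay : ∀ p, a p y = gy p + (gu p - bp p) * au p + (gv p - cp p) * bv p := fun p => by
    rw [ha]
    exact if_pos rfl
  have hau : ∀ p, a p u = xp p := fun p => by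
    rw [ha]
    show (if u = y then _ else if u = u then xp p else cp p) = _
    rw [if_neg (Ne.symm hyu), if_pos rfl]
  have hav : ∀ p, a p v = cp p := fun p => by
    rw [ha]
    show (if v = y then _ else if v = u then xp p else cp p) = _
    rw [if_neg (Ne.symm hyv), if_neg (Ne.symm huv)]
  have hty : ∀ s, th s y = hy s + (hu s - bs s) * ju s + (hv s - cs s) * jv s := fun s => by
    rw [hth]
    exact if_pos rfl
  have htu : ∀ s, th s u = xs s := fun s => by
    rw [hth]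
    show (if u = y then _ else if u = u then xs s else cs s) = _
    rw [if_neg (Ne.symm hyu), if_pos rfl]
  have htv : ∀ s, th s v = cs s := fun s => by
    rw [hth]
    show (if v = y then _ else if v = u then xs s else cs s) = _
    rw [if_neg (Ne.symm hyv), if_neg (Ne.symm huv)]
  have hsum : ∀ f : Fin m → ℝ, ∑ j ∈ ({y, u, v} : Finset (Fin m)), f j = f y + (f u + f v) := by
    intro f
    rw [Finset.sum_insert (by
      rw [Finset.mem_insert, Finset.mem_singleton]
      exact fun h => h.elim hyu hyv), Finset.sum_insert (by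
      rw [Finset.mem_singleton]
      exact huv), Finset.sum_singleton]
  -- the sizes
  have e2 : (2 : ℝ) ^ (2 * e + 1) = 2 * (2 ^ e * 2 ^ e) := by
    rw [pow_succ, two_mul, pow_add]
    ring
  obtain ⟨Z, hZ⟩ : ∃ Z : ℝ, Z = 2 ^ e := ⟨_, rfl⟩
  rw [← hZ] at pe e2
  have hZ2 : Z ≤ Z * Z := by
    have := mul_le_mul_of_nonneg_left pe (by linarith : (0 : ℝ) ≤ Z)
    linarith
  have hZ3 : Z * Z ≤ Z * Z * Z := by
    have := mul_le_mul_of_nonneg_left pe (by positivity : (0 : ℝ) ≤ Z * Z)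
    linarith
  have hcp : ∀ ω, B₂ ω → |cp (ptr F J ω)| ≤ 2 * Z := fun ω hω => by
    rw [hZ]
    exact (c3 ω hω).2.2
  have hbp : ∀ ω, B₂ ω → |bp (ptr F J ω)| ≤ 4 * (Z * Z) := fun ω hω => by
    have h1 := (b3 ω (c1 ω hω)).2.2
    rw [e2] at h1
    linarith
  have hxpb : ∀ ω, B₂ ω → |xp (ptr F J ω)| ≤ 6 * (Z * Z) := by
    intro ω hω
    rw [hxp]
    have h1 := hbp ω hω
    have h2 : |θp (ptr F J ω) * cp (ptr F J ω)| ≤ Z * (2 * Z) := by
      rw [abs_mul]
      have h3 := hnd.hθ ω (hB₂ ω hω)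
      rw [← hZ] at h3
      exact mul_le_mul h3 (hcp ω hω) (abs_nonneg _) (by linarith)
    refine (abs_sub _ _).trans ?_
    linarith
  have pow3 : (2 : ℝ) ^ (3 * e + 4) = 16 * (Z * Z * Z) := by
    have h1 : 3 * e + 4 = e + e + e + 4 := by ring
    rw [h1, pow_add, pow_add, pow_add, ← hZ]
    norm_num
    ring
  have hmix : ∀ ω, B₂ ω → ∀ r s t : ℝ, |r| ≤ Z → |s| ≤ Z → |t| ≤ Z →
      |r + (gu (ptr F J ω) - bp (ptr F J ω)) * s + (gv (ptr F J ω) - cp (ptr F J ω)) * t| ≤
        2 ^ (3 * e + 4) := by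
    intro ω hω r s t hr hs ht
    have g1 := hgu ω (hB₂ ω hω)
    have g2 := hgv ω (hB₂ ω hω)
    rw [e2] at g1
    rw [← hZ] at g2
    have l1 : |gu (ptr F J ω) - bp (ptr F J ω)| ≤ 6 * (Z * Z) := by
      refine (abs_sub _ _).trans ?_
      have := hbp ω hω
      linarith
    have l2 : |gv (ptr F J ω) - cp (ptr F J ω)| ≤ 3 * Z := by
      refine (abs_sub _ _).trans ?_
      have := hcp ω hω
      linarith
    have h1 : |(gu (ptr F J ω) - bp (ptr F J ω)) * s| ≤ 6 * (Z * Z) * Z := by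
      rw [abs_mul]
      exact mul_le_mul l1 hs (abs_nonneg _) (by positivity)
    have h2 : |(gv (ptr F J ω) - cp (ptr F J ω)) * t| ≤ 3 * Z * Z := by
      rw [abs_mul]
      exact mul_le_mul l2 ht (abs_nonneg _) (by linarith)
    rw [pow3]
    refine (abs_add_le _ _).trans ?_
    have h3 := abs_add_le r ((gu (ptr F J ω) - bp (ptr F J ω)) * s)
    linarith
  have hdp : DpI F B₂ {y, u, v} k (3 * e + 4) M' a c := by
    intro ω hω
    have hωB := hB₂ ω hω
    obtain ⟨k1, k2⟩ := hnd.hbu ω hωB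
    obtain ⟨k4, k5⟩ := hnd.hbv ω hωB
    obtain ⟨k7, k8, k9⟩ := hk ω hωB
    have k3 := hnd.vu ω hωB
    have k6 := hnd.vv ω hωB
    rw [← hZ] at k1 k2 k4 k5 k7 k8
    refine ⟨fun j hj => ?_, ?_, ?_⟩
    · rcases Finset.mem_insert.1 hj with rfl | hj
      · rw [hay]
        exact hmix ω hω _ _ _ k8 k1 k4
      · rcases Finset.mem_insert.1 hj with rfl | hj
        · rw [hau, pow3]
          refine (hxpb ω hω).trans ?_
          have : 0 ≤ Z * Z := by positivity
          linarith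
        · rw [Finset.mem_singleton.1 hj, hav, pow3]
          refine (hcp ω hω).trans ?_
          linarith
    · rw [hc]
      exact hmix ω hω _ _ _ k7 k2 k5
    · rw [hsum, hay, hau, hav, hc]
      have e3 : F.d ω k - (gt (ptr F J ω) + (gu (ptr F J ω) - bp (ptr F J ω)) *
          cu (ptr F J ω) + (gv (ptr F J ω) - cp (ptr F J ω)) * cv (ptr F J ω)) -
          ((gy (ptr F J ω) + (gu (ptr F J ω) - bp (ptr F J ω)) * au (ptr F J ω) +
            (gv (ptr F J ω) - cp (ptr F J ω)) * bv (ptr F J ω)) * F.d ω y +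
            (xp (ptr F J ω) * F.d ω u + cp (ptr F J ω) * F.d ω v)) =
          (F.d ω k - gt (ptr F J ω) - gy (ptr F J ω) * F.d ω y - gu (ptr F J ω) * F.d ω u -
            gv (ptr F J ω) * (F.d ω v - θp (ptr F J ω) * F.d ω u)) +
          (gu (ptr F J ω) - bp (ptr F J ω)) *
            (F.d ω u - cu (ptr F J ω) - au (ptr F J ω) * F.d ω y) +
          (gv (ptr F J ω) - cp (ptr F J ω)) * (F.d ω v - θp (ptr F J ω) * F.d ω u -
            cv (ptr F J ω) - bv (ptr F J ω) * F.d ω y) := by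
        rw [hxp]
        ring
      show |F.d ω k - (gt (ptr F J ω) + (gu (ptr F J ω) - bp (ptr F J ω)) *
          cu (ptr F J ω) + (gv (ptr F J ω) - cp (ptr F J ω)) * cv (ptr F J ω)) - _| ≤ _
      rw [e3]
      have r1 : |gu (ptr F J ω) - bp (ptr F J ω)| ≤ 2 * ru := by
        rw [abs_sub_comm]
        exact (b3 ω (c1 ω hω)).2.1
      have r2 : |gv (ptr F J ω) - cp (ptr F J ω)| ≤ 2 * rv := by
        rw [abs_sub_comm]
        exact (c3 ω hω).2.1
      have aU0 : 0 ≤ aU := (abs_nonneg _).trans (hnd.nu ω hωB)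
      have aD0 : 0 ≤ aD := (abs_nonneg _).trans (hnd.nv ω hωB)
      have l1 : |(gu (ptr F J ω) - bp (ptr F J ω)) *
          (F.d ω u - cu (ptr F J ω) - au (ptr F J ω) * F.d ω y)| ≤ 2 * ru * aU := by
        rw [abs_mul]
        refine (mul_le_mul r1 k3 (abs_nonneg _) (by positivity)).trans ?_
        refine mul_le_mul_of_nonneg_left ?_ (by positivity)
        have := mul_le_mul_of_nonneg_right hκ1 aU0
        linarith
      have l2 : |(gv (ptr F J ω) - cp (ptr F J ω)) * (F.d ω v - θp (ptr F J ω) * F.d ω u -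
            cv (ptr F J ω) - bv (ptr F J ω) * F.d ω y)| ≤ 2 * rv * aD := by
        rw [abs_mul]
        refine (mul_le_mul r2 k6 (abs_nonneg _) (by positivity)).trans ?_
        refine mul_le_mul_of_nonneg_left ?_ (by positivity)
        have := mul_le_mul_of_nonneg_right hκ1 aD0
        linarith
      refine (abs_add_le _ _).trans ((add_le_add ((abs_add_le _ _).trans
        (add_le_add k9 l1)) l2).trans ?_)
      linarith
  have hcls : ∀ ω, B₂ ω → ∀ j ∈ ({y, u, v} : Finset (Fin m)),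
      |th (slam F W ω) j - a (ptr F J ω) j| ≤ 1 / 2 ^ M' := by
    intro ω hω j hj
    have hωB := hB₂ ω hω
    rcases Finset.mem_insert.1 hj with rfl | hj
    · rw [hty, hay]
      have k1 := hnd.nu ω hωB
      have k2 := hnd.nv ω hωB
      have k3 := rel ω hωB
      have k4 : |hu (slam F W ω) - bs (slam F W ω)| ≤ 3 * ru := by
        have l1 := du ω hωB
        obtain ⟨l2, l3, -⟩ := b3 ω (c1 ω hω)
        rw [← l2]
        rw [abs_le] at l1 l3 ⊢
        constructor <;> linarith [l1.1, l1.2, l3.1, l3.2]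
      have k5 : |hv (slam F W ω) - cs (slam F W ω)| ≤ 3 * rv := by
        have l1 := dv ω hωB
        obtain ⟨l2, l3, -⟩ := c3 ω hω
        rw [← l2]
        rw [abs_le] at l1 l3 ⊢
        constructor <;> linarith [l1.1, l1.2, l3.1, l3.2]
      have e3 : hy (slam F W ω) + (hu (slam F W ω) - bs (slam F W ω)) * ju (slam F W ω) +
          (hv (slam F W ω) - cs (slam F W ω)) * jv (slam F W ω) -
          (gy (ptr F J ω) + (gu (ptr F J ω) - bp (ptr F J ω)) * au (ptr F J ω) +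
            (gv (ptr F J ω) - cp (ptr F J ω)) * bv (ptr F J ω)) =
          (hu (slam F W ω) - bs (slam F W ω)) * (ju (slam F W ω) - au (ptr F J ω)) +
          (hv (slam F W ω) - cs (slam F W ω)) * (jv (slam F W ω) - bv (ptr F J ω)) +
          (hy (slam F W ω) + hu (slam F W ω) * au (ptr F J ω) +
            hv (slam F W ω) * bv (ptr F J ω) - (gy (ptr F J ω) +
              gu (ptr F J ω) * au (ptr F J ω) + gv (ptr F J ω) * bv (ptr F J ω))) := by
        rw [(b3 ω (c1 ω hω)).1, (c3 ω hω).1]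
        ring
      rw [e3]
      have l1 : |(hu (slam F W ω) - bs (slam F W ω)) * (ju (slam F W ω) - au (ptr F J ω))| ≤
          3 * ru * aU := by
        rw [abs_mul]
        exact mul_le_mul k4 k1 (abs_nonneg _) (by linarith)
      have l2 : |(hv (slam F W ω) - cs (slam F W ω)) *
          (jv (slam F W ω) - bv (ptr F J ω))| ≤ 3 * rv * aD := by
        rw [abs_mul]
        exact mul_le_mul k5 k2 (abs_nonneg _) (by linarith)
      refine le_trans ((abs_add_le _ _).trans (add_le_add ((abs_add_le _ _).trans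
        (add_le_add l1 l2)) k3)) num
    · rcases Finset.mem_insert.1 hj with rfl | hj
      · rw [htu, hau, hx ω hω, sub_self, abs_zero]
        positivity
      · rw [Finset.mem_singleton.1 hj, htv, hav, (c3 ω hω).1, sub_self, abs_zero]
        positivity
  obtain ⟨B₃, d1, d2, d3⟩ := lab_grd hW hdp hcls h4 h5
  refine ⟨B₃, fun ω hω => hB₂ ω (d1 ω hω), ?_, d3⟩
  have h1 := cI_pos m
  calc Pe F.p B ≤ 3 * (3 * (cI m * Pe F.p B₃)) :=
        b2.trans (mul_le_mul_of_nonneg_left (c2.trans (mul_le_mul_of_nonneg_left d2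
          (by norm_num))) (by norm_num))
    _ = 9 * cI m * Pe F.p B₃ := by ring

end Pool.JVE
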