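import Pool.Agent.H62.OWN.LabI

/-!
# Affine labels from closed gradients, with their coefficients

`lab_grdx`: as `lab_grd`, with the coefficients of the label.
-/

set_option autoImplicit false

namespace Pool.JVE

open Finset MvPolynomial
open Pool.Agent.H49.Ent Pool.Agent.H32.Dense Pool.STK Pool.KA Pool.KSAT Pool.K2S Pool.PB Pool.GEN
open Pool.MIC6 (floor_diff floor_div_near dpt dpt_none dpt_near)

variable {m J : ℕ}

/-- The affine label of a code. -/
noncomputable def afz (I : Finset (Fin m)) (W M : ℕ) (x : (Fin (m + 1) → ℤ) × ℤ) :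
    MvPolynomial (Option (Fin m)) ℝ :=
  afI I ((x.2 : ℝ) / 2 ^ (W + M)) ((x.1 (Fin.last m) : ℝ) / 2 ^ M)
    (fun k => (x.1 k.castSucc : ℝ) / 2 ^ M)

/-- **An affine label from a closed gradient.** -/
theorem lab_grdx {F : Fam m J} {A : F.Ω → Prop} {I : Finset (Fin m)} {v : Fin m}
    {av : PtT F → Fin m → ℝ} {cv : PtT F → ℝ} {th : LnT F → Fin m → ℝ} {W M e P : ℕ} (hW : W ≤ J)
    (hdp : DpI F A I v e M av cv)
    (h3 : ∀ ω, A ω → ∀ k ∈ I, |th (slam F W ω) k - av (ptr F J ω) k| ≤ 1 / 2 ^ M)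
    (h4 : W + M + e + m + 3 ≤ J) (h5 : P + m + 3 ≤ W + M) :
    ∃ B : F.Ω → Prop, Sub B A ∧ Pe F.p A ≤ cI m * Pe F.p B ∧
      ∃ (z : PtT F → (Fin (m + 1) → ℤ) × ℤ) (z' : LnT F → (Fin (m + 1) → ℤ) × ℤ),
        (∀ ρ : ℕ, LbOK F I v 1 (e + 1) J W ρ P B z z' (afz I W M)) ∧
        ∀ ω, B ω → ∀ k ∈ I, |((z' (slam F W ω)).1 k.castSucc : ℝ) / 2 ^ M -
          av (ptr F J ω) k| ≤ 1 / 2 ^ M := by
  classical
  have pM : (0 : ℝ) < 2 ^ M := by positivity
  have pJ : (0 : ℝ) < 2 ^ J := by positivity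
  have pQ : (0 : ℝ) < 2 ^ (W + M) := by positivity
  have pW : (0 : ℝ) < 2 ^ W := by positivity
  have hIm : (I.card : ℝ) ≤ m := by
    have := Finset.card_le_univ I
    rw [Fintype.card_fin] at this
    exact_mod_cast this
  have hlin : ∀ ω ω', slam F W ω = slam F W ω' → F.u ω = F.u ω' ∧ F.d ω = F.d ω' ∧
      |F.t ω - F.t ω'| ≤ 1 / 2 ^ W := by
    intro ω ω' h
    have a1 := Prod.ext_iff.mp h
    have a2 := Prod.ext_iff.mp a1.1
    have a3 : F.T1 W ω = F.T1 W ω' := (Prod.ext_iff.mp a1.2).2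
    refine ⟨a2.1, a2.2, ?_⟩
    have b1 := Pool.PB.Trl.t_rt F hW ω
    have b2 := Pool.PB.Trl.t_rt F hW ω'
    have c1 := Pool.PB.Trl.rt_mem F W ω
    have c2 := Pool.PB.Trl.rt_mem F W ω'
    have a4 : (slam F W ω).2.2 = (slam F W ω').2.2 := a3
    rw [b1, b2, a4]
    have e1 : (((slam F W ω').2.2 : ℝ) + Pool.PB.Trl.rt F W ω) / 2 ^ W -
        (((slam F W ω').2.2 : ℝ) + Pool.PB.Trl.rt F W ω') / 2 ^ W =
        (Pool.PB.Trl.rt F W ω - Pool.PB.Trl.rt F W ω') / 2 ^ W := by ring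
    rw [e1, abs_div, abs_of_pos pW]
    refine div_le_div_of_nonneg_right ?_ pW.le
    rw [abs_le]
    constructor <;> linarith [c1.1, c1.2, c2.1, c2.2]
  -- sums over `I` with small terms
  have hsum : ∀ (ω : F.Ω) (f : Fin m → ℝ) (E : ℝ), 0 ≤ E → (∀ k ∈ I, |f k| ≤ E) →
      |∑ k ∈ I, f k * F.d ω k| ≤ m * E := by
    intro ω f E hE hf
    refine (Finset.abs_sum_le_sum_abs _ _).trans ?_
    have k1 : ∑ k ∈ I, |f k * F.d ω k| ≤ ∑ _k ∈ I, E := by
      refine Finset.sum_le_sum fun k hk => ?_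
      rw [abs_mul]
      have := mul_le_mul (hf k hk) (F.dir ω k) (abs_nonneg _) hE
      linarith
    refine k1.trans ?_
    rw [Finset.sum_const, nsmul_eq_mul]
    exact mul_le_mul_of_nonneg_right hIm hE
  -- the codes of the gradient and of the velocity
  obtain ⟨f0, hf0⟩ : ∃ f0 : PtT F → Fin (m + 1) → ℤ, f0 = fun p (i : Fin (m + 1)) =>
    if h : (i : ℕ) < m then (if (⟨i, h⟩ : Fin m) ∈ I then ⌊(2 : ℝ) ^ M * av p ⟨i, h⟩⌋ else 0)
      else ⌊(2 : ℝ) ^ M * cv p⌋ := ⟨_, rfl⟩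
  have f0a : ∀ p (k : Fin m), k ∈ I → f0 p k.castSucc = ⌊(2 : ℝ) ^ M * av p k⌋ := by
    intro p k hk
    rw [hf0]
    show (if h : ((k.castSucc : Fin (m + 1)) : ℕ) < m then _ else _) = _
    have h1 : ((k.castSucc : Fin (m + 1)) : ℕ) < m := by
      rw [Fin.val_castSucc]
      exact k.2
    rw [dif_pos h1]
    have h2 : (⟨((k.castSucc : Fin (m + 1)) : ℕ), h1⟩ : Fin m) = k := Fin.ext (Fin.val_castSucc k)
    rw [h2, if_pos hk]
  have f0n : ∀ p (k : Fin m), k ∉ I → f0 p k.castSucc = 0 := by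
    intro p k hk
    rw [hf0]
    show (if h : ((k.castSucc : Fin (m + 1)) : ℕ) < m then _ else _) = _
    have h1 : ((k.castSucc : Fin (m + 1)) : ℕ) < m := by
      rw [Fin.val_castSucc]
      exact k.2
    rw [dif_pos h1]
    have h2 : (⟨((k.castSucc : Fin (m + 1)) : ℕ), h1⟩ : Fin m) = k := Fin.ext (Fin.val_castSucc k)
    rw [h2, if_neg hk]
  have f0c : ∀ p, f0 p (Fin.last m) = ⌊(2 : ℝ) ^ M * cv p⌋ := by
    intro p
    rw [hf0]
    show (if h : ((Fin.last m : Fin (m + 1)) : ℕ) < m then _ else _) = _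
    rw [dif_neg (by rw [Fin.val_last]; exact lt_irrefl m)]
  obtain ⟨B₁, b1, b2, φ₁, b3⟩ := Pool.S6K.exact_label F.isLaw (2 * m + 2) (slam F W)
    (fun ω => f0 (ptr F J ω)) A (fun ω ω' hω hω' h => by
      obtain ⟨-, hd, -⟩ := hlin ω ω' h
      have k3 := h3 ω hω
      have k4 := h3 ω' hω'
      rw [h] at k3
      have k5 : ∀ k ∈ I, |av (ptr F J ω) k - av (ptr F J ω') k| ≤ 2 / 2 ^ M := by
        intro k hk
        have k3' := k3 k hk
        have k4' := k4 k hk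
        have e1 : (2 : ℝ) / 2 ^ M = 1 / 2 ^ M + 1 / 2 ^ M := by ring
        rw [e1]
        rw [abs_le] at k3' k4' ⊢
        constructor <;> linarith [k3'.1, k3'.2, k4'.1, k4'.2]
      have k6 : |cv (ptr F J ω) - cv (ptr F J ω')| ≤ (2 * m + 2) / 2 ^ M := by
        have a1 := (hdp ω hω).2.2
        have a2 := (hdp ω' hω').2.2
        rw [hd] at a1
        have a3 : |∑ k ∈ I, (av (ptr F J ω) k - av (ptr F J ω') k) * F.d ω' k| ≤
            m * (2 / 2 ^ M) := hsum ω' _ _ (by positivity) k5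
        have e1 : ((2 : ℝ) * m + 2) / 2 ^ M = m * (2 / 2 ^ M) + (1 / 2 ^ M + 1 / 2 ^ M) := by ring
        have e2 : cv (ptr F J ω) - cv (ptr F J ω') =
            -(∑ k ∈ I, (av (ptr F J ω) k - av (ptr F J ω') k) * F.d ω' k) +
            ((F.d ω' v - cv (ptr F J ω') - ∑ k ∈ I, av (ptr F J ω') k * F.d ω' k) -
            (F.d ω' v - cv (ptr F J ω) - ∑ k ∈ I, av (ptr F J ω) k * F.d ω' k)) := by
          have e3 : ∑ k ∈ I, (av (ptr F J ω) k - av (ptr F J ω') k) * F.d ω' k =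
              ∑ k ∈ I, av (ptr F J ω) k * F.d ω' k - ∑ k ∈ I, av (ptr F J ω') k * F.d ω' k := by
            rw [← Finset.sum_sub_distrib]
            exact Finset.sum_congr rfl fun k _ => by ring
          rw [e3]
          ring
        rw [e1, e2]
        refine (abs_add_le _ _).trans (add_le_add ?_ ((abs_sub _ _).trans (add_le_add a2 a1)))
        rw [abs_neg]
        exact a3
      intro i
      have key : ∀ a b : ℝ, |a - b| ≤ (2 * m + 2) / 2 ^ M →
          |⌊(2 : ℝ) ^ M * a⌋ - ⌊(2 : ℝ) ^ M * b⌋| ≤ ((2 * m + 2 : ℕ) : ℤ) := by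
        intro a b hab
        refine floor_diff ?_
        rw [← mul_sub, abs_mul, abs_of_pos pM]
        rw [le_div_iff₀ pM] at hab
        push_cast
        linarith
      have k7 : (2 : ℝ) / 2 ^ M ≤ (2 * m + 2) / 2 ^ M := by
        refine div_le_div_of_nonneg_right ?_ pM.le
        have : (0 : ℝ) ≤ m := Nat.cast_nonneg m
        linarith
      rcases Fin.eq_castSucc_or_eq_last i with ⟨k, rfl⟩ | rfl
      · by_cases hk : k ∈ I
        · rw [f0a _ k hk, f0a _ k hk]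
          exact_mod_cast key _ _ ((k5 k hk).trans k7)
        · rw [f0n _ k hk, f0n _ k hk, sub_self, abs_zero]
          exact Int.natCast_nonneg _
      · rw [f0c, f0c]
        exact_mod_cast key _ _ k6)
  -- the code of the constant
  obtain ⟨A0, hA0⟩ : ∃ A0 : PtT F → Fin m → ℝ, A0 = fun p k => (f0 p k.castSucc : ℝ) / 2 ^ M :=
    ⟨_, rfl⟩
  obtain ⟨C0, hC0⟩ : ∃ C0 : PtT F → ℝ, C0 = fun p => (f0 p (Fin.last m) : ℝ) / 2 ^ M := ⟨_, rfl⟩
  have hAn : ∀ p, ∀ k ∈ I, |av p k - A0 p k| ≤ 1 / 2 ^ M := by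
    intro p k hk
    rw [hA0]
    show |av p k - (f0 p k.castSucc : ℝ) / 2 ^ M| ≤ _
    rw [f0a p k hk]
    exact floor_div_near pM
  have hCn : ∀ p, |cv p - C0 p| ≤ 1 / 2 ^ M := by
    intro p
    rw [hC0]
    show |cv p - (f0 p (Fin.last m) : ℝ) / 2 ^ M| ≤ _
    rw [f0c]
    exact floor_div_near pM
  have hM1 : (1 : ℝ) / 2 ^ M ≤ 1 := by
    rw [div_le_one pM]
    exact one_le_pow₀ (by norm_num)
  have he1 : (1 : ℝ) ≤ 2 ^ e := one_le_pow₀ (by norm_num)
  have hAe : ∀ ω, A ω → ∀ k ∈ I, |A0 (ptr F J ω) k| ≤ 2 ^ (e + 1) := by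
    intro ω hω k hk
    have a1 := (hdp ω hω).1 k hk
    have a2 := hAn (ptr F J ω) k hk
    rw [pow_succ]
    rw [abs_le] at a1 a2 ⊢
    constructor <;> linarith [a1.1, a1.2, a2.1, a2.2]
  have hCe : ∀ ω, A ω → |C0 (ptr F J ω)| ≤ 2 ^ (e + 1) := by
    intro ω hω
    have a1 := (hdp ω hω).2.1
    have a2 := hCn (ptr F J ω)
    rw [pow_succ]
    rw [abs_le] at a1 a2 ⊢
    constructor <;> linarith [a1.1, a1.2, a2.1, a2.2]
  have hvel : ∀ ω, A ω → |F.d ω v - (C0 (ptr F J ω) +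
      ∑ k ∈ I, A0 (ptr F J ω) k * F.d ω k)| ≤ (m + 2) / 2 ^ M := by
    intro ω hω
    have a1 := (hdp ω hω).2.2
    have a2 := hCn (ptr F J ω)
    have a3 : |∑ k ∈ I, (av (ptr F J ω) k - A0 (ptr F J ω) k) * F.d ω k| ≤ m * (1 / 2 ^ M) :=
      hsum ω _ _ (by positivity) (hAn _)
    have e1 : F.d ω v - (C0 (ptr F J ω) + ∑ k ∈ I, A0 (ptr F J ω) k * F.d ω k) =
        (F.d ω v - cv (ptr F J ω) - ∑ k ∈ I, av (ptr F J ω) k * F.d ω k) +
        ((cv (ptr F J ω) - C0 (ptr F J ω)) +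
          ∑ k ∈ I, (av (ptr F J ω) k - A0 (ptr F J ω) k) * F.d ω k) := by
      have e3 : ∑ k ∈ I, (av (ptr F J ω) k - A0 (ptr F J ω) k) * F.d ω k =
          ∑ k ∈ I, av (ptr F J ω) k * F.d ω k - ∑ k ∈ I, A0 (ptr F J ω) k * F.d ω k := by
        rw [← Finset.sum_sub_distrib]
        exact Finset.sum_congr rfl fun k _ => by ring
      rw [e3]
      ring
    have e2 : ((m : ℝ) + 2) / 2 ^ M = 1 / 2 ^ M + (1 / 2 ^ M + m * (1 / 2 ^ M)) := by ring
    rw [e1, e2]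
    exact (abs_add_le _ _).trans (add_le_add a1 ((abs_add_le _ _).trans (add_le_add a2 a3)))
  obtain ⟨g, hg⟩ : ∃ g : F.Ω → ℝ, g = fun ω => F.x ω v -
    (C0 (ptr F J ω) * F.t ω + ∑ k ∈ I, A0 (ptr F J ω) k * F.x ω k) := ⟨_, rfl⟩
  obtain ⟨gd, hgd⟩ : ∃ gd : PtT F → ℝ, gd = fun p => dpt p (some v) -
    (C0 p * dpt p none + ∑ k ∈ I, A0 p k * dpt p (some k)) := ⟨_, rfl⟩
  have hgg : ∀ ω, A ω → |g ω - gd (ptr F J ω)| ≤ 1 / 2 ^ (W + M) := by
    intro ω hω
    have a1 := dpt_near F ω (some v)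
    have a3 : |∑ k ∈ I, A0 (ptr F J ω) k * (dpt (ptr F J ω) (some k) - F.x ω k)| ≤
        m * (2 ^ (e + 1) * (1 / 2 ^ J)) := by
      refine (Finset.abs_sum_le_sum_abs _ _).trans ?_
      have k1 : ∑ k ∈ I, |A0 (ptr F J ω) k * (dpt (ptr F J ω) (some k) - F.x ω k)| ≤
          ∑ _k ∈ I, (2 : ℝ) ^ (e + 1) * (1 / 2 ^ J) := by
        refine Finset.sum_le_sum fun k hk => ?_
        rw [abs_mul]
        exact mul_le_mul (hAe ω hω k hk) (dpt_near F ω (some k)) (abs_nonneg _) (by positivity)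
      refine k1.trans ?_
      rw [Finset.sum_const, nsmul_eq_mul]
      exact mul_le_mul_of_nonneg_right hIm (by positivity)
    have e1 : g ω - gd (ptr F J ω) =
        ∑ k ∈ I, A0 (ptr F J ω) k * (dpt (ptr F J ω) (some k) - F.x ω k) -
        (dpt (ptr F J ω) (some v) - F.x ω v) := by
      have e3 : ∑ k ∈ I, A0 (ptr F J ω) k * (dpt (ptr F J ω) (some k) - F.x ω k) =
          ∑ k ∈ I, A0 (ptr F J ω) k * dpt (ptr F J ω) (some k) -
            ∑ k ∈ I, A0 (ptr F J ω) k * F.x ω k := by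
        rw [← Finset.sum_sub_distrib]
        exact Finset.sum_congr rfl fun k _ => by ring
      rw [hg, hgd, e3]
      show F.x ω v - (C0 (ptr F J ω) * F.t ω + ∑ k ∈ I, A0 (ptr F J ω) k * F.x ω k) -
        (dpt (ptr F J ω) (some v) - (C0 (ptr F J ω) * dpt (ptr F J ω) none +
          ∑ k ∈ I, A0 (ptr F J ω) k * dpt (ptr F J ω) (some k))) = _
      rw [dpt_none]
      ring
    rw [e1]
    have a1' : |dpt (ptr F J ω) (some v) - F.x ω v| ≤ 1 / 2 ^ J := a1
    refine (abs_sub _ _).trans ((add_le_add a3 a1').trans ?_)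
    have hm2 : (m : ℝ) ≤ 2 ^ m := by exact_mod_cast (Nat.lt_two_pow_self (n := m)).le
    have e2 : (m : ℝ) * (2 ^ (e + 1) * (1 / 2 ^ J)) + 1 / 2 ^ J ≤ 2 ^ (m + e + 2) / 2 ^ J := by
      have e4 : (m : ℝ) * (2 ^ (e + 1) * (1 / 2 ^ J)) + 1 / 2 ^ J =
          (m * 2 ^ (e + 1) + 1) / 2 ^ J := by ring
      rw [e4]
      refine div_le_div_of_nonneg_right ?_ pJ.le
      have k1 : (m : ℝ) * 2 ^ (e + 1) ≤ 2 ^ m * 2 ^ (e + 1) :=
        mul_le_mul_of_nonneg_right hm2 (by positivity)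
      have k2 : (1 : ℝ) ≤ 2 ^ m * 2 ^ (e + 1) := by
        rw [← pow_add]
        exact one_le_pow₀ (by norm_num)
      have k3 : (2 : ℝ) ^ (m + e + 2) = 2 ^ m * 2 ^ (e + 1) * 2 := by
        rw [← pow_add, ← pow_succ]
        rfl
      rw [k3]
      linarith
    refine e2.trans ?_
    rw [div_le_div_iff₀ pJ pQ, one_mul, ← pow_add]
    exact pow_le_pow_right₀ (by norm_num) (by omega)
  obtain ⟨f1, hf1⟩ : ∃ f1 : PtT F → ℤ, f1 = fun p => ⌊(2 : ℝ) ^ (W + M) * gd p⌋ := ⟨_, rfl⟩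
  obtain ⟨B₂, c1, c2, φ₂, c3⟩ := Pool.S6K.exact_label F.isLaw (m + 4) (slam F W)
    (fun ω (_ : Fin 1) => f1 (ptr F J ω)) B₁ (fun ω ω' hω hω' h i => by
      obtain ⟨hu, hd, ht⟩ := hlin ω ω' h
      have hff : f0 (ptr F J ω) = f0 (ptr F J ω') := by
        have := (b3 ω hω).trans ((congrArg φ₁ h).trans (b3 ω' hω').symm)
        exact this
      have hA' : A0 (ptr F J ω) = A0 (ptr F J ω') := by
        rw [hA0]
        funext k
        show (f0 (ptr F J ω) k.castSucc : ℝ) / 2 ^ M = (f0 (ptr F J ω') k.castSucc : ℝ) / 2 ^ M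
        rw [hff]
      have hC' : C0 (ptr F J ω) = C0 (ptr F J ω') := by
        rw [hC0]
        show (f0 (ptr F J ω) (Fin.last m) : ℝ) / 2 ^ M = (f0 (ptr F J ω') (Fin.last m) : ℝ) / 2 ^ M
        rw [hff]
      have k1 : |g ω - g ω'| ≤ (m + 2) / 2 ^ (W + M) := by
        have e1 : g ω - g ω' = (F.t ω - F.t ω') *
            (F.d ω' v - (C0 (ptr F J ω') + ∑ k ∈ I, A0 (ptr F J ω') k * F.d ω' k)) := by
          have e3 : ∑ k ∈ I, A0 (ptr F J ω') k * F.x ω k - ∑ k ∈ I, A0 (ptr F J ω') k * F.x ω' k =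
              (F.t ω - F.t ω') * ∑ k ∈ I, A0 (ptr F J ω') k * F.d ω' k := by
            rw [← Finset.sum_sub_distrib, Finset.mul_sum]
            refine Finset.sum_congr rfl fun k _ => ?_
            unfold Fam.x
            rw [hu, hd]
            ring
          rw [hg]
          show F.x ω v - (C0 (ptr F J ω) * F.t ω + ∑ k ∈ I, A0 (ptr F J ω) k * F.x ω k) -
            (F.x ω' v - (C0 (ptr F J ω') * F.t ω' + ∑ k ∈ I, A0 (ptr F J ω') k * F.x ω' k)) = _
          rw [hA', hC']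
          have e4 : F.x ω v - F.x ω' v = (F.t ω - F.t ω') * F.d ω' v := by
            unfold Fam.x
            rw [hu, hd]
            ring
          linear_combination e4 - e3
        rw [e1, abs_mul]
        have k2 := mul_le_mul ht (hvel ω' (b1 ω' hω')) (abs_nonneg _) (by positivity)
        refine k2.trans (le_of_eq ?_)
        rw [pow_add]
        field_simp
      have k2 := hgg ω (b1 ω hω)
      have k3 := hgg ω' (b1 ω' hω')
      have k4 : |gd (ptr F J ω) - gd (ptr F J ω')| ≤ (m + 4) / 2 ^ (W + M) := by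
        have e1 : ((m : ℝ) + 4) / 2 ^ (W + M) =
            (m + 2) / 2 ^ (W + M) + (1 / 2 ^ (W + M) + 1 / 2 ^ (W + M)) := by
          ring
        rw [e1]
        rw [abs_le] at k1 k2 k3 ⊢
        constructor <;> linarith [k1.1, k1.2, k2.1, k2.2, k3.1, k3.2]
      rw [hf1]
      have k5 : |⌊(2 : ℝ) ^ (W + M) * gd (ptr F J ω)⌋ - ⌊(2 : ℝ) ^ (W + M) * gd (ptr F J ω')⌋| ≤
          ((m + 4 : ℕ) : ℤ) := by
        refine floor_diff ?_
        rw [← mul_sub, abs_mul, abs_of_pos pQ]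
        rw [le_div_iff₀ pQ] at k4
        push_cast
        linarith
      exact_mod_cast k5)
  have hval : ∀ ω, B₂ ω → (φ₁ (slam F W ω), φ₂ (slam F W ω) 0) =
      (f0 (ptr F J ω), f1 (ptr F J ω)) := by
    intro ω hω
    have a1 : f0 (ptr F J ω) = φ₁ (slam F W ω) := b3 ω (c1 ω hω)
    have a2 : f1 (ptr F J ω) = φ₂ (slam F W ω) 0 := congrFun (c3 ω hω) 0
    rw [a1, a2]
  refine ⟨B₂, fun ω hω => b1 ω (c1 ω hω), ?_, fun p => (f0 p, f1 p), fun s => (φ₁ s, φ₂ s 0),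
    fun ρ => ?_, fun ω hω k hk => ?_⟩
  · unfold cI
    rw [pow_one] at c2
    refine b2.trans ?_
    rw [mul_assoc]
    exact mul_le_mul_of_nonneg_left c2 (by positivity)
  · have hpd : ∀ ω, A ω → ∀ (b : Option (Fin m) → ℝ) (o : Option (Fin m)),
        |eval b (pderiv o (afI I ((f1 (ptr F J ω) : ℝ) / 2 ^ (W + M))
          ((f0 (ptr F J ω) (Fin.last m) : ℝ) / 2 ^ M)
          (fun k => (f0 (ptr F J ω) k.castSucc : ℝ) / 2 ^ M)))| ≤ 2 ^ (e + 1) := by
      intro ω hω b o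
      have k1 := hAe ω hω
      have k2 := hCe ω hω
      rw [hA0] at k1
      rw [hC0] at k2
      cases o with
      | none =>
        rw [pd_none_afI]
        exact k2
      | some i =>
        rw [pd_some_afI]
        split_ifs with hi
        · exact k1 i hi
        · rw [abs_zero]
          positivity
    refine ⟨fun x => deg_afI _ _ _ _, fun x b b' hb hb' => ?_, fun ω hω => (hval ω hω).symm,
      fun ω hω => ?_, fun ω hω => ?_, fun ω hω b hb o => ?_⟩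
    · unfold afz
      rw [eval_afI, eval_afI, hb, Finset.sum_congr rfl fun k hk => by rw [hb' k hk]]
    · show |F.x ω v - eval (bt F ω) (afI I _ _ _)| ≤ _
      rw [hval ω hω, eval_afI]
      have a1 := hgg ω (b1 ω (c1 ω hω))
      have a2 : |gd (ptr F J ω) - (f1 (ptr F J ω) : ℝ) / 2 ^ (W + M)| ≤ 1 / 2 ^ (W + M) := by
        rw [hf1]
        exact floor_div_near pQ
      have e1 : F.x ω v - ((f1 (ptr F J ω) : ℝ) / 2 ^ (W + M) +
          ((f0 (ptr F J ω) (Fin.last m) : ℝ) / 2 ^ M * bt F ω none +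
          ∑ k ∈ I, (f0 (ptr F J ω) k.castSucc : ℝ) / 2 ^ M * bt F ω (some k))) =
          (g ω - gd (ptr F J ω)) + (gd (ptr F J ω) - (f1 (ptr F J ω) : ℝ) / 2 ^ (W + M)) := by
        rw [hg, hA0, hC0]
        show _ = (F.x ω v - ((f0 (ptr F J ω) (Fin.last m) : ℝ) / 2 ^ M * bt F ω none +
          ∑ k ∈ I, (f0 (ptr F J ω) k.castSucc : ℝ) / 2 ^ M * bt F ω (some k)) -
            gd (ptr F J ω)) + _
        ring
      show |F.x ω v - ((f1 (ptr F J ω) : ℝ) / 2 ^ (W + M) +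
          ((f0 (ptr F J ω) (Fin.last m) : ℝ) / 2 ^ M * bt F ω none +
          ∑ k ∈ I, (f0 (ptr F J ω) k.castSucc : ℝ) / 2 ^ M * bt F ω (some k)))| ≤ _
      rw [e1]
      refine (abs_add_le _ _).trans ((add_le_add a1 a2).trans ?_)
      rw [← two_mul, mul_one_div, div_le_div_iff₀ pQ (by positivity), one_mul, ← pow_succ']
      exact pow_le_pow_right₀ (by norm_num) (by omega)
    · show |F.d ω v - ∑ o, bd F ω o * eval (bt F ω) (pderiv o (afI I _ _ _))| ≤ _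
      rw [hval ω hω]
      have e1 : ∑ o, bd F ω o * eval (bt F ω) (pderiv o (afI I ((f1 (ptr F J ω) : ℝ) / 2 ^ (W + M))
          ((f0 (ptr F J ω) (Fin.last m) : ℝ) / 2 ^ M)
          (fun k => (f0 (ptr F J ω) k.castSucc : ℝ) / 2 ^ M))) =
          C0 (ptr F J ω) + ∑ k ∈ I, A0 (ptr F J ω) k * F.d ω k := by
        rw [Fintype.sum_option]
        have e2 : bd F ω none = 1 := rfl
        rw [e2, one_mul, pd_none_afI, hA0, hC0]
        show _ = (f0 (ptr F J ω) (Fin.last m) : ℝ) / 2 ^ M + _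
        congr 1
        have e3 : ∀ k : Fin m, bd F ω (some k) * eval (bt F ω) (pderiv (some k)
            (afI I ((f1 (ptr F J ω) : ℝ) / 2 ^ (W + M))
            ((f0 (ptr F J ω) (Fin.last m) : ℝ) / 2 ^ M)
            (fun k => (f0 (ptr F J ω) k.castSucc : ℝ) / 2 ^ M))) =
            if k ∈ I then (f0 (ptr F J ω) k.castSucc : ℝ) / 2 ^ M * F.d ω k else 0 := by
          intro k
          rw [pd_some_afI]
          have e4 : bd F ω (some k) = F.d ω k := rfl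
          rw [e4]
          split_ifs
          · ring
          · ring
        rw [Finset.sum_congr rfl fun k _ => e3 k, Finset.sum_ite_mem, Finset.univ_inter]
      rw [e1]
      refine (hvel ω (b1 ω (c1 ω hω))).trans ?_
      rw [div_le_div_iff₀ pM (by positivity), ← pow_add]
      have hm2 : (m : ℝ) ≤ 2 ^ m := by exact_mod_cast (Nat.lt_two_pow_self (n := m)).le
      have hm3 : (m : ℝ) + 2 ≤ 2 ^ (m + 2) := by
        have h1 : (1 : ℝ) ≤ 2 ^ m := one_le_pow₀ (by norm_num)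
        rw [pow_add]
        linarith
      calc ((m : ℝ) + 2) * 2 ^ P ≤ 2 ^ (m + 2) * 2 ^ P :=
            mul_le_mul_of_nonneg_right hm3 (by positivity)
        _ = 2 ^ (m + 2 + P) := by rw [pow_add _ (m + 2)]
        _ ≤ 2 ^ (W + M) := pow_le_pow_right₀ (by norm_num) (by omega)
    · show |eval b (pderiv o (afI I _ _ _))| ≤ _
      rw [hval ω hω]
      exact hpd ω (b1 ω (c1 ω hω)) b o
  · have h1 := hval ω hω
    have h2 : (φ₁ (slam F W ω), φ₂ (slam F W ω) 0).1 k.castSucc = f0 (ptr F J ω) k.castSucc := by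
      rw [h1]
    show |(((φ₁ (slam F W ω), φ₂ (slam F W ω) 0).1 k.castSucc : ℤ) : ℝ) / 2 ^ M -
      av (ptr F J ω) k| ≤ 1 / 2 ^ M
    rw [h2, abs_sub_comm]
    have h3 := hAn (ptr F J ω) k hk
    rw [hA0] at h3
    exact h3

end Pool.JVE
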