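import Pool.Agent.H62.AFN.Nbt

/-!
# Slopes in natural units

`ND`: the slope of `u` over `y` and of `v - θ u` over `y` at the exact points, in natural units
`aU`, `aD`; `θ` is closed. `fib_err`: the error of the lines through one point.
-/

set_option autoImplicit false

namespace Pool.JVE

open Finset MvPolynomial
open Pool.Agent.H49.Ent Pool.Agent.H32.Dense Pool.STK Pool.KA Pool.KSAT Pool.K2S Pool.PB Pool.GEN
open Pool.MIC6 (mvp wt wp wpt wp_eq dpt dpt_near dpt_none ptr_x)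
open Pool.PB.Trl (rt rt_mem t_rt)
open Pool.D2R (hs dd der_curve hs_add_left hs_smul_left)

variable {m J : ℕ}

/-- **The slopes at the exact points, in natural units.** -/
structure ND (F : Fam m J) (A : F.Ω → Prop) (y u v : Fin m) (w e : ℕ)
    (au cu bv cv θp : PtT F → ℝ) (θs ju jv : LnT F → ℝ) (aU aD κ : ℝ) : Prop where
  thc : ∀ ω, A ω → θp (ptr F J ω) = θs (slam F w ω)
  hθ : ∀ ω, A ω → |θp (ptr F J ω)| ≤ 2 ^ e
  hbu : ∀ ω, A ω → |au (ptr F J ω)| ≤ 2 ^ e ∧ |cu (ptr F J ω)| ≤ 2 ^ e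
  hbv : ∀ ω, A ω → |bv (ptr F J ω)| ≤ 2 ^ e ∧ |cv (ptr F J ω)| ≤ 2 ^ e
  vu : ∀ ω, A ω → |F.d ω u - cu (ptr F J ω) - au (ptr F J ω) * F.d ω y| ≤ κ * aU
  vv : ∀ ω, A ω → |F.d ω v - θp (ptr F J ω) * F.d ω u - cv (ptr F J ω) -
    bv (ptr F J ω) * F.d ω y| ≤ κ * aD
  nu : ∀ ω, A ω → |ju (slam F w ω) - au (ptr F J ω)| ≤ aU
  nv : ∀ ω, A ω → |jv (slam F w ω) - bv (ptr F J ω)| ≤ aD

section nd

variable {F : Fam m J} {A : F.Ω → Prop} {y u v : Fin m} {w e : ℕ}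
  {au cu bv cv θp : PtT F → ℝ} {θs ju jv : LnT F → ℝ} {aU aD κ : ℝ}

theorem ND.sub {B : F.Ω → Prop} (h : ND F A y u v w e au cu bv cv θp θs ju jv aU aD κ)
    (hB : Sub B A) : ND F B y u v w e au cu bv cv θp θs ju jv aU aD κ :=
  ⟨fun ω hω => h.thc ω (hB ω hω), fun ω hω => h.hθ ω (hB ω hω), fun ω hω => h.hbu ω (hB ω hω),
    fun ω hω => h.hbv ω (hB ω hω), fun ω hω => h.vu ω (hB ω hω), fun ω hω => h.vv ω (hB ω hω),
    fun ω hω => h.nu ω (hB ω hω), fun ω hω => h.nv ω (hB ω hω)⟩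

theorem ND.two_u (h : ND F A y u v w e au cu bv cv θp θs ju jv aU aD κ) {ω ω' : F.Ω}
    (hω : A ω) (hω' : A ω') (hp : ptr F J ω = ptr F J ω') :
    |(F.d ω' u - F.d ω u) - au (ptr F J ω) * (F.d ω' y - F.d ω y)| ≤ 2 * (κ * aU) := by
  have h1 := h.vu ω hω
  have h2 := h.vu ω' hω'
  rw [← hp] at h2
  have e1 : (F.d ω' u - F.d ω u) - au (ptr F J ω) * (F.d ω' y - F.d ω y) =
      (F.d ω' u - cu (ptr F J ω) - au (ptr F J ω) * F.d ω' y) -
      (F.d ω u - cu (ptr F J ω) - au (ptr F J ω) * F.d ω y) := by ring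
  rw [e1]
  refine (abs_sub _ _).trans ?_
  linarith

theorem ND.two_v (h : ND F A y u v w e au cu bv cv θp θs ju jv aU aD κ) {ω ω' : F.Ω}
    (hω : A ω) (hω' : A ω') (hp : ptr F J ω = ptr F J ω') :
    |(F.d ω' v - F.d ω v) - θp (ptr F J ω) * (F.d ω' u - F.d ω u) -
      bv (ptr F J ω) * (F.d ω' y - F.d ω y)| ≤ 2 * (κ * aD) := by
  have h1 := h.vv ω hω
  have h2 := h.vv ω' hω'
  rw [← hp] at h2
  have e1 : (F.d ω' v - F.d ω v) - θp (ptr F J ω) * (F.d ω' u - F.d ω u) -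
      bv (ptr F J ω) * (F.d ω' y - F.d ω y) =
      (F.d ω' v - θp (ptr F J ω) * F.d ω' u - cv (ptr F J ω) - bv (ptr F J ω) * F.d ω' y) -
      (F.d ω v - θp (ptr F J ω) * F.d ω u - cv (ptr F J ω) - bv (ptr F J ω) * F.d ω y) := by ring
  rw [e1]
  refine (abs_sub _ _).trans ?_
  linarith

end nd

/-- The times of the window. -/
theorem wt_mem (F : Fam m J) (w : ℕ) (ω : F.Ω) {σ : ℝ} (hσ : σ ∈ Set.Icc (0 : ℝ) 1) :
    wt F w ω σ ∈ Set.Icc (wt F w ω 0) (wt F w ω 1) := by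
  have pw : (0 : ℝ) < 1 / 2 ^ w := by positivity
  unfold wt
  constructor
  · have := mul_nonneg pw.le hσ.1
    linarith
  · have := mul_le_mul_of_nonneg_left hσ.2 pw.le
    linarith

theorem wt_ptr (F : Fam m J) {w : ℕ} {ω ω' : F.Ω} (hp : ptr F J ω = ptr F J ω') (σ : ℝ) :
    wt F w ω' σ = wt F w ω σ := by
  have hT : F.T ω = F.T ω' := congrArg (fun p : PtT F => p.2.1) hp
  have hT1 : (slam F w ω').2.2 = (slam F w ω).2.2 := by
    show F.T ω' / 2 ^ (J - w) = F.T ω / 2 ^ (J - w)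
    rw [hT]
  unfold wt
  rw [hT1]

theorem rt_ptr (F : Fam m J) {w : ℕ} {ω ω' : F.Ω} (hp : ptr F J ω = ptr F J ω') :
    rt F w ω' = rt F w ω := by
  have hT : F.T ω = F.T ω' := congrArg (fun p : PtT F => p.2.1) hp
  unfold rt
  rw [hT]

/-- The deviation of the other lines through the point. -/
theorem dl_wpt (F : Fam m J) {w : ℕ} {ω ω' : F.Ω}
    (hp : ptr F J ω = ptr F J ω') (σ : ℝ) (j : Fin m) :
    dl F ω (wpt F w ω' σ) j = wp F w ω' σ j - wp F w ω σ j := by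
  show wp F w ω' σ j - (F.u ω j + F.d ω j * wt F w ω' σ) = wp F w ω' σ j - wp F w ω σ j
  rw [wt_ptr F hp]
  rfl

theorem dl_mvp (F : Fam m J) (w : ℕ) (ω : F.Ω) (σ x : ℝ) (sl : Fin m → ℝ) (j : Fin m) :
    dl F ω (mvp (F.u ω) (F.d ω) sl (wt F w ω σ) x) j = sl j * x := by
  show F.u ω j + F.d ω j * wt F w ω σ + sl j * x - (F.u ω j + F.d ω j * wt F w ω σ) = _
  ring

theorem dl_dpt (F : Fam m J) {w : ℕ} (hw : w ≤ J) (ω : F.Ω) (j : Fin m) :
    |dl F ω (dpt (ptr F J ω)) j| ≤ 1 / 2 ^ J := by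
  have h1 := dpt_near F ω (some j)
  have h2 := wp_eq F hw ω (rt F w ω) j
  rw [sub_self, mul_zero, zero_mul, add_zero] at h2
  have h3 : wt F w ω (rt F w ω) = F.t ω := by
    rw [t_rt F hw]
    unfold wt
    ring
  have h4 : F.u ω j + F.d ω j * F.t ω = F.x ω j := by
    rw [← h2]
    unfold wp
    rw [h3]
  have e1 : dl F ω (dpt (ptr F J ω)) j = dpt (ptr F J ω) (some j) - F.x ω j := by
    unfold dl
    rw [dpt_none, h4]
  rw [e1]
  exact h1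

/-- The displacements of the lines through the point. -/
theorem dsp (F : Fam m J) {w : ℕ} (hw : w ≤ J) {ω ω' : F.Ω} (hp : ptr F J ω = ptr F J ω')
    {σ : ℝ} (hσ : σ ∈ Set.Icc (0 : ℝ) 1) (j : Fin m) : ∃ s r : ℝ, |s| ≤ 1 / 2 ^ J ∧
      |r| ≤ 1 / 2 ^ w ∧ s = F.x ω' j - F.x ω j ∧ r = 1 / 2 ^ w * (σ - rt F w ω) ∧
      wp F w ω' σ j - wp F w ω σ j = s + r * (F.d ω' j - F.d ω j) := by
  refine ⟨F.x ω' j - F.x ω j, 1 / 2 ^ w * (σ - rt F w ω), ptr_x F hp j, ?_, rfl, rfl, ?_⟩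
  · have h1 := rt_mem F w ω
    rw [abs_mul, abs_of_pos (by positivity : (0 : ℝ) < 1 / 2 ^ w)]
    refine mul_le_of_le_one_right (by positivity) ?_
    rw [abs_le]
    constructor <;> linarith [h1.1, h1.2, hσ.1, hσ.2]
  · rw [wp_eq F hw ω' σ j, wp_eq F hw ω σ j, rt_ptr F hp]
    ring

section box

variable {F : Fam m J} {A : F.Ω → Prop} {y u v : Fin m} {w e : ℕ}
  {au cu bv cv θp : PtT F → ℝ} {θs ju jv : LnT F → ℝ} {aU aD κ : ℝ}

/-- The three deviations. -/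
theorem ND.dev (h : ND F A y u v w e au cu bv cv θp θs ju jv aU aD κ) (hw : w ≤ J)
    (hκU : 2 ^ (w + e + 4) / 2 ^ J ≤ κ * aU) (hκD : 2 ^ (w + e + 4) / 2 ^ J ≤ κ * aD)
    {ω ω' : F.Ω} (hω : A ω) (hω' : A ω') (hp : ptr F J ω = ptr F J ω') {σ : ℝ}
    (hσ : σ ∈ Set.Icc (0 : ℝ) 1) : |wp F w ω' σ y - wp F w ω σ y| ≤ 3 / 2 ^ w ∧
      |(wp F w ω' σ u - wp F w ω σ u) - au (ptr F J ω) * (wp F w ω' σ y - wp F w ω σ y)| ≤
        1 / 2 ^ w * (3 * (κ * aU)) ∧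
      |(wp F w ω' σ v - wp F w ω σ v) - θp (ptr F J ω) * (wp F w ω' σ u - wp F w ω σ u) -
        bv (ptr F J ω) * (wp F w ω' σ y - wp F w ω σ y)| ≤ 1 / 2 ^ w * (3 * (κ * aD)) := by
  have pe : (1 : ℝ) ≤ 2 ^ e := one_le_pow₀ (by norm_num)
  have pw : (0 : ℝ) < 1 / 2 ^ w := by positivity
  have pJ : (0 : ℝ) < 1 / 2 ^ J := by positivity
  obtain ⟨sy, r, a1, a2, a3, a4, a5⟩ := dsp F hw hp hσ y
  obtain ⟨su, r', b1, b2, b3, b4, b5⟩ := dsp F hw hp hσ u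
  obtain ⟨sv, r'', c1, c2, c3, c4, c5⟩ := dsp F hw hp hσ v
  have hr' : r' = r := by rw [b4, a4]
  have hr'' : r'' = r := by rw [c4, a4]
  rw [hr'] at b5
  rw [hr''] at c5
  have hjunk : 2 ^ (w + e + 4) / (2 : ℝ) ^ J = 16 * 2 ^ e * (2 ^ w * (1 / 2 ^ J)) := by
    rw [pow_add, pow_add]
    ring
  rw [hjunk] at hκU hκD
  have hJw : (1 : ℝ) / 2 ^ J ≤ 1 / 2 ^ w := inv_mono hw
  have hdy : |F.d ω' y - F.d ω y| ≤ 2 := by
    have h1 := F.dir ω' y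
    have h2 := F.dir ω y
    have := abs_sub (F.d ω' y) (F.d ω y)
    linarith
  have hun : ∀ z : ℝ, 1 / 2 ^ w * (2 ^ w * z) = z := fun z => by field_simp
  refine ⟨?_, ?_, ?_⟩
  · rw [a5]
    have k1 : |r * (F.d ω' y - F.d ω y)| ≤ 1 / 2 ^ w * 2 := by
      rw [abs_mul]
      exact mul_le_mul a2 hdy (abs_nonneg _) pw.le
    refine (abs_add_le _ _).trans ((add_le_add (a1.trans hJw) k1).trans (le_of_eq ?_))
    ring
  · obtain ⟨a, ha⟩ : ∃ a, a = au (ptr F J ω) := ⟨_, rfl⟩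
    have k0 := h.two_u hω hω' hp
    have k9 := (h.hbu ω hω).1
    rw [← ha] at k0 k9 ⊢
    rw [b5, a5]
    have e1 : su + r * (F.d ω' u - F.d ω u) - a * (sy + r * (F.d ω' y - F.d ω y)) =
        (su - a * sy) + r * ((F.d ω' u - F.d ω u) - a * (F.d ω' y - F.d ω y)) := by ring
    rw [e1]
    have k1 : |r * ((F.d ω' u - F.d ω u) - a * (F.d ω' y - F.d ω y))| ≤
        1 / 2 ^ w * (2 * (κ * aU)) := by
      rw [abs_mul]
      exact mul_le_mul a2 k0 (abs_nonneg _) pw.le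
    have k2 : |a * sy| ≤ 2 ^ e * (1 / 2 ^ J) := by
      rw [abs_mul]
      exact mul_le_mul k9 a1 (abs_nonneg _) (by positivity)
    have k3 : |su - a * sy| ≤ 2 * 2 ^ e * (1 / 2 ^ J) := by
      refine (abs_sub _ _).trans ?_
      have : 1 * (1 / 2 ^ J) ≤ 2 ^ e * ((1 : ℝ) / 2 ^ J) := mul_le_mul_of_nonneg_right pe pJ.le
      linarith
    have k4 : 2 * 2 ^ e * (1 / 2 ^ J) ≤ 1 / 2 ^ w * (κ * aU) := by
      have k5 := mul_le_mul_of_nonneg_left hκU pw.le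
      have k6 : 1 / 2 ^ w * (16 * 2 ^ e * (2 ^ w * (1 / 2 ^ J))) =
          16 * 2 ^ e * ((1 : ℝ) / 2 ^ J) := by field_simp
      rw [k6] at k5
      have : (0 : ℝ) ≤ 2 ^ e * (1 / 2 ^ J) := by positivity
      linarith
    refine (abs_add_le _ _).trans ?_
    linarith
  · obtain ⟨b, hb⟩ : ∃ b, b = bv (ptr F J ω) := ⟨_, rfl⟩
    obtain ⟨t, ht⟩ : ∃ t, t = θp (ptr F J ω) := ⟨_, rfl⟩
    have k0 := h.two_v hω hω' hp
    have k9 := (h.hbv ω hω).1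
    have k8 := h.hθ ω hω
    rw [← hb] at k0 k9 ⊢
    rw [← ht] at k0 k8 ⊢
    rw [c5, b5, a5]
    have e1 : sv + r * (F.d ω' v - F.d ω v) - t * (su + r * (F.d ω' u - F.d ω u)) -
        b * (sy + r * (F.d ω' y - F.d ω y)) =
        (sv - t * su - b * sy) + r * ((F.d ω' v - F.d ω v) - t * (F.d ω' u - F.d ω u) -
          b * (F.d ω' y - F.d ω y)) := by ring
    rw [e1]
    have k1 : |r * ((F.d ω' v - F.d ω v) - t * (F.d ω' u - F.d ω u) -
          b * (F.d ω' y - F.d ω y))| ≤ 1 / 2 ^ w * (2 * (κ * aD)) := by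
      rw [abs_mul]
      exact mul_le_mul a2 k0 (abs_nonneg _) pw.le
    have k2 : |b * sy| ≤ 2 ^ e * (1 / 2 ^ J) := by
      rw [abs_mul]
      exact mul_le_mul k9 a1 (abs_nonneg _) (by positivity)
    have k2' : |t * su| ≤ 2 ^ e * (1 / 2 ^ J) := by
      rw [abs_mul]
      exact mul_le_mul k8 b1 (abs_nonneg _) (by positivity)
    have k3 : |sv - t * su - b * sy| ≤ 3 * 2 ^ e * (1 / 2 ^ J) := by
      have l1 := abs_sub (sv - t * su) (b * sy)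
      have l2 := abs_sub sv (t * su)
      have : 1 * (1 / 2 ^ J) ≤ 2 ^ e * ((1 : ℝ) / 2 ^ J) := mul_le_mul_of_nonneg_right pe pJ.le
      linarith
    have k4 : 3 * 2 ^ e * (1 / 2 ^ J) ≤ 1 / 2 ^ w * (κ * aD) := by
      have k5 := mul_le_mul_of_nonneg_left hκD pw.le
      have k6 : 1 / 2 ^ w * (16 * 2 ^ e * (2 ^ w * (1 / 2 ^ J))) =
          16 * 2 ^ e * ((1 : ℝ) / 2 ^ J) := by field_simp
      rw [k6] at k5
      have : (0 : ℝ) ≤ 2 ^ e * (1 / 2 ^ J) := by positivity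
      linarith
    refine (abs_add_le _ _).trans ?_
    linarith

/-- The points of the other lines are in the natural box. -/
theorem ND.mem_wpt (h : ND F A y u v w e au cu bv cv θp θs ju jv aU aD κ) (hw : w ≤ J)
    (hκU : 2 ^ (w + e + 4) / 2 ^ J ≤ κ * aU) (hκD : 2 ^ (w + e + 4) / 2 ^ J ≤ κ * aD)
    (hU : 0 < aU) (hD : 0 < aD) (hκ : 3 * κ ≤ 1) {ω ω' : F.Ω} (hω : A ω) (hω' : A ω')
    (hp : ptr F J ω = ptr F J ω') {σ : ℝ} (hσ : σ ∈ Set.Icc (0 : ℝ) 1) :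
    NB3 F w y u v (au (ptr F J ω)) (bv (ptr F J ω)) (θp (ptr F J ω)) aU aD ω
      (wpt F w ω' σ) := by
  have pw : (0 : ℝ) < 1 / 2 ^ w := by positivity
  obtain ⟨a1, a2, a3⟩ := h.dev hw hκU hκD hω hω' hp hσ
  refine ⟨?_, ?_, ?_, ?_⟩
  · show wt F w ω' σ ∈ _
    rw [wt_ptr F hp]
    exact wt_mem F w ω hσ
  · rw [dl_wpt F hp]
    exact a1
  · rw [dl_wpt F hp, dl_wpt F hp]
    refine a2.trans (mul_le_mul_of_nonneg_left ?_ pw.le)
    have := mul_le_mul_of_nonneg_right hκ hU.le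
    linarith
  · rw [dl_wpt F hp, dl_wpt F hp, dl_wpt F hp]
    refine a3.trans (mul_le_mul_of_nonneg_left ?_ pw.le)
    have := mul_le_mul_of_nonneg_right hκ hD.le
    linarith

/-- The points of the plane are in the natural box. -/
theorem mem_mvp (hyu : y ≠ u) (hyv : y ≠ v) (huv : u ≠ v) (hU : 0 < aU) (hD : 0 < aD)
    (ω : F.Ω) {a b t x : ℝ} (hx : |x| ≤ 3 / 2 ^ w) {σ : ℝ} (hσ : σ ∈ Set.Icc (0 : ℝ) 1) :
    NB3 F w y u v a b t aU aD ω
      (mvp (F.u ω) (F.d ω) (sl3 y u v a (b + t * a)) (wt F w ω σ) x) := by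
  have pw : (0 : ℝ) < 1 / 2 ^ w := by positivity
  have hsy : sl3 y u v a (b + t * a) y = 1 := if_pos rfl
  have hsu : sl3 y u v a (b + t * a) u = a := by
    show (if u = y then (1 : ℝ) else if u = u then a else _) = a
    rw [if_neg (Ne.symm hyu), if_pos rfl]
  have hsv : sl3 y u v a (b + t * a) v = b + t * a := by
    show (if v = y then (1 : ℝ) else if v = u then a else if v = v then _ else _) = _
    rw [if_neg (Ne.symm hyv), if_neg (Ne.symm huv), if_pos rfl]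
  refine ⟨wt_mem F w ω hσ, ?_, ?_, ?_⟩
  · rw [dl_mvp, hsy, one_mul]
    exact hx
  · rw [dl_mvp, dl_mvp, hsy, hsu]
    have e1 : a * x - a * (1 * x) = 0 := by ring
    rw [e1, abs_zero]
    positivity
  · rw [dl_mvp, dl_mvp, dl_mvp, hsy, hsu, hsv]
    have e1 : (b + t * a) * x - t * (a * x) - b * (1 * x) = 0 := by ring
    rw [e1, abs_zero]
    positivity

/-- The exact point is in the natural box. -/
theorem ND.mem_dpt (h : ND F A y u v w e au cu bv cv θp θs ju jv aU aD κ) (hw : w ≤ J)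
    (hκU : 2 ^ (w + e + 4) / 2 ^ J ≤ κ * aU) (hκD : 2 ^ (w + e + 4) / 2 ^ J ≤ κ * aD)
    (hU : 0 < aU) (hD : 0 < aD) (hκ : 3 * κ ≤ 1) {ω : F.Ω} (hω : A ω) :
    NB3 F w y u v (au (ptr F J ω)) (bv (ptr F J ω)) (θp (ptr F J ω)) aU aD ω
      (dpt (ptr F J ω)) := by
  have pe : (1 : ℝ) ≤ 2 ^ e := one_le_pow₀ (by norm_num)
  have pw : (0 : ℝ) < 1 / 2 ^ w := by positivity
  have pJ : (0 : ℝ) < 1 / 2 ^ J := by positivity
  have hy := dl_dpt F hw ω y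
  have hu := dl_dpt F hw ω u
  have hv := dl_dpt F hw ω v
  have hjunk : 2 ^ (w + e + 4) / (2 : ℝ) ^ J = 16 * 2 ^ e * (2 ^ w * (1 / 2 ^ J)) := by
    rw [pow_add, pow_add]
    ring
  rw [hjunk] at hκU hκD
  have hJw : (1 : ℝ) / 2 ^ J ≤ 1 / 2 ^ w := inv_mono hw
  have hone : 1 * (1 / 2 ^ J) ≤ 2 ^ e * ((1 : ℝ) / 2 ^ J) := mul_le_mul_of_nonneg_right pe pJ.le
  have key : ∀ a : ℝ, 0 < a → 16 * 2 ^ e * (2 ^ w * (1 / 2 ^ J)) ≤ κ * a →
      3 * 2 ^ e * (1 / 2 ^ J) ≤ 1 / 2 ^ w * a := by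
    intro a ha h1
    have k5 := mul_le_mul_of_nonneg_left h1 pw.le
    have k6 : 1 / 2 ^ w * (16 * 2 ^ e * (2 ^ w * (1 / 2 ^ J))) =
        16 * 2 ^ e * ((1 : ℝ) / 2 ^ J) := by field_simp
    rw [k6] at k5
    have k7 : 1 / 2 ^ w * (κ * a) ≤ 1 / 2 ^ w * a := by
      refine mul_le_mul_of_nonneg_left ?_ pw.le
      have := mul_le_mul_of_nonneg_right hκ ha.le
      linarith
    have : (0 : ℝ) ≤ 2 ^ e * (1 / 2 ^ J) := by positivity
    linarith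
  refine ⟨?_, ?_, ?_, ?_⟩
  · rw [dpt_none]
    have h3 : F.t ω = wt F w ω (rt F w ω) := by
      rw [t_rt F hw]
      unfold wt
      ring
    rw [h3]
    exact wt_mem F w ω (rt_mem F w ω)
  · refine (hy.trans hJw).trans ?_
    rw [div_eq_mul_one_div (3 : ℝ)]
    linarith
  · refine (abs_sub _ _).trans ?_
    have k1 : |au (ptr F J ω) * dl F ω (dpt (ptr F J ω)) y| ≤ 2 ^ e * (1 / 2 ^ J) := by
      rw [abs_mul]
      exact mul_le_mul (h.hbu ω hω).1 hy (abs_nonneg _) (by positivity)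
    have := key aU hU hκU
    have : (0 : ℝ) ≤ 2 ^ e * (1 / 2 ^ J) := by positivity
    linarith
  · refine (abs_sub _ _).trans ?_
    have k1 : |bv (ptr F J ω) * dl F ω (dpt (ptr F J ω)) y| ≤ 2 ^ e * (1 / 2 ^ J) := by
      rw [abs_mul]
      exact mul_le_mul (h.hbv ω hω).1 hy (abs_nonneg _) (by positivity)
    have k2 : |θp (ptr F J ω) * dl F ω (dpt (ptr F J ω)) u| ≤ 2 ^ e * (1 / 2 ^ J) := by
      rw [abs_mul]
      exact mul_le_mul (h.hθ ω hω) hu (abs_nonneg _) (by positivity)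
    have := key aD hD hκD
    have k4 := abs_sub (dl F ω (dpt (ptr F J ω)) v)
      (θp (ptr F J ω) * dl F ω (dpt (ptr F J ω)) u)
    linarith

end box

end Pool.JVE
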