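import Pool.Agent.H62.AFN.Stp
import Pool.Agent.H62.AFN.Lgx
import Pool.Agent.H2.GEN.ChG
import Pool.Agent.H45.EXA.Nfm

/-!
# Second derivatives on the natural boxes from the values

`NBR`: the natural box with a parameter `R` for its size. `hn_of`: if a polynomial is near to an
affine one on the natural box, its second derivatives in natural directions are small.
`ray_gr`: the growth along a ray.
-/

set_option autoImplicit false

namespace Pool.JVE

open Finset MvPolynomial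
open Pool.Agent.H49.Ent Pool.Agent.H32.Dense Pool.STK Pool.KA Pool.KSAT Pool.K2S Pool.PB Pool.GEN
open Pool.MIC6 (mvp wt wp wpt wp_eq)
open Pool.PB.Trl (rt rt_mem t_rt)
open Pool.D2R (hs dd der_curve hs_comm hs_add_left hs_add_right hs_smul_left hs_smul_right)

variable {m J : ℕ}

/-- **The natural box**, with the size `R`. -/
structure NBR (F : Fam m J) (w : ℕ) (y u v : Fin m) (a b t aU aD R : ℝ) (ω : F.Ω)
    (x : Option (Fin m) → ℝ) : Prop where
  tm : |x none - F.t ω| ≤ R / 2 ^ w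
  ny : |dl F ω x y| ≤ R / 2 ^ w
  nu : |dl F ω x u - a * dl F ω x y| ≤ R / 2 ^ w * aU
  nv : |dl F ω x v - t * dl F ω x u - b * dl F ω x y| ≤ R / 2 ^ w * aD

theorem NB3.nbr {F : Fam m J} {w : ℕ} (hw : w ≤ J) {y u v : Fin m} {a b t aU aD : ℝ} {ω : F.Ω}
    {x : Option (Fin m) → ℝ} (hU : 0 ≤ aU) (hD : 0 ≤ aD) (h : NB3 F w y u v a b t aU aD ω x) :
    NBR F w y u v a b t aU aD 3 ω x := by
  have pw : (0 : ℝ) < 1 / 2 ^ w := by positivity
  have e3 : (3 : ℝ) / 2 ^ w = 3 * (1 / 2 ^ w) := by ring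
  have h3 : (1 : ℝ) / 2 ^ w ≤ 3 / 2 ^ w := by
    rw [e3]
    linarith
  refine ⟨?_, h.ny, h.nu.trans (mul_le_mul_of_nonneg_right h3 hU),
    h.nv.trans (mul_le_mul_of_nonneg_right h3 hD)⟩
  have h1 : F.t ω = wt F w ω (rt F w ω) := by
    rw [t_rt F hw]
    unfold wt
    ring
  have h2 := wt_mem F w ω (rt_mem F w ω)
  have h4 := h.tm
  have h5 : wt F w ω 1 - wt F w ω 0 = 1 / 2 ^ w := by
    unfold wt
    ring
  rw [h1]
  refine le_trans ?_ h3
  rw [abs_le]
  constructor <;> linarith [h2.1, h2.2, h4.1, h4.2]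

theorem dl_add (F : Fam m J) (ω : F.Ω) (x Δ : Option (Fin m) → ℝ) (j : Fin m) :
    dl F ω (x + Δ) j = dl F ω x j + (Δ (some j) - F.d ω j * Δ none) := by
  unfold dl
  simp only [Pi.add_apply]
  ring

/-- A combination of the natural directions. -/
noncomputable def cmb (F : Fam m J) (y u v : Fin m) (a b t aU aD : ℝ) (ω : F.Ω) (r : Fin 4 → ℝ) :
    Option (Fin m) → ℝ :=
  ∑ j, r j • nd4 F y u v a b t aU aD ω j

theorem NBR.cmb {F : Fam m J} {w : ℕ} {y u v : Fin m} (hyu : y ≠ u) (hyv : y ≠ v) (huv : u ≠ v)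
    {a b t aU aD R : ℝ} {ω : F.Ω} {x : Option (Fin m) → ℝ} (hU : 0 ≤ aU) (hD : 0 ≤ aD)
    (h : NBR F w y u v a b t aU aD R ω x) {r : Fin 4 → ℝ} {R' : ℝ}
    (hr : ∀ j, |r j| ≤ R' / 2 ^ w) :
    NBR F w y u v a b t aU aD (R + R') ω (x + cmb F y u v a b t aU aD ω r) := by
  obtain ⟨Δ, hΔ⟩ : ∃ Δ, Δ = Pool.JVE.cmb F y u v a b t aU aD ω r := ⟨_, rfl⟩
  have hΔ' : Δ = r 0 • bd F ω + r 1 • svc (sl3 y u v a (b + t * a)) + r 2 • (aU • eu u v t) +
      r 3 • (aD • ev v) := by
    rw [hΔ]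
    unfold Pool.JVE.cmb
    rw [Fin.sum_univ_four]
    rfl
  have hsy : svc (sl3 y u v a (b + t * a)) (some y) = 1 := if_pos rfl
  have hsu : svc (sl3 y u v a (b + t * a)) (some u) = a := by
    show (if u = y then (1 : ℝ) else if u = u then a else _) = a
    rw [if_neg (Ne.symm hyu), if_pos rfl]
  have hsv : svc (sl3 y u v a (b + t * a)) (some v) = b + t * a := by
    show (if v = y then (1 : ℝ) else if v = u then a else if v = v then _ else _) = _
    rw [if_neg (Ne.symm hyv), if_neg (Ne.symm huv), if_pos rfl]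
  have huy : eu u v t (some y) = 0 := by
    show (if y = u then (1 : ℝ) else if y = v then t else 0) = 0
    rw [if_neg hyu, if_neg hyv]
  have huu : eu u v t (some u) = 1 := by
    show (if u = u then (1 : ℝ) else _) = 1
    rw [if_pos rfl]
  have huv' : eu u v t (some v) = t := by
    show (if v = u then (1 : ℝ) else if v = v then t else 0) = t
    rw [if_neg (Ne.symm huv), if_pos rfl]
  have hvy : ev v (some y) = 0 := by
    show (if y = v then (1 : ℝ) else 0) = 0
    rw [if_neg hyv]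
  have hvu : ev v (some u) = 0 := by
    show (if u = v then (1 : ℝ) else 0) = 0
    rw [if_neg huv]
  have hvv : ev v (some v) = 1 := by
    show (if v = v then (1 : ℝ) else 0) = 1
    rw [if_pos rfl]
  have hbn : bd F ω none = 1 := rfl
  have hbj : ∀ j, bd F ω (some j) = F.d ω j := fun _ => rfl
  have hsn : svc (sl3 y u v a (b + t * a)) none = 0 := rfl
  have hun : eu u v t none = 0 := rfl
  have hvn : ev v none = 0 := rfl
  have e0 : Δ none = r 0 := by
    rw [hΔ']
    simp only [Pi.add_apply, Pi.smul_apply, smul_eq_mul]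
    rw [hbn, hsn, hun, hvn]
    ring
  have ey : Δ (some y) - F.d ω y * Δ none = r 1 := by
    rw [e0, hΔ']
    simp only [Pi.add_apply, Pi.smul_apply, smul_eq_mul]
    rw [hbj, hsy, huy, hvy]
    ring
  have eu' : Δ (some u) - F.d ω u * Δ none = r 1 * a + r 2 * aU := by
    rw [e0, hΔ']
    simp only [Pi.add_apply, Pi.smul_apply, smul_eq_mul]
    rw [hbj, hsu, huu, hvu]
    ring
  have ev' : Δ (some v) - F.d ω v * Δ none = r 1 * (b + t * a) + r 2 * (aU * t) + r 3 * aD := by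
    rw [e0, hΔ']
    simp only [Pi.add_apply, Pi.smul_apply, smul_eq_mul]
    rw [hbj, hsv, huv', hvv]
    ring
  rw [← hΔ]
  have hR : (R + R') / 2 ^ w = R / 2 ^ w + R' / 2 ^ w := by ring
  refine ⟨?_, ?_, ?_, ?_⟩
  · rw [Pi.add_apply, e0, hR]
    have e1 : x none + r 0 - F.t ω = (x none - F.t ω) + r 0 := by ring
    rw [e1]
    exact (abs_add_le _ _).trans (add_le_add h.tm (hr 0))
  · rw [dl_add, ey, hR]
    exact (abs_add_le _ _).trans (add_le_add h.ny (hr 1))
  · rw [dl_add, dl_add, ey, eu', hR, add_mul]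
    have e1 : dl F ω x u + (r 1 * a + r 2 * aU) - a * (dl F ω x y + r 1) =
        (dl F ω x u - a * dl F ω x y) + r 2 * aU := by ring
    rw [e1]
    refine (abs_add_le _ _).trans (add_le_add h.nu ?_)
    rw [abs_mul, abs_of_nonneg hU]
    exact mul_le_mul_of_nonneg_right (hr 2) hU
  · rw [dl_add, dl_add, dl_add, ey, eu', ev', hR, add_mul]
    have e1 : dl F ω x v + (r 1 * (b + t * a) + r 2 * (aU * t) + r 3 * aD) -
        t * (dl F ω x u + (r 1 * a + r 2 * aU)) - b * (dl F ω x y + r 1) =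
        (dl F ω x v - t * dl F ω x u - b * dl F ω x y) + r 3 * aD := by ring
    rw [e1]
    refine (abs_add_le _ _).trans (add_le_add h.nv ?_)
    rw [abs_mul, abs_of_nonneg hD]
    exact mul_le_mul_of_nonneg_right (hr 3) hD

theorem lnp_deg (x Δ : Option (Fin m) → ℝ) (o : Option (Fin m)) : (lnp x Δ o).natDegree ≤ 1 := by
  unfold lnp
  refine (Polynomial.natDegree_add_le _ _).trans (max_le ?_ ?_)
  · rw [Polynomial.natDegree_C]
    exact Nat.zero_le _
  · refine Polynomial.natDegree_mul_le.trans ?_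
    rw [Polynomial.natDegree_C, zero_add]
    exact Polynomial.natDegree_X_le

theorem deg_lnp {G : MvPolynomial (Option (Fin m)) ℝ} {K : ℕ} (h : G.totalDegree ≤ K)
    (x Δ : Option (Fin m) → ℝ) : (MvPolynomial.aeval (lnp x Δ) G).natDegree ≤ K := by
  have h1 := Pool.CHT.natDegree_aeval_mul G (lnp x Δ) (E := 1) (lnp_deg x Δ) h
  rwa [mul_one] at h1

theorem der2_lnp (x Δ : Option (Fin m) → ℝ) (R : MvPolynomial (Option (Fin m)) ℝ) :
    (Polynomial.derivative (Polynomial.derivative (MvPolynomial.aeval (lnp x Δ) R))).eval 0 =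
      hs R x Δ Δ := by
  have hd : ∀ o, Polynomial.derivative (lnp x Δ o) = Polynomial.C (Δ o) := by
    intro o
    unfold lnp
    simp only [Polynomial.derivative_add, Polynomial.derivative_C, Polynomial.derivative_mul,
      Polynomial.derivative_X]
    ring
  have h1 := (der_curve (lnp x Δ) (x := x) (V := Δ) (Z := 0) (s := 0)
    (fun o => by
      have h2 := congrFun (eval_lnp x Δ 0) o
      rw [zero_smul, add_zero] at h2
      exact h2) (fun o => by rw [hd, Polynomial.eval_C])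
    (fun o => by rw [hd, Polynomial.derivative_C, Polynomial.eval_zero]; rfl) R).2
  rw [h1]
  have h3 : dd R x 0 = 0 := by
    unfold dd
    refine Finset.sum_eq_zero fun o _ => ?_
    rw [Pi.zero_apply]
    ring
  rw [h3, add_zero]

theorem ev2 (q : Polynomial ℝ) :
    (Polynomial.derivative (Polynomial.derivative q)).eval 0 = 2 * q.coeff 2 := by
  rw [← Polynomial.coeff_zero_eq_eval_zero, Polynomial.coeff_derivative,
    Polynomial.coeff_derivative]
  push_cast
  ring

/-- The polar form. -/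
theorem hs_pol (R : MvPolynomial (Option (Fin m)) ℝ) (x V W : Option (Fin m) → ℝ) :
    hs R x V W = (hs R x (V + W) (V + W) - hs R x (V + (-1 : ℝ) • W) (V + (-1 : ℝ) • W)) / 4 := by
  rw [hs_add_left, hs_add_left, hs_add_right, hs_add_right, hs_add_right, hs_add_right,
    hs_smul_left, hs_smul_left, hs_smul_right, hs_smul_right, hs_comm R x W V]
  ring

/-- **The second derivatives from the values.** -/
theorem hs_sup (K : ℕ) : ∃ C : ℝ, 1 ≤ C ∧ ∀ {m : ℕ} (R : MvPolynomial (Option (Fin m)) ℝ)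
    (x V W : Option (Fin m) → ℝ) (S : ℝ), R.totalDegree ≤ K →
    (∀ s ∈ Set.Icc (0 : ℝ) 1, |eval (x + s • (V + W)) R| ≤ S ∧
      |eval (x + s • (V + (-1 : ℝ) • W)) R| ≤ S) → |hs R x V W| ≤ C * S := by
  obtain ⟨C, hC, h⟩ := Pool.Agent.H40.FR.unit_coef K
  refine ⟨C, hC, ?_⟩
  intro m R x V W S hR hS
  have key : ∀ Δ : Option (Fin m) → ℝ, (∀ s ∈ Set.Icc (0 : ℝ) 1, |eval (x + s • Δ) R| ≤ S) →
      |hs R x Δ Δ| ≤ 2 * (C * S) := by
    intro Δ hΔ
    rw [← der2_lnp, ev2, abs_mul, abs_of_pos (by norm_num : (0 : ℝ) < 2)]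
    refine mul_le_mul_of_nonneg_left (h _ S (deg_lnp hR x Δ) (fun s hs' => ?_) 2) (by norm_num)
    rw [Pool.KBX.eval_aeval_poly, eval_lnp]
    exact hΔ s hs'
  have h1 := key (V + W) fun s hs' => (hS s hs').1
  have h2 := key (V + (-1 : ℝ) • W) fun s hs' => (hS s hs').2
  rw [hs_pol, abs_div, abs_of_pos (by norm_num : (0 : ℝ) < 4), div_le_iff₀ (by norm_num)]
  refine (abs_sub _ _).trans ?_
  linarith

/-- The second derivatives of an affine polynomial vanish. -/
theorem hs_aff {R : MvPolynomial (Option (Fin m)) ℝ} (hR : R.totalDegree ≤ 1)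
    (x V W : Option (Fin m) → ℝ) : hs R x V W = 0 := by
  have key : ∀ Δ : Option (Fin m) → ℝ, hs R x Δ Δ = 0 := by
    intro Δ
    rw [← der2_lnp, ev2, Polynomial.coeff_eq_zero_of_natDegree_lt, mul_zero]
    exact lt_of_le_of_lt (deg_lnp hR x Δ) (by norm_num)
  rw [hs_pol, key, key]
  ring

/-- **Growth along a ray.** -/
theorem ray_gr (K : ℕ) : ∃ C : ℝ, 1 ≤ C ∧ ∀ {m : ℕ} (R : MvPolynomial (Option (Fin m)) ℝ)
    (x z : Option (Fin m) → ℝ) (S : ℝ) (n : ℕ), R.totalDegree ≤ K →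
    (∀ s ∈ Set.Icc (0 : ℝ) 1, |eval (x + (s / 2 ^ n) • (z - x)) R| ≤ S) →
    |eval z R| ≤ C * 2 ^ (n * K) * S := by
  obtain ⟨C, hC, h⟩ := Pool.CHT.grow_one K
  refine ⟨C, hC, ?_⟩
  intro m R x z S n hR hS
  have h1 := h (MvPolynomial.aeval (lnp x (z - x)) R) S n K (deg_lnp hR _ _) le_rfl
    (fun s hs' => by
      rw [Pool.KBX.eval_aeval_poly, eval_lnp]
      exact hS s hs')
  rw [Pool.KBX.eval_aeval_poly, eval_lnp, one_smul, add_sub_cancel] at h1
  exact h1

/-- **The second derivatives on the natural box.** -/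
theorem hn_of (K : ℕ) : ∃ C : ℝ, 1 ≤ C ∧ ∀ {m J : ℕ} (F : Fam m J) {w : ℕ} (_ : w ≤ J)
    {y u v : Fin m} (_ : y ≠ u) (_ : y ≠ v) (_ : u ≠ v) {a b t aU aD : ℝ} {ω : F.Ω}
    (_ : 0 ≤ aU) (_ : 0 ≤ aD) {G A₀ : MvPolynomial (Option (Fin m)) ℝ} {S : ℝ},
    G.totalDegree ≤ K → A₀.totalDegree ≤ 1 →
    (∀ x, NBR F w y u v a b t aU aD 5 ω x → |eval x (G - A₀)| ≤ S) →
    ∀ x, NB3 F w y u v a b t aU aD ω x → ∀ i,
      (1 / 2 ^ w) ^ 2 * |hs G x (nd4 F y u v a b t aU aD ω i) (aU • eu u v t)| ≤ C * S ∧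
      (1 / 2 ^ w) ^ 2 * |hs G x (nd4 F y u v a b t aU aD ω i) (aD • ev v)| ≤ C * S := by
  classical
  obtain ⟨C, hC, h⟩ := hs_sup (max K 1)
  refine ⟨C, hC, ?_⟩
  intro m J F w hw y u v hyu hyv huv a b t aU aD ω hU hD G A₀ S hG hA₀ hS x hx i
  have pw : (0 : ℝ) < 1 / 2 ^ w := by positivity
  have hx3 := hx.nbr hw hU hD
  have hdeg : (G - A₀).totalDegree ≤ max K 1 :=
    (totalDegree_sub _ _).trans (max_le_max hG hA₀)
  have key : ∀ l, (1 / 2 ^ w) ^ 2 * |hs G x (nd4 F y u v a b t aU aD ω i)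
      (nd4 F y u v a b t aU aD ω l)| ≤ C * S := by
    intro l
    have e1 : (1 / 2 ^ w) ^ 2 * |hs G x (nd4 F y u v a b t aU aD ω i)
        (nd4 F y u v a b t aU aD ω l)| =
        |hs (G - A₀) x ((1 / 2 ^ w : ℝ) • nd4 F y u v a b t aU aD ω i)
          ((1 / 2 ^ w : ℝ) • nd4 F y u v a b t aU aD ω l)| := by
      have e2 : ∀ V W, hs (G - A₀) x V W = hs G x V W := by
        intro V W
        rw [Pool.D2R.hs_sub, hs_aff hA₀, sub_zero]
      rw [e2, hs_smul_left, hs_smul_right, abs_mul, abs_mul, abs_of_pos pw]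
      ring
    rw [e1]
    refine h _ x _ _ S hdeg fun s hs' => ?_
    have hcmb : ∀ ε : ℝ, |ε| ≤ 1 → x + s • ((1 / 2 ^ w : ℝ) • nd4 F y u v a b t aU aD ω i +
        ε • ((1 / 2 ^ w : ℝ) • nd4 F y u v a b t aU aD ω l)) =
        x + cmb F y u v a b t aU aD ω (fun j => s * (1 / 2 ^ w) * ((if j = i then 1 else 0) +
          ε * (if j = l then 1 else 0))) := by
      intro ε _
      congr 1
      unfold cmb
      have e4 : ∀ j, (s * (1 / 2 ^ w) * ((if j = i then (1 : ℝ) else 0) +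
          ε * (if j = l then 1 else 0))) • nd4 F y u v a b t aU aD ω j =
          (if j = i then (s * (1 / 2 ^ w)) • nd4 F y u v a b t aU aD ω j else 0) +
          (if j = l then (s * (1 / 2 ^ w) * ε) • nd4 F y u v a b t aU aD ω j else 0) := by
        intro j
        split_ifs <;> simp [mul_add, add_smul]
      rw [Finset.sum_congr rfl fun j _ => e4 j, Finset.sum_add_distrib, Finset.sum_ite_eq',
        Finset.sum_ite_eq', if_pos (Finset.mem_univ _), if_pos (Finset.mem_univ _), smul_add,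
        smul_smul, smul_smul, smul_smul]
      congr 2
      ring
    have hbox : ∀ ε : ℝ, |ε| ≤ 1 → NBR F w y u v a b t aU aD 5 ω
        (x + s • ((1 / 2 ^ w : ℝ) • nd4 F y u v a b t aU aD ω i +
          ε • ((1 / 2 ^ w : ℝ) • nd4 F y u v a b t aU aD ω l))) := by
      intro ε hε
      rw [hcmb ε hε]
      have e5 : (5 : ℝ) = 3 + 2 := by norm_num
      rw [e5]
      refine hx3.cmb hyu hyv huv hU hD fun j => ?_
      rw [abs_mul, abs_mul, abs_of_nonneg hs'.1, abs_of_pos pw]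
      have e6 : |(if j = i then (1 : ℝ) else 0) + ε * (if j = l then 1 else 0)| ≤ 2 := by
        refine (abs_add_le _ _).trans ?_
        have h7 : |(if j = i then (1 : ℝ) else 0)| ≤ 1 := by
          split_ifs
          · rw [abs_one]
          · rw [abs_zero]
            norm_num
        have h8 : |ε * (if j = l then (1 : ℝ) else 0)| ≤ 1 := by
          split_ifs
          · rw [mul_one]
            exact hε
          · rw [mul_zero, abs_zero]
            norm_num
        linarith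
      have e7 : (2 : ℝ) / 2 ^ w = 1 * (1 / 2 ^ w) * 2 := by ring
      rw [e7]
      exact mul_le_mul (mul_le_mul_of_nonneg_right hs'.2 pw.le) e6 (abs_nonneg _) (by positivity)
    have h1 := hbox 1 (by rw [abs_one])
    have h2 := hbox (-1) (by rw [abs_neg, abs_one])
    rw [one_smul] at h1
    exact ⟨hS _ h1, hS _ h2⟩
  exact ⟨key 2, key 3⟩

end Pool.JVE
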