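import Pool.Agent.H62.AFN.Nbr

/-!
# The start

`hn_sta`: the second derivatives of a closed label in natural directions, from the bound of its
gradient.
-/

set_option autoImplicit false

namespace Pool.JVE

open Finset MvPolynomial
open Pool.Agent.H49.Ent Pool.Agent.H32.Dense Pool.STK Pool.KA Pool.KSAT Pool.K2S Pool.PB Pool.GEN

variable {m J : ℕ}

/-- The points of the natural box are near to the own point. -/
theorem nbr_near {F : Fam m J} {w e : ℕ} {y u v : Fin m} {a b t aU aD : ℝ} {ω : F.Ω}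
    (ha : |a| ≤ 2 ^ e) (hb : |b| ≤ 2 ^ e) (ht : |t| ≤ 2 ^ e) (hU1 : aU ≤ 1) (hD1 : aD ≤ 1)
    {q : Option (Fin m) → ℝ} (h : NBR F w y u v a b t aU aD 5 ω q) :
    |q none - bt F ω none| ≤ 2 ^ (2 * e + 5) / 2 ^ w ∧
      |q (some y) - bt F ω (some y)| ≤ 2 ^ (2 * e + 5) / 2 ^ w ∧
      |q (some u) - bt F ω (some u)| ≤ 2 ^ (2 * e + 5) / 2 ^ w ∧
      |q (some v) - bt F ω (some v)| ≤ 2 ^ (2 * e + 5) / 2 ^ w := by
  obtain ⟨T, hT⟩ : ∃ T : ℝ, T = 2 ^ e := ⟨_, rfl⟩
  obtain ⟨r, hr⟩ : ∃ r : ℝ, r = 5 / 2 ^ w := ⟨_, rfl⟩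
  have hT1 : 1 ≤ T := by rw [hT]; exact one_le_pow₀ (by norm_num)
  have hr0 : 0 < r := by rw [hr]; positivity
  have hT2 : T ≤ T * T := le_mul_of_one_le_left (by linarith) hT1
  have htm : |q none - F.t ω| ≤ r := by rw [hr]; exact h.tm
  have hny : |dl F ω q y| ≤ r := by rw [hr]; exact h.ny
  have hnu : |dl F ω q u - a * dl F ω q y| ≤ r := by
    rw [hr]
    exact h.nu.trans (mul_le_of_le_one_right (by positivity) hU1)
  have hnv : |dl F ω q v - t * dl F ω q u - b * dl F ω q y| ≤ r := by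
    rw [hr]
    exact h.nv.trans (mul_le_of_le_one_right (by positivity) hD1)
  rw [← hT] at ha hb ht
  have hbd : (5 * (T * T)) * r ≤ 2 ^ (2 * e + 5) / 2 ^ w := by
    have e1 : (2 : ℝ) ^ (2 * e + 5) = T * T * 32 := by
      rw [hT, pow_add, two_mul, pow_add]
      norm_num
    rw [e1, hr, mul_div_assoc']
    refine div_le_div_of_nonneg_right ?_ (by positivity)
    have : 0 ≤ T * T := by positivity
    linarith
  have hj : ∀ j, q (some j) - bt F ω (some j) = dl F ω q j + F.d ω j * (q none - F.t ω) := by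
    intro j
    have h2 : bt F ω (some j) = F.u ω j + F.t ω * F.d ω j := rfl
    rw [h2]
    unfold dl
    ring
  have hd : ∀ j, |F.d ω j * (q none - F.t ω)| ≤ r := by
    intro j
    rw [abs_mul]
    exact (mul_le_of_le_one_left (abs_nonneg _) (F.dir ω j)).trans htm
  have hdu : |dl F ω q u| ≤ (1 + T) * r := by
    have e1 : dl F ω q u = (dl F ω q u - a * dl F ω q y) + a * dl F ω q y := by ring
    rw [e1]
    refine (abs_add_le _ _).trans ?_
    have h3 : |a * dl F ω q y| ≤ T * r := by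
      rw [abs_mul]
      exact mul_le_mul ha hny (abs_nonneg _) (by linarith)
    linarith
  have hdv : |dl F ω q v| ≤ (1 + 2 * T + T * T) * r := by
    have e1 : dl F ω q v = (dl F ω q v - t * dl F ω q u - b * dl F ω q y) +
        (t * dl F ω q u + b * dl F ω q y) := by ring
    rw [e1]
    refine (abs_add_le _ _).trans ?_
    have h3 : |b * dl F ω q y| ≤ T * r := by
      rw [abs_mul]
      exact mul_le_mul hb hny (abs_nonneg _) (by linarith)
    have h4 : |t * dl F ω q u| ≤ T * ((1 + T) * r) := by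
      rw [abs_mul]
      exact mul_le_mul ht hdu (abs_nonneg _) (by linarith)
    have h5 := abs_add_le (t * dl F ω q u) (b * dl F ω q y)
    have e2 : (1 + 2 * T + T * T) * r = r + (T * ((1 + T) * r) + T * r) := by ring
    rw [e2]
    linarith
  refine ⟨?_, ?_, ?_, ?_⟩
  · refine htm.trans (le_trans ?_ hbd)
    exact le_mul_of_one_le_left hr0.le (by linarith)
  · rw [hj]
    refine (abs_add_le _ _).trans ((add_le_add hny (hd y)).trans (le_trans ?_ hbd))
    have : 2 * r ≤ (5 * (T * T)) * r := mul_le_mul_of_nonneg_right (by linarith) hr0.le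
    linarith
  · rw [hj]
    refine (abs_add_le _ _).trans ((add_le_add hdu (hd u)).trans (le_trans ?_ hbd))
    have : (2 + T) * r ≤ (5 * (T * T)) * r := mul_le_mul_of_nonneg_right (by linarith) hr0.le
    linarith
  · rw [hj]
    refine (abs_add_le _ _).trans ((add_le_add hdv (hd v)).trans (le_trans ?_ hbd))
    have : (2 + 2 * T + T * T) * r ≤ (5 * (T * T)) * r :=
      mul_le_mul_of_nonneg_right (by linarith) hr0.le
    linarith

/-- **The start.** -/
theorem hn_sta (m K : ℕ) : ∃ C : ℝ, 1 ≤ C ∧ ∀ {J : ℕ} (F : Fam m J) {A : F.Ω → Prop}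
    {y u v k : Fin m} {E w ρ PG e : ℕ} {V : Type} {z : PtT F → V} {z' : LnT F → V}
    {G : V → MvPolynomial (Option (Fin m)) ℝ} {au cu bv cv θp : PtT F → ℝ}
    {θs ju jv : LnT F → ℝ} {aU aD κ : ℝ}, y ≠ u → y ≠ v → u ≠ v →
    LbOK F {y, u, v} k K E J w ρ PG A z z' G →
    ND F A y u v w e au cu bv cv θp θs ju jv aU aD κ → w ≤ J → 0 ≤ aU → aU ≤ 1 → 0 ≤ aD →
    aD ≤ 1 → ρ + 2 * e + 5 ≤ w →
    HN F A w y u v au bv θp aU aD z G (C * (2 ^ (E + 2 * e) / 2 ^ w)) := by
  classical
  obtain ⟨C, hC, hhn⟩ := hn_of K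
  have hm0 : (0 : ℝ) ≤ m := Nat.cast_nonneg m
  refine ⟨C * (32 * (m + 1)), by
    have : (1 : ℝ) ≤ 32 * (m + 1) := by linarith
    exact one_le_mul_of_one_le_of_one_le hC this, ?_⟩
  intro J F A y u v k E w ρ PG e V z z' G au cu bv cv θp θs ju jv aU aD κ hyu hyv huv hlab hnd hw
    hU hU1 hD hD1 hρ ω hω x hx i
  rw [hlab.cls ω hω]
  obtain ⟨S, hS⟩ : ∃ S : ℝ, S = 2 ^ E * ((m + 1) * (2 ^ (2 * e + 5) / 2 ^ w)) := ⟨_, rfl⟩
  have hdg0 : (MvPolynomial.C (eval (bt F ω) (G (z' (slam F w ω)))) :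
      MvPolynomial (Option (Fin m)) ℝ).totalDegree ≤ 1 := by
    rw [totalDegree_C]
    exact Nat.zero_le _
  have h1 := hhn F hw hyu hyv huv hU hD (G := G (z' (slam F w ω)))
    (A₀ := MvPolynomial.C (eval (bt F ω) (G (z' (slam F w ω))))) (S := S) (hlab.deg _) hdg0
    (fun q hq => by
      rw [map_sub, eval_C]
      obtain ⟨n0, n1, n2, n3⟩ := nbr_near (hnd.hbu ω hω).1 (hnd.hbv ω hω).1 (hnd.hθ ω hω) hU1 hD1 hq
      obtain ⟨q', hq'⟩ : ∃ q' : Option (Fin m) → ℝ, q' = fun o => match o with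
        | none => q none
        | some j => if j ∈ ({y, u, v} : Finset (Fin m)) then q (some j) else
          bt F ω (some j) := ⟨_, rfl⟩
      have hq'n : q' none = q none := by rw [hq']
      have hq's : ∀ j, q' (some j) = if j ∈ ({y, u, v} : Finset (Fin m)) then q (some j) else
          bt F ω (some j) := fun j => by rw [hq']
      have e1 : eval q (G (z' (slam F w ω))) = eval q' (G (z' (slam F w ω))) :=
        hlab.dep _ q q' hq'n.symm fun j hj => by rw [hq's, if_pos hj]
      have hp0 : (0 : ℝ) ≤ 2 ^ (2 * e + 5) / 2 ^ w := by positivity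
      have hnear : ∀ o, |q' o - bt F ω o| ≤ 2 ^ (2 * e + 5) / 2 ^ w := by
        intro o
        cases o with
        | none =>
          rw [hq'n]
          exact n0
        | some j =>
          rw [hq's]
          split_ifs with hj
          · simp only [Finset.mem_insert, Finset.mem_singleton] at hj
            rcases hj with rfl | rfl | rfl
            · exact n1
            · exact n2
            · exact n3
          · rw [sub_self, abs_zero]
            exact hp0
      have hρ' : (2 : ℝ) ^ (2 * e + 5) / 2 ^ w ≤ 1 / 2 ^ ρ := by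
        rw [div_le_div_iff₀ (by positivity) (by positivity), one_mul, ← pow_add]
        exact pow_le_pow_right₀ (by norm_num) (by omega)
      rw [e1]
      refine (mvσ (G (z' (slam F w ω))) (bt F ω) q' (2 ^ E) fun b hb o =>
        hlab.lip ω hω b (fun o' => ((hb o').trans (hnear o')).trans hρ') o).trans ?_
      rw [hS]
      refine mul_le_mul_of_nonneg_left ?_ (by positivity)
      refine (Finset.sum_le_sum fun o _ => hnear o).trans (le_of_eq ?_)
      rw [Finset.sum_const, Finset.card_univ, Fintype.card_option, Fintype.card_fin, nsmul_eq_mul]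
      push_cast
      ring) x hx i
  have e2 : C * (32 * (m + 1)) * (2 ^ (E + 2 * e) / 2 ^ w) = C * S := by
    rw [hS, pow_add, pow_add]
    ring
  rw [e2]
  exact h1

end Pool.JVE
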