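import Pool.Agent.H62.OWN.TrL

/-!
# A visible slope over the tied coordinate, in natural units

`TrN`: the data of `TrD` for `v - θ u` with a closed `θ`: the velocities of `v - θ u` and of `u` are
known in natural units only. `tr_nat`: in a class the slope `τ` of `v - θ u` over `u` is near to a
function of the exact point on small events only.
-/

set_option autoImplicit false

namespace Pool.JVE

open Finset Real MvPolynomial
open Pool.Agent.H49.Ent Pool.Agent.H32.Dense Pool.STK Pool.KA Pool.KSAT Pool.K2S Pool.PB Pool.GEN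
open Pool.MIC6 (floor_diff floor_div_near res_of)
open Pool.S6C

variable {m J : ℕ}

/-- **The data in natural units.** -/
structure TrN (F : Fam m J) (B : F.Ω → Prop) (y u v : Fin m) (W e M N Q : ℕ)
    (au bv cu cv θp : PtT F → ℝ) (θs τ σ j : LnT F → ℝ) (b₀ : ℝ) : Prop where
  thc : ∀ ω, B ω → θp (ptr F J ω) = θs (slam F W ω)
  hθ : ∀ ω, B ω → |θp (ptr F J ω)| ≤ 2 ^ e
  bd : ∀ ω, B ω → |au (ptr F J ω)| ≤ 2 ^ e ∧ |bv (ptr F J ω)| ≤ 2 ^ e ∧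
    |cu (ptr F J ω)| ≤ 2 ^ e ∧ |cv (ptr F J ω)| ≤ 2 ^ e
  slo : ∀ ω, B ω → |τ (slam F W ω)| + 2 / 2 ^ Q ≤ b₀
  b₀e : b₀ ≤ 2 ^ e
  velv : ∀ ω, B ω → |F.d ω v - θp (ptr F J ω) * F.d ω u - cv (ptr F J ω) -
    bv (ptr F J ω) * F.d ω y| ≤ 1 / 2 ^ M
  velu : ∀ ω, B ω →
    b₀ * |F.d ω u - cu (ptr F J ω) - au (ptr F J ω) * F.d ω y| ≤ 1 / 2 ^ M
  rel : ∀ ω, B ω → |σ (slam F W ω) + τ (slam F W ω) * au (ptr F J ω) -
    bv (ptr F J ω)| ≤ 1 / 2 ^ M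
  nat : ∀ ω, B ω → |j (slam F W ω) - au (ptr F J ω)| ≤ 1 / 2 ^ N
  num : M ≤ N + Q

/-- **A visible slope over the tied coordinate gives a closed label.** -/
theorem lev_nat {F : Fam m J} {B : F.Ω → Prop} {y u v : Fin m} (hyu : y ≠ u)
    {W e M M' N Q P : ℕ} {au bv cu cv θp : PtT F → ℝ} {θs τ σ j : LnT F → ℝ} {b₀ : ℝ}
    (h : TrN F B y u v W e M N Q au bv cu cv θp θs τ σ j b₀)
    (β : PtT F → ℝ) (hβ : ∀ ω, B ω → |τ (slam F W ω) - β (ptr F J ω)| ≤ 1 / 2 ^ Q) (hW : W ≤ J)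
    (hM : M' + 2 ≤ M) (h4 : W + M' + (2 * e + 1) + m + 3 ≤ J) (h5 : P + m + 3 ≤ W + M') :
    ∃ B' : F.Ω → Prop, Sub B' B ∧ Pe F.p B ≤ 5 * cI m * Pe F.p B' ∧
      ∀ ρ : ℕ, Lb F {y, u} v 1 (2 * e + 2) J W ρ P B' := by
  classical
  have pQ : (0 : ℝ) < 2 ^ Q := by positivity
  have pM : (0 : ℝ) < 2 ^ M := by positivity
  have pM' : (0 : ℝ) < 2 ^ M' := by positivity
  have pN : (0 : ℝ) < 2 ^ N := by positivity
  have hMM : (3 : ℝ) / 2 ^ M ≤ 1 / 2 ^ M' := by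
    rw [div_le_div_iff₀ pM pM', one_mul]
    calc (3 : ℝ) * 2 ^ M' ≤ 2 ^ 2 * 2 ^ M' :=
          mul_le_mul_of_nonneg_right (by norm_num) (by positivity)
      _ = 2 ^ (2 + M') := by rw [pow_add]
      _ ≤ 2 ^ M := pow_le_pow_right₀ (by norm_num) (by omega)
  -- the code of the slope
  obtain ⟨f, hf⟩ : ∃ f : PtT F → ℤ, f = fun p => ⌊(2 : ℝ) ^ Q * β p⌋ := ⟨_, rfl⟩
  obtain ⟨B₁, b1, b2, φ, b3⟩ := Pool.S6K.exact_label F.isLaw 2 (slam F W)
    (fun ω (_ : Fin 1) => f (ptr F J ω)) B (fun ω ω' hω hω' hh i => by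
      have k3 := hβ ω hω
      have k4 := hβ ω' hω'
      rw [hh] at k3
      rw [hf]
      refine floor_diff ?_
      rw [← mul_sub, abs_mul, abs_of_pos pQ]
      have k5 : |β (ptr F J ω) - β (ptr F J ω')| ≤ 2 / 2 ^ Q := by
        have e1 : (2 : ℝ) / 2 ^ Q = 1 / 2 ^ Q + 1 / 2 ^ Q := by ring
        rw [e1]
        rw [abs_le] at k3 k4 ⊢
        constructor <;> linarith [k3.1, k3.2, k4.1, k4.2]
      rw [le_div_iff₀ pQ] at k5
      push_cast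
      linarith)
  obtain ⟨β₁, hβ₁⟩ : ∃ β₁ : PtT F → ℝ, β₁ = fun p => (f p : ℝ) / 2 ^ Q := ⟨_, rfl⟩
  obtain ⟨β₂, hβ₂⟩ : ∃ β₂ : LnT F → ℝ, β₂ = fun s => (φ s 0 : ℝ) / 2 ^ Q := ⟨_, rfl⟩
  have hcl : ∀ ω, B₁ ω → β₁ (ptr F J ω) = β₂ (slam F W ω) := by
    intro ω hω
    have a1 : f (ptr F J ω) = φ (slam F W ω) 0 := congrFun (b3 ω hω) 0
    rw [hβ₁, hβ₂]
    show (f (ptr F J ω) : ℝ) / 2 ^ Q = (φ (slam F W ω) 0 : ℝ) / 2 ^ Q
    rw [a1]
  have hn1 : ∀ ω, B ω → |τ (slam F W ω) - β₁ (ptr F J ω)| ≤ 2 / 2 ^ Q := by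
    intro ω hω
    have a1 := hβ ω hω
    have a2 : |β (ptr F J ω) - β₁ (ptr F J ω)| ≤ 1 / 2 ^ Q := by
      rw [hβ₁, hf]
      exact floor_div_near pQ
    have e1 : (2 : ℝ) / 2 ^ Q = 1 / 2 ^ Q + 1 / 2 ^ Q := by ring
    rw [e1]
    rw [abs_le] at a1 a2 ⊢
    constructor <;> linarith [a1.1, a1.2, a2.1, a2.2]
  have hβb : ∀ ω, B ω → |β₁ (ptr F J ω)| ≤ b₀ := by
    intro ω hω
    have a1 := h.slo ω hω
    have a2 := hn1 ω hω
    have a3 : |β₁ (ptr F J ω)| ≤ |τ (slam F W ω)| + |τ (slam F W ω) - β₁ (ptr F J ω)| := by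
      have e1 : β₁ (ptr F J ω) = τ (slam F W ω) - (τ (slam F W ω) - β₁ (ptr F J ω)) := by ring
      have a4 := abs_sub (τ (slam F W ω)) (τ (slam F W ω) - β₁ (ptr F J ω))
      rw [← e1] at a4
      exact a4
    linarith
  have he1 : (1 : ℝ) ≤ 2 ^ e := one_le_pow₀ (by norm_num)
  have he3 : (2 : ℝ) ^ e + 2 ^ e * 2 ^ e ≤ 2 ^ (2 * e + 1) := by
    have k1 : (2 : ℝ) ^ (2 * e + 1) = 2 ^ e * 2 ^ e + 2 ^ e * 2 ^ e := by
      rw [pow_succ, two_mul, pow_add]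
      ring
    have k2 : (2 : ℝ) ^ e * 1 ≤ 2 ^ e * 2 ^ e := mul_le_mul_of_nonneg_left he1 (by positivity)
    rw [k1]
    linarith
  have he4 : (2 : ℝ) ^ e + 2 ^ e ≤ 2 ^ (2 * e + 1) := by
    have k1 : (2 : ℝ) ^ (2 * e + 1) = 2 ^ e * 2 ^ e + 2 ^ e * 2 ^ e := by
      rw [pow_succ, two_mul, pow_add]
      ring
    have k2 : (2 : ℝ) ^ e * 1 ≤ 2 ^ e * 2 ^ e := mul_le_mul_of_nonneg_left he1 (by positivity)
    rw [k1]
    linarith
  have hmix : ∀ x y b : ℝ, |x| ≤ 2 ^ e → |y| ≤ 2 ^ e → |b| ≤ 2 ^ e →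
      |x - b * y| ≤ 2 ^ (2 * e + 1) := by
    intro x y b hx hy hb
    refine (abs_sub _ _).trans ((add_le_add hx ?_).trans he3)
    rw [abs_mul]
    exact mul_le_mul hb hy (abs_nonneg _) (by positivity)
  have hyu' : u ≠ y := Ne.symm hyu
  obtain ⟨a, ha⟩ : ∃ a : PtT F → Fin m → ℝ, a = fun p k =>
    if k = u then θp p + β₁ p else bv p - β₁ p * au p := ⟨_, rfl⟩
  obtain ⟨c, hc⟩ : ∃ c : PtT F → ℝ, c = fun p => cv p - β₁ p * cu p := ⟨_, rfl⟩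
  obtain ⟨th, hth⟩ : ∃ th : LnT F → Fin m → ℝ, th = fun s k =>
    if k = u then θs s + β₂ s else σ s + (τ s - β₂ s) * j s := ⟨_, rfl⟩
  have hau : ∀ p, a p u = θp p + β₁ p := fun p => by
    rw [ha]
    exact if_pos rfl
  have hak : ∀ p, a p y = bv p - β₁ p * au p := fun p => by
    rw [ha]
    exact if_neg hyu
  have hdp : DpI F B₁ {y, u} v (2 * e + 1) M' a c := by
    intro ω hω
    have hωB := b1 ω hω
    obtain ⟨k1, k2, k3, k3'⟩ := h.bd ω hωB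
    have k4 := (hβb ω hωB).trans h.b₀e
    have k9 := h.hθ ω hωB
    refine ⟨fun k hk => ?_, ?_, ?_⟩
    · rcases Finset.mem_insert.1 hk with rfl | hk
      · rw [hak]
        exact hmix _ _ _ k2 k1 k4
      · rw [Finset.mem_singleton.1 hk, hau]
        exact (abs_add_le _ _).trans ((add_le_add k9 k4).trans he4)
    · rw [hc]
      exact hmix _ _ _ k3' k3 k4
    · have k5 := h.velv ω hωB
      have k6 := h.velu ω hωB
      have k7 := hβb ω hωB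
      rw [Finset.sum_pair hyu, hau, hak, hc]
      obtain ⟨X, hX⟩ : ∃ X, X = F.d ω u - cu (ptr F J ω) - au (ptr F J ω) * F.d ω y := ⟨_, rfl⟩
      obtain ⟨X', hX'⟩ : ∃ X', X' = F.d ω v - θp (ptr F J ω) * F.d ω u - cv (ptr F J ω) -
        bv (ptr F J ω) * F.d ω y := ⟨_, rfl⟩
      rw [← hX] at k6
      rw [← hX'] at k5
      have e2 : F.d ω v - (cv (ptr F J ω) - β₁ (ptr F J ω) * cu (ptr F J ω)) -
          ((bv (ptr F J ω) - β₁ (ptr F J ω) * au (ptr F J ω)) * F.d ω y +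
            (θp (ptr F J ω) + β₁ (ptr F J ω)) * F.d ω u) =
          X' - β₁ (ptr F J ω) * X := by
        rw [hX, hX']
        ring
      show |F.d ω v - (cv (ptr F J ω) - β₁ (ptr F J ω) * cu (ptr F J ω)) -
          ((bv (ptr F J ω) - β₁ (ptr F J ω) * au (ptr F J ω)) * F.d ω y +
            (θp (ptr F J ω) + β₁ (ptr F J ω)) * F.d ω u)| ≤ _
      rw [e2]
      have k8 : |β₁ (ptr F J ω) * X| ≤ 1 / 2 ^ M := by
        rw [abs_mul]
        exact (mul_le_mul_of_nonneg_right k7 (abs_nonneg _)).trans k6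
      refine ((abs_sub _ _).trans (add_le_add k5 k8)).trans ?_
      refine le_trans ?_ hMM
      rw [← add_div]
      exact div_le_div_of_nonneg_right (by norm_num) pM.le
  have hcls : ∀ ω, B₁ ω → ∀ k ∈ ({y, u} : Finset (Fin m)),
      |th (slam F W ω) k - a (ptr F J ω) k| ≤ 1 / 2 ^ M' := by
    intro ω hω k hk
    have hωB := b1 ω hω
    rcases Finset.mem_insert.1 hk with rfl | hk
    · rw [hak, hth]
      show |(if k = u then θs (slam F W ω) + β₂ (slam F W ω) else _) - _| ≤ _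
      rw [if_neg hyu, ← hcl ω hω]
      have k1 := h.rel ω hωB
      have k2 := h.nat ω hωB
      have k3 := hn1 ω hωB
      have e1 : σ (slam F W ω) + (τ (slam F W ω) - β₁ (ptr F J ω)) * j (slam F W ω) -
          (bv (ptr F J ω) - β₁ (ptr F J ω) * au (ptr F J ω)) =
          (σ (slam F W ω) + τ (slam F W ω) * au (ptr F J ω) - bv (ptr F J ω)) +
          (τ (slam F W ω) - β₁ (ptr F J ω)) * (j (slam F W ω) - au (ptr F J ω)) := by ring
      rw [e1]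
      have k4 : |(τ (slam F W ω) - β₁ (ptr F J ω)) * (j (slam F W ω) - au (ptr F J ω))| ≤
          2 / 2 ^ M := by
        rw [abs_mul]
        refine (mul_le_mul k3 k2 (abs_nonneg _) (by positivity)).trans ?_
        rw [div_mul_div_comm, mul_one, ← pow_add, Nat.add_comm Q N]
        exact div_le_div_of_nonneg_left (by norm_num) pM
          (pow_le_pow_right₀ (by norm_num) h.num)
      refine ((abs_add_le _ _).trans (add_le_add k1 k4)).trans ?_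
      refine le_trans ?_ hMM
      rw [← add_div]
      exact div_le_div_of_nonneg_right (by norm_num) pM.le
    · rw [Finset.mem_singleton.1 hk, hau, hth]
      show |(if u = u then θs (slam F W ω) + β₂ (slam F W ω) else _) - _| ≤ _
      rw [if_pos rfl, hcl ω hω, h.thc ω hωB, sub_self, abs_zero]
      positivity
  obtain ⟨B₂, c1, c2, c3⟩ := lab_grd hW hdp hcls h4 h5
  refine ⟨B₂, fun ω hω => b1 ω (c1 ω hω), ?_, c3⟩
  rw [pow_one] at b2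
  have k1 : (2 * ((2 : ℕ) : ℝ) + 1) * Pe F.p B₁ ≤ 5 * (cI m * Pe F.p B₂) := by
    have k2 : (2 * ((2 : ℕ) : ℝ) + 1) = 5 := by
      push_cast
      norm_num
    rw [k2]
    exact mul_le_mul_of_nonneg_left c2 (by norm_num)
  refine b2.trans (k1.trans (le_of_eq ?_))
  ring

/-- **Events on which the slope over the tied coordinate is visible are small.** -/
theorem tr_nat {S : PCl m} {L : Finset (Fin m) → Fin m → ℝ → ℝ → ℝ} (hL : LamW S L)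
    {y u v : Fin m} (hyu : y ≠ u) {W r s : ℝ} (hW0 : 0 ≤ W) (hs : 0 < s)
    (hLW : W ≤ L {y, u} v W r) (hLs : L {y, u} v W r + 2 * s ≤ 1) :
    ∃ d : ℝ, 0 < d ∧ ∀ e : ℝ, 0 < e → e ≤ d → ∃ δ : ℝ, 0 < δ ∧ Bas S (fun J F A =>
      ∀ (B : F.Ω → Prop) (M N Q : ℕ) (au bv cu cv θp : PtT F → ℝ)
        (θs τ σ j : LnT F → ℝ) (b₀ : ℝ), Sub B A →
        TrN F B y u v ⌊W * J⌋₊ ⌊e * J⌋₊ M N Q au bv cu cv θp θs τ σ j b₀ →
        ⌊(L {y, u} v W r - W + s) * J⌋₊ ≤ M → ∀ β : PtT F → ℝ,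
        (∀ ω, B ω → |τ (slam F ⌊W * J⌋₊ ω) - β (ptr F J ω)| ≤ 1 / 2 ^ Q) →
        Pe F.p B ≤ Real.exp (-(δ * J)) * Pe F.p A) := by
  classical
  obtain ⟨Lw, hLw⟩ : ∃ Lw, Lw = L {y, u} v W r := ⟨_, rfl⟩
  rw [← hLw] at hLs hLW
  obtain ⟨d, hd, hd1, habs⟩ := hL.abs {y, u} v W r (Lw + s / 2) (by rw [← hLw]; linarith)
    (by linarith)
  rw [← hLw]
  refine ⟨min (d / 4) (s / 8), lt_min (by linarith) (by linarith), ?_⟩
  intro e he hed
  have hed1 : e ≤ d / 4 := hed.trans (min_le_left _ _)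
  have hed2 : e ≤ s / 8 := hed.trans (min_le_right _ _)
  obtain ⟨τ₄, hτ₄, J₄, hb₄⟩ := habs d le_rfl 1
  have hm0 : (0 : ℝ) ≤ m := Nat.cast_nonneg m
  obtain ⟨J₅, hJ₅⟩ := exists_nat_ge ((m + 10 : ℝ) / min e (τ₄ / 2))
  obtain ⟨J₆, hJ₆⟩ := exists_nat_ge (Real.log (5 * cI m) / (τ₄ / 2))
  refine ⟨τ₄ / 4, by linarith, τ₄ / 4, by linarith, max J₄ (max J₅ J₆), ?_⟩
  intro J hJ F A hA B M N Q au bv cu cv θp θs τ σ j b₀ hBA hD hM β hβ
  by_contra hcon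
  push Not at hcon
  have hB : S.St (τ₄ / 4 + τ₄ / 4) J F B := S.res (by linarith) hA hBA hcon.le
  have e0 : τ₄ / 4 + τ₄ / 4 = τ₄ / 2 := by ring
  rw [e0] at hB
  have j4 : J₄ ≤ J := (le_max_left _ _).trans hJ
  have j5 : (J₅ : ℝ) ≤ J := by
    exact_mod_cast ((le_max_left _ _).trans (le_max_right _ _)).trans hJ
  have j6 : (J₆ : ℝ) ≤ J := by
    exact_mod_cast ((le_max_right _ _).trans (le_max_right _ _)).trans hJ
  have hJ0 : (0 : ℝ) ≤ J := Nat.cast_nonneg J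
  have q1 : (m + 10 : ℝ) ≤ e * J := by
    have h1 := hJ₅.trans j5
    rw [div_le_iff₀ (lt_min he (by linarith))] at h1
    have h2 : min e (τ₄ / 2) * J ≤ e * J := mul_le_mul_of_nonneg_right (min_le_left _ _) hJ0
    linarith
  have hlog : Real.log (5 * cI m) ≤ τ₄ / 2 * J := by
    have h1 := hJ₆.trans j6
    rw [div_le_iff₀ (by linarith)] at h1
    linarith
  have f1 : (⌊W * (J : ℝ)⌋₊ : ℝ) ≤ W * J := Nat.floor_le (by positivity)
  have f1' : W * (J : ℝ) - 1 < ⌊W * (J : ℝ)⌋₊ := Nat.sub_one_lt_floor _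
  have hx0 : 0 ≤ Lw - W + s := by linarith
  have f2 : (⌊(Lw - W + s) * (J : ℝ)⌋₊ : ℝ) ≤ (Lw - W + s) * J := Nat.floor_le (by positivity)
  have f2' : (Lw - W + s) * (J : ℝ) - 1 < ⌊(Lw - W + s) * (J : ℝ)⌋₊ := Nat.sub_one_lt_floor _
  have f3 : (⌊e * (J : ℝ)⌋₊ : ℝ) ≤ e * J := Nat.floor_le (by positivity)
  have f4 : (⌊(Lw + s / 2) * (J : ℝ)⌋₊ : ℝ) ≤ (Lw + s / 2) * J :=
    Nat.floor_le (mul_nonneg (by linarith) hJ0)
  have f5 : d * (J : ℝ) - 1 < ⌊d * (J : ℝ)⌋₊ := Nat.sub_one_lt_floor _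
  have f6 : (W + d) * (J : ℝ) - 1 < ⌊(W + d) * (J : ℝ)⌋₊ := Nat.sub_one_lt_floor _
  have f7 : (⌊(W + d) * (J : ℝ)⌋₊ : ℝ) ≤ (W + d) * J := Nat.floor_le (by positivity)
  have g1 : e * (J : ℝ) ≤ d / 4 * J := mul_le_mul_of_nonneg_right hed1 hJ0
  have g2 : e * (J : ℝ) ≤ s / 8 * J := mul_le_mul_of_nonneg_right hed2 hJ0
  have g3 : (Lw + 2 * s) * J ≤ 1 * J := mul_le_mul_of_nonneg_right hLs hJ0
  have g4 : (W + d) * J ≤ 1 * J := mul_le_mul_of_nonneg_right hd1 hJ0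
  have hcast : ∀ a b : ℕ, (a : ℝ) ≤ b → a ≤ b := fun a b h => by exact_mod_cast h
  -- the precision
  obtain ⟨M', hM'⟩ : ∃ M', M' = ⌊(Lw - W + s) * (J : ℝ)⌋₊ - 2 := ⟨_, rfl⟩
  have hge : 2 ≤ ⌊(Lw - W + s) * (J : ℝ)⌋₊ := hcast _ _ (by
    have k1 : 0 ≤ (Lw - W) * J := mul_nonneg (by linarith) hJ0
    push_cast
    linarith only [f2', g2, q1, k1, hm0])
  have hM'1 : M' + 2 = ⌊(Lw - W + s) * (J : ℝ)⌋₊ := by omega
  have hM'2 : (M' : ℝ) + 2 = (⌊(Lw - W + s) * (J : ℝ)⌋₊ : ℝ) := by exact_mod_cast hM'1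
  obtain ⟨B', b1, b2, b3⟩ := lev_nat (P := ⌊(Lw + s / 2) * J⌋₊) (M' := M') hyu hD β hβ
    (hcast _ _ (by
      have : 0 ≤ d * (J : ℝ) := by positivity
      linarith only [f1, g4, this])) (by omega) (hcast _ _ (by
      push_cast
      linarith only [f1, f2, f3, g2, g3, q1, hM'2])) (hcast _ _ (by
      push_cast
      linarith only [f1', f2', f4, g2, q1, hM'2]))
  have hB'S := res_of (by linarith : (0 : ℝ) ≤ τ₄ / 2) hB b1
    (by
      have := cI_pos m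
      positivity : (0 : ℝ) < 5 * cI m) hlog b2
  have e1 : 2 * (τ₄ / 2) = τ₄ := by ring
  rw [e1] at hB'S
  refine hb₄ J j4 F B' hB'S ?_
  exact (b3 ⌊(r + d) * J⌋₊).mono (Finset.Subset.refl _) le_rfl (hcast _ _ (by
      push_cast
      linarith only [f3, f5, g1, q1, hm0])) le_rfl (hcast _ _ (by
      linarith only [f1, f6, g1, q1, hm0])) (hcast _ _ (by linarith only [f7, g4])) le_rfl le_rfl

end Pool.JVE
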