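import Pool.Agent.H62.AFN.Cf3
import Pool.Agent.H62.AFN.TrN

/-!
# One step for labels over three coordinates

`HN`: the second derivatives of a label in natural directions on the natural boxes are at most `H`.
`stp_fam`: under `HN` with `H = 2 ^ (-s)` there is an affine closed label on a large part, of a
precision which is near to `s + c`, where the velocities are known in natural units up to the factor
`2 ^ (-c)`: either the mixed second derivatives at the exact points are small, or the slope of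
`v - θ u` over `u` is visible.
-/

set_option autoImplicit false

namespace Pool.JVE

open Finset MvPolynomial
open Pool.Agent.H49.Ent Pool.Agent.H32.Dense Pool.STK Pool.KA Pool.KSAT Pool.K2S Pool.PB Pool.GEN
open Pool.MIC6 (dpt dpt_near mvp wt wp wpt wp_eq)
open Pool.FLF (Fam.sub)
open Pool.PB.Trl (rt rt_mem t_rt)
open Pool.D2R (hs dd hs_smul_right)

variable {m J : ℕ}

/-- The second derivatives in natural directions on the natural boxes. -/
def HN (F : Fam m J) (A : F.Ω → Prop) (w : ℕ) (y u v : Fin m) (au bv θp : PtT F → ℝ)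
    (aU aD : ℝ) {V : Type} (z : PtT F → V) (G : V → MvPolynomial (Option (Fin m)) ℝ)
    (H : ℝ) : Prop :=
  ∀ ω, A ω → ∀ x, NB3 F w y u v (au (ptr F J ω)) (bv (ptr F J ω)) (θp (ptr F J ω)) aU aD
    ω x → ∀ i, (1 / 2 ^ w) ^ 2 * |hs (G (z (ptr F J ω))) x (nd4 F y u v (au (ptr F J ω))
      (bv (ptr F J ω)) (θp (ptr F J ω)) aU aD ω i) (aU • eu u v (θp (ptr F J ω)))| ≤ H ∧
    (1 / 2 ^ w) ^ 2 * |hs (G (z (ptr F J ω))) x (nd4 F y u v (au (ptr F J ω))
      (bv (ptr F J ω)) (θp (ptr F J ω)) aU aD ω i) (aD • ev v)| ≤ H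

theorem HN.sub {F : Fam m J} {A B : F.Ω → Prop} {w : ℕ} {y u v : Fin m}
    {au bv θp : PtT F → ℝ} {aU aD : ℝ} {V : Type} {z : PtT F → V}
    {G : V → MvPolynomial (Option (Fin m)) ℝ} {H : ℝ}
    (h : HN F A w y u v au bv θp aU aD z G H) (hB : Sub B A) :
    HN F B w y u v au bv θp aU aD z G H := fun ω hω => h ω (hB ω hω)

theorem HN.mono {F : Fam m J} {A : F.Ω → Prop} {w : ℕ} {y u v : Fin m}
    {au bv θp : PtT F → ℝ} {aU aD : ℝ} {V : Type} {z : PtT F → V}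
    {G : V → MvPolynomial (Option (Fin m)) ℝ} {H H' : ℝ}
    (h : HN F A w y u v au bv θp aU aD z G H) (hH : H ≤ H') :
    HN F A w y u v au bv θp aU aD z G H' := fun ω hω x hx i =>
  ⟨(h ω hω x hx i).1.trans hH, (h ω hω x hx i).2.trans hH⟩

theorem pe_or {Ω : Type} [Fintype Ω] {p : Ω → ℝ} (hp : IsLaw p) {A B₀ B₁ : Ω → Prop}
    (h : ∀ ω, A ω → B₀ ω ∨ B₁ ω) : Pe p A ≤ Pe p B₀ + Pe p B₁ := by
  classical
  rw [Pe_eq, Pe_eq, Pe_eq, ← Finset.sum_add_distrib]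
  refine Finset.sum_le_sum fun ω _ => ?_
  have h0 := hp.nonneg ω
  by_cases hA : A ω
  · rcases h ω hA with hB | hB
    · rw [if_pos hA, if_pos hB]
      split_ifs <;> linarith
    · rw [if_pos hA, if_pos hB]
      split_ifs <;> linarith
  · rw [if_neg hA]
    split_ifs <;> linarith

/-- **The slope of `v - θ u` over `u` is visible where the mixed derivatives are large.** -/
theorem big_fam {F : Fam m J} {A A' : F.Ω → Prop} (hA' : Sub A' A) {y u v : Fin m} {w E E' T nU nD X c : ℕ}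
    {V : Type} {z : PtT F → V} {G : V → MvPolynomial (Option (Fin m)) ℝ}
    {au cu bv cv θp : PtT F → ℝ} {θs ju jv : LnT F → ℝ} {sp : ℝ}
    (hyu : y ≠ u) (hyv : y ≠ v) (huv : u ≠ v)
    (hnd : ND F A y u v w E au cu bv cv θp θs ju jv (1 / 2 ^ nU) (1 / 2 ^ nD) (1 / 2 ^ c))
    (hafd : Afd F A' y u v w au (fun p => bv p + θp p * au p) z G θp θs ju jv (1 / 2 ^ nU)
      (1 / 2 ^ nD) (1 / 2 ^ (X + 2 * T + 38 * E))) (hUD : nU ≤ nD) (hE : 15 ≤ E)
    (hE' : 6 * E ≤ E') (hc : T + 6 * E ≤ c)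
    (hsp : 2 * (1 / 2 ^ (5 * E)) * (1 / 2 ^ nU) ≤ sp) {B' : F.Ω → Prop} (hB' : Sub B' A')
    (big : ∀ ω, B' ω → 1 / 2 ^ X ≤ |Au F w z G u v θp (1 / 2 ^ nU) ω| ∨
      1 / 2 ^ X ≤ |Av F w z G v (1 / 2 ^ nD) ω|)
    (nod : ∀ ω, B' ω → ∃ ν : Fin 3 → F.Ω, (∀ i, A' (ν i) ∧ slam F w (ν i) = slam F w ω) ∧
      ∀ i j, i ≠ j → sp ≤ |au (ptr F J (ν i)) - au (ptr F J (ν j))|)
    (htr : ∀ (B : F.Ω → Prop) (Q : ℕ) (τ σ : LnT F → ℝ) (b₀ : ℝ) (β : PtT F → ℝ), Sub B A →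
      TrN F B y u v w E' (nD + T) nU Q au bv cu cv θp θs τ σ ju b₀ →
      (∀ ω, B ω → |τ (slam F w ω) - β (ptr F J ω)| ≤ 1 / 2 ^ Q) →
      Pe F.p B < 1 / 64 * Pe F.p A) : Pe F.p B' < 1 / 32 * Pe F.p A := by
  classical
  have inv : ∀ {a b : ℕ}, b ≤ a → (1 : ℝ) / 2 ^ a ≤ 1 / 2 ^ b := fun h => inv_mono h
  have num : ∀ {a b c : ℕ}, a + b ≤ c → (2 : ℝ) ^ a * (1 / 2 ^ c) ≤ 1 / 2 ^ b := by
    intro a b c h
    rw [mul_one_div, div_le_div_iff₀ (by positivity) (by positivity), one_mul, ← pow_add]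
    exact pow_le_pow_right₀ (by norm_num) h
  have num' : ∀ {a b c : ℕ}, a + b < c → (2 : ℝ) ^ a * (1 / 2 ^ c) < 1 / 2 ^ b := by
    intro a b c h
    rw [mul_one_div, div_lt_div_iff₀ (by positivity) (by positivity), one_mul, ← pow_add]
    exact pow_lt_pow_right₀ (by norm_num) h
  have mulp : ∀ a b : ℕ, (1 : ℝ) / 2 ^ a * (1 / 2 ^ b) = 1 / 2 ^ (a + b) := by
    intro a b
    rw [pow_add]
    field_simp
  have hpw : ∀ a n : ℕ, ((1 : ℝ) / 2 ^ a) ^ n = 1 / 2 ^ (a * n) := by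
    intro a n
    rw [div_pow, one_pow, pow_mul]
  have le1 : ∀ a : ℕ, (1 : ℝ) / 2 ^ a ≤ 1 := fun a => by
    rw [div_le_one (by positivity)]
    exact one_le_pow₀ (by norm_num)
  obtain ⟨τ, σ, β, hτσ⟩ := two_fam hafd hyu hyv huv (X := 1 / 2 ^ X) (μ := 1 / 2 ^ (5 * E))
    (κ := 1 / 2 ^ T) (η := 1 / 2 ^ (2 * T + 26 * E)) (sp := sp) (by positivity) (by positivity)
    (by positivity) (le1 _) (by positivity) (le1 _) (by positivity) (le1 _) hsp (by
      rw [mulp]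
      have h1 : (4 : ℝ) = 2 ^ 2 := by norm_num
      rw [h1]
      exact num' (by omega)) (by
      rw [hpw, mulp, mulp]
      have h1 : (32 : ℝ) = 2 ^ 5 := by norm_num
      rw [h1]
      exact num (by omega)) (by
      rw [hpw, hpw, mulp]
      have h1 : (17280 : ℝ) ≤ 2 ^ 15 := by norm_num
      exact (mul_le_mul_of_nonneg_right h1 (by positivity)).trans (num (by omega))) (by
      rw [hpw, hpw, mulp, mulp]
      have h1 : (2880 : ℝ) ≤ 2 ^ 12 := by norm_num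
      exact (mul_le_mul_of_nonneg_right h1 (by positivity)).trans_lt (num' (by omega))) hB' big nod
  obtain ⟨Q, hQ⟩ : ∃ Q, Q = nD - nU + T := ⟨_, rfl⟩
  have hQ' : Q + nU = nD + T := by omega
  have hrat : (1 : ℝ) / 2 ^ nD / (1 / 2 ^ nU) = 1 / 2 ^ (nD - nU) := by
    have h1 : (2 : ℝ) ^ nD = 2 ^ (nD - nU) * 2 ^ nU := by
      rw [← pow_add]
      congr 1
      omega
    rw [h1]
    field_simp
  obtain ⟨b₀, hb₀⟩ : ∃ b₀ : ℝ, b₀ = 1 / 2 ^ (nD - nU) * (2 / (1 / 2 ^ (5 * E))) + 2 / 2 ^ Q :=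
    ⟨_, rfl⟩
  have hb₀' : b₀ ≤ 2 ^ (5 * E + 2) * (1 / 2 ^ (nD - nU)) := by
    have h1 : (2 : ℝ) / (1 / 2 ^ (5 * E)) = 2 * 2 ^ (5 * E) := by field_simp
    have h2 : (2 : ℝ) / 2 ^ Q ≤ 2 * 2 ^ (5 * E) * (1 / 2 ^ (nD - nU)) := by
      have h3 : (1 : ℝ) / 2 ^ Q ≤ 1 / 2 ^ (nD - nU) := inv (by omega)
      have h4 : (2 : ℝ) / 2 ^ Q = 2 * (1 / 2 ^ Q) := by ring
      have h5 : (1 : ℝ) ≤ 2 ^ (5 * E) := one_le_pow₀ (by norm_num)
      rw [h4, mul_assoc]
      refine mul_le_mul_of_nonneg_left (h3.trans ?_) (by norm_num)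
      exact le_mul_of_one_le_left (by positivity) h5
    have h6 : (2 : ℝ) ^ (5 * E + 2) = 2 ^ (5 * E) * 4 := by
      rw [pow_add]
      norm_num
    rw [hb₀, h1, h6]
    linarith
  have hpart : ∀ i : Fin 2, Pe F.p (fun ω => B' ω ∧ |β (ptr F J ω) i - τ (slam F w ω)| ≤
      1 / 2 ^ nD / (1 / 2 ^ nU) * (1 / 2 ^ T)) < 1 / 64 * Pe F.p A := by
    intro i
    have hsub : Sub (fun ω => B' ω ∧ |β (ptr F J ω) i - τ (slam F w ω)| ≤
      1 / 2 ^ nD / (1 / 2 ^ nU) * (1 / 2 ^ T)) A := fun ω hω => hA' ω (hB' ω hω.1)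
    refine htr _ Q (fun s => τ s - θs s) σ b₀ (fun p => β p i - θp p) hsub ?_ ?_
    · refine ⟨fun ω hω => hnd.thc ω (hsub ω hω), fun ω hω => (hnd.hθ ω (hsub ω hω)).trans
        (pow_le_pow_right₀ (by norm_num) (by omega)), fun ω hω => ?_, fun ω hω => ?_, ?_,
        fun ω hω => ?_, fun ω hω => ?_, fun ω hω => ?_, fun ω hω => hnd.nu ω (hsub ω hω),
        by omega⟩
      · have hE6 : (2 : ℝ) ^ E ≤ 2 ^ E' := pow_le_pow_right₀ (by norm_num) (by omega)
        have h1 := hnd.hbu ω (hsub ω hω)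
        have h2 := hnd.hbv ω (hsub ω hω)
        exact ⟨h1.1.trans hE6, h2.1.trans hE6, h1.2.trans hE6, h2.2.trans hE6⟩
      · have h1 := (hτσ ω hω.1).1
        rw [hrat] at h1
        rw [hb₀]
        linarith
      · refine hb₀'.trans ?_
        have h1 : (2 : ℝ) ^ (5 * E + 2) * (1 / 2 ^ (nD - nU)) ≤ 2 ^ (5 * E + 2) * 1 :=
          mul_le_mul_of_nonneg_left (le1 _) (by positivity)
        rw [mul_one] at h1
        exact h1.trans (pow_le_pow_right₀ (by norm_num) (by omega))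
      · refine (hnd.vv ω (hsub ω hω)).trans ?_
        rw [mulp]
        exact inv (by omega)
      · have h1 := hnd.vu ω (hsub ω hω)
        rw [mulp] at h1
        have hb0 : 0 ≤ b₀ := by
          rw [hb₀]
          positivity
        refine (mul_le_mul_of_nonneg_left h1 hb0).trans ?_
        refine (mul_le_mul_of_nonneg_right hb₀' (by positivity)).trans ?_
        rw [mul_assoc, mulp]
        exact num (by omega)
      · have h1 := (hτσ ω hω.1).2.1
        have e1 : σ (slam F w ω) + (τ (slam F w ω) - θs (slam F w ω)) * au (ptr F J ω) -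
            bv (ptr F J ω) = σ (slam F w ω) + τ (slam F w ω) * au (ptr F J ω) -
            (bv (ptr F J ω) + θp (ptr F J ω) * au (ptr F J ω)) := by
          rw [hnd.thc ω (hsub ω hω)]
          ring
        show |σ (slam F w ω) + (τ (slam F w ω) - θs (slam F w ω)) * au (ptr F J ω) -
          bv (ptr F J ω)| ≤ _
        rw [e1]
        refine h1.trans ?_
        rw [mulp]
        exact inv (by omega)
    · intro ω hω
      have h1 := hω.2
      rw [hrat, mulp] at h1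
      show |τ (slam F w ω) - θs (slam F w ω) - (β (ptr F J ω) i - θp (ptr F J ω))| ≤ _
      rw [hnd.thc ω (hsub ω hω)]
      have e1 : τ (slam F w ω) - θs (slam F w ω) - (β (ptr F J ω) i - θs (slam F w ω)) =
          -(β (ptr F J ω) i - τ (slam F w ω)) := by ring
      rw [e1, abs_neg, hQ]
      exact h1
  have h0 := hpart 0
  have h1 := hpart 1
  have h2 := pe_or F.isLaw (A := B') (B₀ := fun ω => B' ω ∧ |β (ptr F J ω) 0 -
    τ (slam F w ω)| ≤ 1 / 2 ^ nD / (1 / 2 ^ nU) * (1 / 2 ^ T))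
    (B₁ := fun ω => B' ω ∧ |β (ptr F J ω) 1 - τ (slam F w ω)| ≤
      1 / 2 ^ nD / (1 / 2 ^ nU) * (1 / 2 ^ T)) (fun ω hω => by
    obtain ⟨i, hi⟩ := (hτσ ω hω).2.2
    fin_cases i
    · exact Or.inl ⟨hω, hi⟩
    · exact Or.inr ⟨hω, hi⟩)
  linarith

end Pool.JVE
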