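import Pool.Agent.H62.AFN.Stp

/-!
# One step for labels over three coordinates, in a family

`stp_fam`: from a bound of the second derivatives of a closed label in natural directions to an
affine closed label.
-/

set_option autoImplicit false

namespace Pool.JVE

open Finset MvPolynomial
open Pool.Agent.H49.Ent Pool.Agent.H32.Dense Pool.STK Pool.KA Pool.KSAT Pool.K2S Pool.PB Pool.GEN
open Pool.MIC6 (dpt dpt_near mvp wt wp wpt wp_eq)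
open Pool.FLF (Fam.sub)
open Pool.PB.Trl (rt rt_mem t_rt)
open Pool.D2R (hs dd hs_smul_right)

variable {m J : ℕ}

/-- **One step.** -/
theorem stp_fam (m K : ℕ) (hK : 1 ≤ K) : ∃ C : ℝ, 1 ≤ C ∧ ∀ {J : ℕ} (F : Fam m J)
    (A : F.Ω → Prop) (_ : 0 < Pe F.p A) {y u v k : Fin m} {E E' T g w ρ PG nU nD s c X P : ℕ}
    {V : Type} {z : PtT F → V} {z' : LnT F → V} {G : V → MvPolynomial (Option (Fin m)) ℝ}
    {au cu bv cv θp : PtT F → ℝ} {θs ju jv : LnT F → ℝ} {θ sp : ℝ}, y ≠ u → y ≠ v → u ≠ v →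
    LbOK F {y, u, v} k K E J w ρ PG A z z' G →
    ND F A y u v w E au cu bv cv θp θs ju jv (1 / 2 ^ nU) (1 / 2 ^ nD) (1 / 2 ^ c) →
    (∀ ω, A ω → |bv (ptr F J ω) + θp (ptr F J ω) * au (ptr F J ω)| ≤ 2 ^ E) →
    HN F A w y u v au bv θp (1 / 2 ^ nU) (1 / 2 ^ nD) z G (1 / 2 ^ s) →
    nU ≤ nD → w + E + 4 + nD + c ≤ J → ρ ≤ w → 0 ≤ θ →
    (∀ (B : F.Ω → Prop) (hB : 0 < Pe F.p B), Sub B A → Pe F.p A ≤ 16 * Pe F.p B →
      (Fam.sub F B hB).Tm θ) → C * (θ + 1) ≤ ((J : ℝ) - w) * Real.log 2 →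
    (∀ B₀ : F.Ω → Prop, Sub B₀ A → Pe F.p A / 4 < Pe F.p B₀ → Real.log (2 * (K + 2 : ℕ)) <
      CH (Pool.Agent.H49.Ent.cond F.p B₀ True) (fun ω => F.D g ω y) (ptr F J)) →
    C * Real.exp (C * (θ + 1)) ≤ 2 ^ (3 * E) → g * (K + 1) ≤ E →
    (∀ B₁ : F.Ω → Prop, Sub B₁ A → Pe F.p A ≤ 8 * Pe F.p B₁ →
      ∃ B' : F.Ω → Prop, Sub B' B₁ ∧ Pe F.p B₁ / 2 ≤ Pe F.p B' ∧ ∀ ω, B' ω →
        ∃ ν : Fin 3 → F.Ω, (∀ i, B₁ (ν i) ∧ slam F w (ν i) = slam F w ω) ∧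
          ∀ i j, i ≠ j → sp ≤ |au (ptr F J (ν i)) - au (ptr F J (ν j))|) →
    2 * (1 / 2 ^ (5 * E)) * (1 / 2 ^ nU) ≤ sp →
    (∀ (B : F.Ω → Prop) (Q : ℕ) (τ σ : LnT F → ℝ) (b₀ : ℝ) (β : PtT F → ℝ), Sub B A →
      TrN F B y u v w E' (nD + T) nU Q au bv cu cv θp θs τ σ ju b₀ →
      (∀ ω, B ω → |τ (slam F w ω) - β (ptr F J ω)| ≤ 1 / 2 ^ Q) →
      Pe F.p B < 1 / 64 * Pe F.p A) →
    15 ≤ E → m + 9 ≤ E → 6 * E ≤ E' → T + 6 * E ≤ c → X + 2 * T + 47 * E ≤ PG →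
    X + 2 * T + 47 * E ≤ s + c → X + 2 * T + 48 * E ≤ J →
    w + 4 * E ≤ X → P + 5 * E ≤ X →
    ∃ B : F.Ω → Prop, Sub B A ∧ Pe F.p A ≤ 288 * cI m * Pe F.p B ∧
      ∀ ρ : ℕ, Lb F {y, u, v} k 1 (3 * E + 5) J w ρ P B := by
  classical
  obtain ⟨C₁, hC₁, htie⟩ := tie3_nat m K hK
  obtain ⟨C₂, hC₂, hafd⟩ := afd_nat m K
  obtain ⟨C₃, hC₃, hcls⟩ := cls3_nat m K
  refine ⟨C₁ + C₂ + C₃, by linarith, ?_⟩
  intro J F A hA y u v k E E' T g w ρ PG nU nD s c X P V z z' G au cu bv cv θp θs ju jv θ sp hyu hyv huv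
    hlab hnd hav hN2 hUD nJ hρ hθ hTm hJ hact hN hgK hnod hsp htr hE hmE hEE hcE nP ns nX nw nP'
  obtain ⟨C, hC⟩ : ∃ C, C = C₁ + C₂ + C₃ := ⟨_, rfl⟩
  rw [← hC] at hJ hN
  have hC1 : C₁ ≤ C := by linarith
  have hC2 : C₂ ≤ C := by linarith
  have hC3 : C₃ ≤ C := by linarith
  have hC0 : 0 ≤ C := by linarith
  have hwJ : w ≤ J := by omega
  have hg : g ≤ E := le_trans (Nat.le_mul_of_pos_right g (Nat.succ_pos K)) hgK
  have hmono : ∀ C' : ℝ, 1 ≤ C' → C' ≤ C → C' * Real.exp (C' * (θ + 1)) ≤ 2 ^ (3 * E) := by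
    intro C' h1 h2
    exact (mul_le_mul h2 (Real.exp_le_exp.2 (mul_le_mul_of_nonneg_right h2 (by linarith)))
      (Real.exp_pos _).le hC0).trans hN
  have hmonoJ : ∀ C' : ℝ, C' ≤ C → C' * (θ + 1) ≤ ((J : ℝ) - w) * Real.log 2 := fun C' h =>
    (mul_le_mul_of_nonneg_right h (by linarith)).trans hJ
  have hCN : C₂ ≤ 2 ^ (3 * E) := by
    refine le_trans ?_ (hmono C₂ hC₂ hC2)
    exact le_mul_of_one_le_right (by linarith) (Real.one_le_exp (by positivity))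
  have two : ∀ {a b c : ℕ}, a + c ≤ b → (2 : ℝ) ^ a / 2 ^ b ≤ 1 / 2 ^ c := by
    intro a b c h
    rw [div_le_div_iff₀ (by positivity) (by positivity), one_mul, ← pow_add]
    exact pow_le_pow_right₀ (by norm_num) h
  have mulp : ∀ a b : ℕ, (1 : ℝ) / 2 ^ a * (1 / 2 ^ b) = 1 / 2 ^ (a + b) := by
    intro a b
    rw [pow_add]
    field_simp
  have le1 : ∀ a : ℕ, (1 : ℝ) / 2 ^ a ≤ 1 := fun a => by
    rw [div_le_one (by positivity)]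
    exact one_le_pow₀ (by norm_num)
  have pU : (0 : ℝ) < 1 / 2 ^ nU := by positivity
  have pD : (0 : ℝ) < 1 / 2 ^ nD := by positivity
  have hκU : (2 : ℝ) ^ (w + E + 4) / 2 ^ J ≤ 1 / 2 ^ c * (1 / 2 ^ nU) := by
    rw [mulp]
    exact two (by omega)
  have hκD : (2 : ℝ) ^ (w + E + 4) / 2 ^ J ≤ 1 / 2 ^ c * (1 / 2 ^ nD) := by
    rw [mulp]
    exact two (by omega)
  obtain ⟨A', a1, a2, a3, a4⟩ := htie F A hA (y := y) (u := u) (v := v) (k := k) (e := E) (w := w)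
    (ρ := ρ) (P := PG) (g := g) (N := 3 * E) (R := X + 2 * T + 42 * E) (s := s) (c := c) (θ := θ) hyu hyv
    huv hlab hnd pU pD hκU hκD hN2 hwJ hρ (by omega) (by omega) hθ (hTm A hA (fun ω h => h)
      (by linarith)) (hmonoJ C₁ hC1) hact (hmono C₁ hC₁ hC1) (by omega) (by omega) (by omega)
    (by omega)
  have hA'0 : 0 < Pe F.p A' := by linarith
  obtain ⟨d1, d2, d3, d4⟩ := hafd F (A' := A') (k := k) (e := E) (w := w) (ρ := ρ) (P := PG)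
    (N := 3 * E) (R := X + 2 * T + 42 * E) (R' := X + 2 * T + 38 * E) (s := s) (c := c) a1 hyu hyv huv hlab hnd hav
    hκU hκD hN2 hwJ hρ (by omega) (by omega) a3 pU (le1 _) pD (le1 _) hCN (by omega) (by omega)
    (by omega)
  obtain ⟨big, hbig⟩ : ∃ big : F.Ω → Prop, big = fun ω => A' ω ∧
    (1 / 2 ^ X ≤ |Au F w z G u v θp (1 / 2 ^ nU) ω| ∨
      1 / 2 ^ X ≤ |Av F w z G v (1 / 2 ^ nD) ω|) := ⟨_, rfl⟩
  obtain ⟨sml, hsml⟩ : ∃ sml : F.Ω → Prop, sml = fun ω => A' ω ∧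
    (|Au F w z G u v θp (1 / 2 ^ nU) ω| ≤ 1 / 2 ^ X ∧
      |Av F w z G v (1 / 2 ^ nD) ω| ≤ 1 / 2 ^ X) := ⟨_, rfl⟩
  have hbA' : Sub big A' := fun ω hω => by
    rw [hbig] at hω
    exact hω.1
  have hsA' : Sub sml A' := fun ω hω => by
    rw [hsml] at hω
    exact hω.1
  have hcov := pe_or F.isLaw (A := A') (B₀ := big) (B₁ := sml) (fun ω hω => by
    rw [hbig, hsml]
    by_cases h1 : 1 / 2 ^ X ≤ |Au F w z G u v θp (1 / 2 ^ nU) ω|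
    · exact Or.inl ⟨hω, Or.inl h1⟩
    · by_cases h2 : 1 / 2 ^ X ≤ |Av F w z G v (1 / 2 ^ nD) ω|
      · exact Or.inl ⟨hω, Or.inr h2⟩
      · exact Or.inr ⟨hω, (not_le.1 h1).le, (not_le.1 h2).le⟩)
  by_cases hcase : Pe F.p A' / 2 ≤ Pe F.p big
  · exfalso
    obtain ⟨B', b1, b2, b3⟩ := hnod big (fun ω hω => a1 ω (hbA' ω hω)) (by linarith)
    have h1 := big_fam a1 hyu hyv huv hnd d1 hUD hE hEE hcE hsp (B' := B')
      (fun ω hω => hbA' ω (b1 ω hω)) (fun ω hω => by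
        have h2 := b1 ω hω
        rw [hbig] at h2
        exact h2.2) (fun ω hω => by
        obtain ⟨ν, e1, e2⟩ := b3 ω hω
        exact ⟨ν, fun i => ⟨hbA' _ (e1 i).1, (e1 i).2⟩, e2⟩) htr
    linarith
  · push Not at hcase
    have hs0 : 0 < Pe F.p sml := by linarith
    have hs8 : Pe F.p A ≤ 8 * Pe F.p sml := by linarith
    have hsA : Sub sml A := fun ω hω => a1 ω (hsA' ω hω)
    obtain ⟨B, b1, b2, b3⟩ := hcls F sml hs0 (y := y) (u := u) (v := v) (k := k) (e := E) (w := w)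
      (ρ := ρ) (PG := PG) (M' := X - w - 3 * E - 6) (N := 3 * E) (x := X) (R := X + 2 * T + 42 * E)
      (R' := X + 2 * T + 38 * E) (P := P) (c := c) (θ := θ) hyu hyv huv (hlab.sub hsA) (hnd.sub hsA) hwJ
      pU (le1 _) pD (le1 _) (fun ω hω => by
        rw [hsml] at hω
        exact hω.2) (fun ω hω => d2 ω (hsA' ω hω)) (fun ω hω => d3 ω (hsA' ω hω))
      (fun ω hω => d4 ω (hsA' ω hω)) (fun ω hω => a4 ω (hsA' ω hω)) hθ (fun B hB hBs hBP =>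
        hTm B hB (fun ω hω => hsA ω (hBs ω hω)) (by linarith)) (hmonoJ C₃ hC3)
      (hmono C₃ hC₃ hC3) (by omega) (by omega) (by omega) (by omega) (by omega) (by omega)
    refine ⟨B, fun ω hω => hsA ω (b1 ω hω), ?_, b3⟩
    calc Pe F.p A ≤ 8 * Pe F.p sml := hs8
      _ ≤ 8 * (36 * cI m * Pe F.p B) := mul_le_mul_of_nonneg_left b2 (by norm_num)
      _ = 288 * cI m * Pe F.p B := by ring

end Pool.JVE
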