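import Pool.Agent.H62.AFN.One

/-!
# Affine labels over three coordinates in a class

`aff_tcn`: a closed label of `k` over `y`, `u`, `v` in the balls of a class may be taken affine, of
the full precision. The slopes of `u` over `y` and of `v - θ u` over `y`, with a closed `θ`, are
known in natural units only; nothing is assumed about the velocity of `k`. The class is full behind
the numbers.
-/

set_option autoImplicit false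

namespace Pool.JVE

open Finset MvPolynomial
open Pool.Agent.H49.Ent Pool.Agent.H32.Dense Pool.STK Pool.KA Pool.KSAT Pool.K2S Pool.PB Pool.GEN
open Pool.S6C
open Pool.GRW (tmc_bas bas_part)
open Pool.LA91 (FulC)

variable {m J : ℕ}

/-- **The improvements, several times.** -/
theorem itr_cls {S : PCl m} {C₀ : ℝ} (htm : TmC S C₀) {c : ℕ → Fin m} {k : Fin m}
    {W x δ e₀ U D c₁ : ℝ} (hx : 0 < x) (hc₁ : 0 < c₁) {K : ℕ}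
    (H : Bas S (fun J F A => ∀ (V : Type) (z : PtT F → V) (z' : LnT F → V)
        (G : V → MvPolynomial (Option (Fin m)) ℝ) (ρ PG s s' : ℕ)
        (au cu bv cv θp : PtT F → ℝ) (θs ju jv : LnT F → ℝ),
        LbOK F {c 0, c 1, c 2} k K ⌊δ * J⌋₊ J ⌊W * J⌋₊ ρ PG A z z' G →
        ND F A (c 0) (c 1) (c 2) ⌊W * J⌋₊ ⌊e₀ * J⌋₊ au cu bv cv θp θs ju jv
          (1 / 2 ^ ⌊(U - W - e₀) * J⌋₊) (1 / 2 ^ ⌊(D - W - e₀) * J⌋₊) (1 / 2 ^ ⌊x / 2 * J⌋₊) →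
        HN F A ⌊W * J⌋₊ (c 0) (c 1) (c 2) au bv θp (1 / 2 ^ ⌊(U - W - e₀) * J⌋₊)
          (1 / 2 ^ ⌊(D - W - e₀) * J⌋₊) z G (1 / 2 ^ s) → ρ ≤ ⌊W * J⌋₊ →
        PG + ⌊δ * J⌋₊ + m + 3 ≤ J → s' + ⌊x / 32 * J⌋₊ + 1 + 2 * ⌊x / 8 * J⌋₊ ≤ PG →
        s' + ⌊x / 32 * J⌋₊ + 1 + 2 * ⌊x / 8 * J⌋₊ ≤ s + ⌊x / 2 * J⌋₊ →
        ⌊W * J⌋₊ ≤ s' + ⌊x / 32 * J⌋₊ →
        ∃ B : F.Ω → Prop, Sub B A ∧ Pe F.p A ≤ c₁ * Pe F.p B ∧
          HN F B ⌊W * J⌋₊ (c 0) (c 1) (c 2) au bv θp (1 / 2 ^ ⌊(U - W - e₀) * J⌋₊)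
          (1 / 2 ^ ⌊(D - W - e₀) * J⌋₊) z G (1 / 2 ^ s'))) (n : ℕ) :
    Bas S (fun J F A => ∀ (V : Type) (z : PtT F → V) (z' : LnT F → V)
        (G : V → MvPolynomial (Option (Fin m)) ℝ) (ρ PG s T : ℕ)
        (au cu bv cv θp : PtT F → ℝ) (θs ju jv : LnT F → ℝ),
        LbOK F {c 0, c 1, c 2} k K ⌊δ * J⌋₊ J ⌊W * J⌋₊ ρ PG A z z' G →
        ND F A (c 0) (c 1) (c 2) ⌊W * J⌋₊ ⌊e₀ * J⌋₊ au cu bv cv θp θs ju jv
          (1 / 2 ^ ⌊(U - W - e₀) * J⌋₊) (1 / 2 ^ ⌊(D - W - e₀) * J⌋₊) (1 / 2 ^ ⌊x / 2 * J⌋₊) →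
        HN F A ⌊W * J⌋₊ (c 0) (c 1) (c 2) au bv θp (1 / 2 ^ ⌊(U - W - e₀) * J⌋₊)
          (1 / 2 ^ ⌊(D - W - e₀) * J⌋₊) z G (1 / 2 ^ s) → ρ ≤ ⌊W * J⌋₊ →
        PG + ⌊δ * J⌋₊ + m + 3 ≤ J → T + ⌊x / 32 * J⌋₊ + 1 + 2 * ⌊x / 8 * J⌋₊ ≤ PG →
        ⌊W * J⌋₊ ≤ T → ⌊W * J⌋₊ ≤ s + ⌊x / 32 * J⌋₊ →
        ∃ B : F.Ω → Prop, Sub B A ∧ Pe F.p A ≤ c₁ ^ n * Pe F.p B ∧
          HN F B ⌊W * J⌋₊ (c 0) (c 1) (c 2) au bv θp (1 / 2 ^ ⌊(U - W - e₀) * J⌋₊)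
          (1 / 2 ^ ⌊(D - W - e₀) * J⌋₊) z G (1 / 2 ^ min T (s + n * ⌊x / 16 * J⌋₊))) := by
  induction n with
  | zero =>
    refine (tmc_bas htm one_pos).mono 0 fun J _ F A _ => ?_
    intro V z z' G ρ PG s T au cu bv cv θp θs ju jv _ _ hN _ _ _ _ _
    refine ⟨A, fun ω h => h, by rw [pow_zero, one_mul], hN.mono ?_⟩
    exact Pool.PB.inv_mono (by rw [zero_mul, add_zero]; exact min_le_right _ _)
  | succ n ih =>
    have H' := bas_part H (c := c₁ ^ n) (by positivity)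
    obtain ⟨J₂, hJ₂⟩ := exists_nat_ge (100 / (x / 16))
    refine Bas.mono J₂ (ih.and H') ?_
    rintro J hJ F A ⟨h1, h2⟩ V z z' G ρ PG s T au cu bv cv θp θs ju jv hG hnd hN hρ nG n1 n2 n3
    have hJ0 : (0 : ℝ) ≤ J := Nat.cast_nonneg J
    have j2 : (J₂ : ℝ) ≤ J := by exact_mod_cast hJ
    have k2 : (100 : ℝ) ≤ x / 16 * J := by
      have := hJ₂.trans j2
      rw [div_le_iff₀ (by linarith only [hx])] at this
      linarith only [this]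
    have hcast : ∀ a b : ℕ, (a : ℝ) ≤ b → a ≤ b := fun a b h => by exact_mod_cast h
    have g0 : ∀ z : ℝ, 0 ≤ z → ((⌊z * J⌋₊ : ℕ) : ℝ) ≤ z * J := fun z hz =>
      Nat.floor_le (mul_nonneg hz hJ0)
    have g1 : ∀ z : ℝ, z * J - 1 < ((⌊z * J⌋₊ : ℕ) : ℝ) := fun z => Nat.sub_one_lt_floor _
    obtain ⟨B, b1, b2, b3⟩ := h1 V z z' G ρ PG s T au cu bv cv θp θs ju jv hG hnd hN hρ nG n1 n2 n3
    obtain ⟨g, hg⟩ : ∃ g, g = ⌊x / 16 * J⌋₊ := ⟨_, rfl⟩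
    obtain ⟨Y, hY⟩ : ∃ Y, Y = ⌊x / 8 * J⌋₊ := ⟨_, rfl⟩
    obtain ⟨Z, hZ⟩ : ∃ Z, Z = ⌊x / 32 * J⌋₊ := ⟨_, rfl⟩
    obtain ⟨cc, hcc⟩ : ∃ cc, cc = ⌊x / 2 * J⌋₊ := ⟨_, rfl⟩
    have r0 : g + Z + 1 + 2 * Y ≤ cc := hcast _ _ (by
      rw [hg, hZ, hY, hcc]
      push_cast
      have a1 := g0 (x / 16) (by linarith only [hx])
      have a2 := g0 (x / 32) (by linarith only [hx])
      have a3 := g0 (x / 8) (by linarith only [hx])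
      have a4 := g1 (x / 2)
      linarith only [a1, a2, a3, a4, k2])
    rw [← hg] at b3 ⊢
    have e0 : (n + 1) * g = n * g + g := by ring
    have hs1 : min T (s + (n + 1) * g) ≤ T := min_le_left _ _
    have hs2 : min T (s + (n + 1) * g) ≤ min T (s + n * g) + g := by
      rw [e0]
      omega
    have hs3 : ⌊W * (J : ℝ)⌋₊ ≤ min T (s + (n + 1) * g) + Z := by
      rw [← hZ] at n3
      rw [e0]
      omega
    obtain ⟨B₁, d1, d2, d3⟩ := h2 B b1 b2 V z z' G ρ PG (min T (s + n * g))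
      (min T (s + (n + 1) * g)) au cu bv cv θp θs ju jv (hG.sub b1) (hnd.sub b1) b3 hρ nG (by
        rw [← hZ, ← hY] at n1 ⊢
        omega) (by
        rw [← hZ, ← hY, ← hcc]
        omega) (by
        rw [← hZ]
        exact hs3)
    refine ⟨B₁, fun ω hω => b1 ω (d1 ω hω), ?_, d3⟩
    have h3 := mul_le_mul_of_nonneg_left d2 (by positivity : (0 : ℝ) ≤ c₁ ^ n)
    calc Pe F.p A ≤ c₁ ^ n * Pe F.p B := b2
      _ ≤ c₁ ^ n * (c₁ * Pe F.p B₁) := h3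
      _ = c₁ ^ (n + 1) * Pe F.p B₁ := by ring

end Pool.JVE
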