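import Pool.Agent.H62.OWN.Hfm
import Pool.Agent.H6.OWN.Tie
import Pool.Agent.H6.OWN.TieB

/-!
# Labels along one direction, relative to the gradient at the exact point

`tie_sh`: `tie_fam` for the label minus a linear form which is a function of the exact point. If the
form is the gradient of the label at the exact point no velocity of the coordinate `k` is needed,
and the velocities of the other coordinates enter with the variation of the gradient only.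
-/

set_option autoImplicit false

namespace Pool.JVE

open Finset MvPolynomial
open Pool.Agent.H49.Ent Pool.Agent.H32.Dense Pool.STK Pool.KA Pool.KSAT Pool.K2S Pool.PB Pool.GEN
open Pool.MIC6 (mvp wt wp wpt wp_eq dlb deg_dlb eval_dlb slp_key lc_pos lc_none pnt)
open Pool.FLF (Fam.sub)
open Pool.GRD (LbP)
open Pool.PB.Trl (rt rt_mem t_rt)

variable {m J : ℕ}

/-- A linear form. -/
def lf (g b : Option (Fin m) → ℝ) : ℝ := ∑ o, g o * b o

theorem lf_add (g b b' : Option (Fin m) → ℝ) : lf g (b + b') = lf g b + lf g b' := by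
  unfold lf
  rw [← Finset.sum_add_distrib]
  exact Finset.sum_congr rfl fun o _ => by
    rw [Pi.add_apply]
    ring

theorem lf_smul (g b : Option (Fin m) → ℝ) (c : ℝ) : lf g (c • b) = c * lf g b := by
  unfold lf
  rw [Finset.mul_sum]
  exact Finset.sum_congr rfl fun o _ => by
    rw [Pi.smul_apply, smul_eq_mul]
    ring

theorem lf_sub (g b b' : Option (Fin m) → ℝ) : lf g (b - b') = lf g b - lf g b' := by
  unfold lf
  rw [← Finset.sum_sub_distrib]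
  exact Finset.sum_congr rfl fun o _ => by
    rw [Pi.sub_apply]
    ring

/-- The line of the sample. -/
theorem wpt_lin (F : Fam m J) {w : ℕ} (hw : w ≤ J) (ω : F.Ω) (τ : ℝ) :
    wpt F w ω τ = bt F ω + (1 / 2 ^ w * (τ - rt F w ω)) • bd F ω := by
  funext o
  cases o with
  | none =>
    have ht := t_rt F hw ω
    show wt F w ω τ = F.t ω + 1 / 2 ^ w * (τ - rt F w ω) * 1
    unfold wt
    rw [ht]
    ring
  | some j => exact wp_eq F hw ω τ j

/-- The point on the plane of the line. -/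
theorem mvp_lin (F : Fam m J) (w : ℕ) (ω : F.Ω) (τ x : ℝ) (sl : Fin m → ℝ) :
    mvp (F.u ω) (F.d ω) sl (wt F w ω τ) x = wpt F w ω τ + x • svc sl := by
  funext o
  cases o with
  | none =>
    show wt F w ω τ = wt F w ω τ + x * 0
    ring
  | some j =>
    show F.u ω j + F.d ω j * wt F w ω τ + sl j * x = wp F w ω τ j + x * sl j
    unfold wp
    ring

/-- The polynomial minus the linear form. -/
noncomputable def shp (g : Option (Fin m) → ℝ) (G : MvPolynomial (Option (Fin m)) ℝ) :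
    MvPolynomial (Option (Fin m)) ℝ := G - ∑ o, C (g o) * X o

theorem eval_shp (g b : Option (Fin m) → ℝ) (G : MvPolynomial (Option (Fin m)) ℝ) :
    eval b (shp g G) = eval b G - lf g b := by
  unfold shp lf
  simp only [map_sub, map_sum, map_mul, eval_C, eval_X]

theorem deg_shp (g : Option (Fin m) → ℝ) {G : MvPolynomial (Option (Fin m)) ℝ} {K : ℕ}
    (hK : 1 ≤ K) (hG : G.totalDegree ≤ K) : (shp g G).totalDegree ≤ K := by
  unfold shp
  refine (totalDegree_sub _ _).trans (max_le hG (totalDegree_finsetSum_le fun o _ => ?_))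
  refine (totalDegree_mul _ _).trans ?_
  rw [totalDegree_C, totalDegree_X, zero_add]
  exact hK

/-- **Labels along one direction, relative to a linear form.** -/
theorem tie_sh (n K : ℕ) (hK : 1 ≤ K) : ∃ C : ℝ, 1 ≤ C ∧ ∀ {J : ℕ} (F : Fam n J)
    (A : F.Ω → Prop) (hA : 0 < Pe F.p A) {I : Finset (Fin n)} {κ k : Fin n} {w P : ℕ}
    {V : Type} {z : PtT F → V} {z' : LnT F → V} {G : V → MvPolynomial (Option (Fin n)) ℝ}
    {gp : PtT F → Option (Fin n) → ℝ} {sl : PtT F → Fin n → ℝ} {ρ s₀ err M₂ θ : ℝ},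
    LbP F I k K J w P A z z' G → w ≤ J → 0 ≤ θ →
    (Fam.sub F A hA).Tm θ → C * (θ + 1) ≤ ((J : ℝ) - w) * Real.log 2 → 0 < ρ → ρ ≤ 1 →
    s₀ ≤ ρ * (1 / 2 ^ w) / 16 → 0 ≤ M₂ →
    (∀ ω ω', A ω → A ω' → ptr F J ω = ptr F J ω' → |F.x ω' κ - F.x ω κ| ≤ s₀ ∧
      |(F.x ω' k - lf (gp (ptr F J ω)) (bt F ω')) -
        (F.x ω k - lf (gp (ptr F J ω)) (bt F ω))| ≤ s₀) →
    (∀ ω, A ω → |F.d ω k - lf (gp (ptr F J ω)) (bd F ω)| ≤ err) →
    (∀ ω ω', A ω → A ω' → ptr F J ω = ptr F J ω' → ∀ σ ∈ Set.Icc (0 : ℝ) 1,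
      |(eval (wpt F w ω' σ) (G (z' (slam F w ω))) - lf (gp (ptr F J ω)) (wpt F w ω' σ)) -
        (eval (mvp (F.u ω) (F.d ω) (sl (ptr F J ω)) (wt F w ω σ)
          (wp F w ω' σ κ - wp F w ω σ κ)) (G (z' (slam F w ω))) -
        lf (gp (ptr F J ω)) (mvp (F.u ω) (F.d ω) (sl (ptr F J ω)) (wt F w ω σ)
          (wp F w ω' σ κ - wp F w ω σ κ)))| ≤ M₂) →
    (∀ B : F.Ω → Prop, Sub B A → Pe F.p A / 2 ≤ Pe F.p B → ∃ B' : F.Ω → Prop, Sub B' B ∧
      Pe F.p B / 2 ≤ Pe F.p B' ∧ ∀ ω, B' ω → ∃ ν : Fin (K + 2) → F.Ω,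
        (∀ i, B (ν i) ∧ ptr F J (ν i) = ptr F J ω) ∧
          ∀ i j, i ≠ j → ρ ≤ |F.d (ν i) κ - F.d (ν j) κ|) →
    ∃ B : F.Ω → Prop, Sub B A ∧ Pe F.p A / 4 ≤ Pe F.p B ∧ ∀ ω, B ω →
      ∀ σ ∈ Set.Icc (0 : ℝ) 1, ∀ η : ℝ, |η| ≤ 1 →
      |eval (mvp (F.u ω) (F.d ω) (sl (ptr F J ω)) (wt F w ω σ) (1 / 2 ^ w * η))
          (G (z' (slam F w ω))) -
        (wp F w ω σ k + lf (gp (ptr F J ω)) (svc (sl (ptr F J ω))) * (1 / 2 ^ w * η))| ≤
        C * (1 / ρ) ^ (K + 1) *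
        (Real.exp (C * (θ + 1)) / 2 ^ P + M₂ + s₀ + 1 / 2 ^ w * (2 * err)) := by
  classical
  obtain ⟨C₁, hC₁, hrem⟩ := Pool.PZ.Zrt.rem_ev (m := n) (K + 1)
  obtain ⟨C₂, hC₂, hslp⟩ := slp_key K
  refine ⟨C₁ + C₂, by linarith, ?_⟩
  intro J F A hA I κ k w P V z z' G gp sl ρ s₀ err M₂ θ hL hw hθ hTm hJ hρ hρ1 hs hM₂ hfib hvel
    hmv hnod
  have hS₀ : (0 : ℝ) < 1 / 2 ^ P := by positivity
  obtain ⟨B, hBA, hPB, hB⟩ := hrem J F A hA w (fun s => dv w (fun s _ => G (z' s)) k s)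
    (1 / 2 ^ P) θ hw (fun s => natDegree_dv w (fun s _ => hL.deg (z' s)) k s) hS₀ hθ hTm (by
      refine le_trans ?_ hJ
      refine mul_le_mul_of_nonneg_right ?_ (by linarith)
      linarith) (by
      intro ω hω
      show |(dv w (fun s _ => G (z' s)) k (slam F w ω)).eval (rt F w ω)| ≤ _
      rw [eval_dv F hw (fun s _ => G (z' s)) ω k]
      exact hL.pos ω hω)
  obtain ⟨B', hB'B, hPB', hB'⟩ := hnod B hBA hPB
  refine ⟨B', fun ω hω => hBA ω (hB'B ω hω), by linarith, fun ω hω => ?_⟩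
  have hωB := hB'B ω hω
  have hωA := hBA ω hωB
  obtain ⟨ν, hν, hsep⟩ := hB' ω hω
  have hνA : ∀ i, A (ν i) := fun i => hBA _ (hν i).1
  have hptr : ∀ i, ptr F J ω = ptr F J (ν i) := fun i => (hν i).2.symm
  have hf := fun i => hfib ω (ν i) hωA (hνA i) (hptr i)
  have hT : ∀ i, F.T (ν i) = F.T ω := fun i =>
    (congrArg (fun p : PtT F => p.2.1) (hptr i)).symm
  have hT1 : ∀ i, (slam F w (ν i)).2.2 = (slam F w ω).2.2 := by
    intro i
    show F.T (ν i) / 2 ^ (J - w) = F.T ω / 2 ^ (J - w)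
    rw [hT i]
  have hrt : ∀ i, rt F w (ν i) = rt F w ω := by
    intro i
    unfold rt
    rw [hT i]
  have hz : ∀ i, z' (slam F w (ν i)) = z' (slam F w ω) := by
    intro i
    rw [← hL.cls _ (hνA i), ← hL.cls _ hωA, hptr i]
  have hwt : ∀ i σ, wt F w (ν i) σ = wt F w ω σ := by
    intro i σ
    unfold wt
    rw [hT1 i]
  obtain ⟨Gz, hGz⟩ : ∃ Gz, Gz = G (z' (slam F w ω)) := ⟨_, rfl⟩
  obtain ⟨g, hg⟩ : ∃ g, g = gp (ptr F J ω) := ⟨_, rfl⟩
  obtain ⟨sl', hsl'⟩ : ∃ sl', sl' = sl (ptr F J ω) := ⟨_, rfl⟩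
  have hG : Gz.totalDegree ≤ K := by rw [hGz]; exact hL.deg _
  have hvel' : ∀ i, |F.d (ν i) k - lf g (bd F (ν i))| ≤ err := fun i => by
    have h := hvel (ν i) (hνA i)
    rw [← hptr i, ← hg] at h
    exact h
  have hpath : ∀ (ω' : F.Ω) (τ : ℝ) (j : Fin n), rt F w ω' = rt F w ω →
      F.x ω' j + 1 / 2 ^ w * (τ - rt F w ω) * F.d ω' j = wp F w ω' τ j := by
    intro ω' τ j hr
    rw [wp_eq F hw, hr]
  have hval : ∀ (ω' : F.Ω) (τ : ℝ), rt F w ω' = rt F w ω →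
      (F.x ω' k - lf g (bt F ω')) + 1 / 2 ^ w * (τ - rt F w ω) *
        (F.d ω' k - lf g (bd F ω')) = wp F w ω' τ k - lf g (wpt F w ω' τ) := by
    intro ω' τ hr
    rw [← hpath ω' τ k hr, wpt_lin F hw, lf_add, lf_smul, hr]
    ring
  have h1 := hslp (G := dlb κ (F.u ω) (F.d ω) sl' (shp g Gz)) κ
    (t₀ := ((slam F w ω).2.2 : ℝ) / 2 ^ w)
    (h := 1 / 2 ^ w) (τ₀ := rt F w ω) (ρ := ρ) (s₀ := s₀) (err := 2 * err) (α := 0)
    (M₁ := Real.exp (C₁ * (θ + 1)) * (1 / 2 ^ P) + M₂) (a := 0) (y := F.x ω κ)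
    (v := F.x ω k - lf g (bt F ω)) (d := F.d ω κ) (D := F.d ω k - lf g (bd F ω))
    (y' := fun i => F.x (ν i) κ) (v' := fun i => F.x (ν i) k - lf g (bt F (ν i)))
    (d' := fun i => F.d (ν i) κ) (D' := fun i => F.d (ν i) k - lf g (bd F (ν i)))
    (deg_dlb κ _ _ _ (deg_shp g hK hG)) (by positivity) hρ hs hρ1
    (rt_mem F w ω) (F.dir ω κ) (fun i => F.dir _ κ) (fun i => (hf i).1)
    (fun i => by
      have h2 := (hf i).2
      rw [← hg] at h2
      exact h2) (fun i => by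
      have h2 := hvel' i
      have h3 := hvel ω hωA
      rw [← hg] at h3
      rw [zero_mul, sub_zero]
      refine (abs_sub _ _).trans ?_
      linarith) (by rw [abs_zero]) hsep ?_
  · intro σ hσ η hη
    have h2 := h1 σ hσ η hη
    rw [hpath ω σ κ rfl, hval ω σ rfl, eval_dlb] at h2
    have e1 : wp F w ω σ κ + 1 / 2 ^ w * η - (F.u ω κ + F.d ω κ *
        (((slam F w ω).2.2 : ℝ) / 2 ^ w + 1 / 2 ^ w * σ)) = 1 / 2 ^ w * η := by
      unfold wp wt
      ring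
    rw [e1] at h2
    have e4 : ((slam F w ω).2.2 : ℝ) / 2 ^ w + 1 / 2 ^ w * σ = wt F w ω σ := rfl
    rw [e4, eval_shp, mvp_lin, lf_add, lf_smul, ← mvp_lin] at h2
    rw [← hGz, ← hg, ← hsl']
    have h0 : 0 ≤ s₀ := (abs_nonneg _).trans (hf 0).1
    have he : 0 ≤ err := (abs_nonneg _).trans (hvel ω hωA)
    have h3 : Real.exp (C₁ * (θ + 1)) ≤ Real.exp ((C₁ + C₂) * (θ + 1)) := by
      refine Real.exp_le_exp.2 (mul_le_mul_of_nonneg_right ?_ (by linarith))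
      linarith
    have h4 : Real.exp (C₁ * (θ + 1)) * (1 / 2 ^ P) ≤
        Real.exp ((C₁ + C₂) * (θ + 1)) / 2 ^ P := by
      rw [mul_one_div]
      exact div_le_div_of_nonneg_right h3 (by positivity)
    have e5 : eval (mvp (F.u ω) (F.d ω) sl' (wt F w ω σ) (1 / 2 ^ w * η)) Gz -
        (wp F w ω σ k + lf g (svc sl') * (1 / 2 ^ w * η)) =
        eval (mvp (F.u ω) (F.d ω) sl' (wt F w ω σ) (1 / 2 ^ w * η)) Gz -
        (lf g (wpt F w ω σ) + 1 / 2 ^ w * η * lf g (svc sl')) -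
        (wp F w ω σ k - lf g (wpt F w ω σ) + 0 * (1 / 2 ^ w * η)) := by ring
    rw [e5]
    refine h2.trans ?_
    refine mul_le_mul ?_ (by linarith) (by positivity) (by positivity)
    refine mul_le_mul_of_nonneg_right ?_ (by positivity)
    linarith
  · intro i τ hτ
    have h2 := hB (ν i) (hν i).1 τ hτ
    have h3 : (dv w (fun s _ => G (z' s)) k (slam F w (ν i))).eval τ =
        wp F w (ν i) τ k - eval (wpt F w (ν i) τ) Gz := by
      unfold dv
      rw [Polynomial.eval_sub, Pool.KBX.eval_aeval_poly, lc_pos F hw,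
        ← hpath (ν i) τ k (hrt i), hrt i]
      have e6 : (fun j => Polynomial.eval τ (lc w (slam F w (ν i)) j)) = wpt F w (ν i) τ := by
        rw [wpt_lin F hw]
        funext o
        cases o with
        | none =>
          have ht := t_rt F hw (ν i)
          show (lc w (slam F w (ν i)) none).eval τ = F.t (ν i) +
            1 / 2 ^ w * (τ - rt F w (ν i)) * 1
          rw [lc_none, ht]
          ring
        | some j => exact lc_pos F hw (ν i) j τ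
      rw [e6]
      show _ - eval _ (G (z' (slam F w (ν i)))) = _
      rw [hz i, ← hGz]
    have h4 : |(dv w (fun s _ => G (z' s)) k (slam F w (ν i))).eval τ| ≤
        Real.exp (C₁ * (θ + 1)) * (1 / 2 ^ P) := h2
    rw [h3] at h4
    have h5 := hmv ω (ν i) hωA (hνA i) (hptr i) τ hτ
    rw [← hGz, ← hg, ← hsl'] at h5
    have e1 := hval (ν i) τ (hrt i)
    have e2 : F.x (ν i) κ + 1 / 2 ^ w * (τ - rt F w ω) * F.d (ν i) κ = wp F w (ν i) τ κ :=
      hpath (ν i) τ κ (hrt i)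
    show |F.x (ν i) k - lf g (bt F (ν i)) + 1 / 2 ^ w * (τ - rt F w ω) *
        (F.d (ν i) k - lf g (bd F (ν i))) -
      eval (pnt κ (((slam F w ω).2.2 : ℝ) / 2 ^ w + 1 / 2 ^ w * τ)
        (F.x (ν i) κ + 1 / 2 ^ w * (τ - rt F w ω) * F.d (ν i) κ))
        (dlb κ (F.u ω) (F.d ω) sl' (shp g Gz))| ≤ _
    rw [e1, e2, eval_dlb, eval_shp]
    have e3 : wp F w (ν i) τ κ - (F.u ω κ + F.d ω κ *
        (((slam F w ω).2.2 : ℝ) / 2 ^ w + 1 / 2 ^ w * τ)) =
        wp F w (ν i) τ κ - wp F w ω τ κ := rfl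
    have e4 : ((slam F w ω).2.2 : ℝ) / 2 ^ w + 1 / 2 ^ w * τ = wt F w ω τ := rfl
    rw [e3, e4]
    obtain ⟨q, hq⟩ : ∃ q, q = eval (mvp (F.u ω) (F.d ω) sl' (wt F w ω τ)
      (wp F w (ν i) τ κ - wp F w ω τ κ)) Gz - lf g (mvp (F.u ω) (F.d ω) sl' (wt F w ω τ)
      (wp F w (ν i) τ κ - wp F w ω τ κ)) := ⟨_, rfl⟩
    rw [← hq] at h5 ⊢
    have e5 : wp F w (ν i) τ k - lf g (wpt F w (ν i) τ) - q =
        (wp F w (ν i) τ k - eval (wpt F w (ν i) τ) Gz) +
        (eval (wpt F w (ν i) τ) Gz - lf g (wpt F w (ν i) τ) - q) := by ring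
    rw [e5]
    exact (abs_add_le _ _).trans (add_le_add h4 h5)

end Pool.JVE
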